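import Pool.Agent.Helper46.RL.St

set_option autoImplicit false

namespace Pool.Agent.Helper46.RL

open Subgroup
open scoped commutatorElement

namespace ASMx

/-- trivial, or computed with fewer than `w` multiplications -/
def Ck {G : Type} [Group G] (S : Set G) (w : ℕ) (a : G) : Prop :=
  a = 1 ∨ ∃ c, c + 1 ≤ w ∧ Re S c {a}

theorem Ck.mono {G : Type} [Group G] {S S' : Set G} {w w' : ℕ} {a : G} (h : Ck S w a)
    (hS : S ⊆ S') (hw : w ≤ w') : Ck S' w' a := by
  rcases h with h | ⟨c, hc, h⟩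
  · exact Or.inl h
  · exact Or.inr ⟨c, hc.trans hw, h.src hS⟩

theorem Ck.mul {G : Type} [Group G] {S : Set G} {w w' : ℕ} {a b : G} (ha : Ck S w a)
    (hb : Ck S w' b) : Ck S (w + w') (a * b) := by
  rcases ha with rfl | ⟨c, hc, ha⟩
  · rw [one_mul]
    exact hb.mono le_rfl (Nat.le_add_left _ _)
  rcases hb with rfl | ⟨c', hc', hb⟩
  · rw [mul_one]
    exact Or.inr ⟨c, by omega, ha⟩
  · refine Or.inr ⟨c + c' + 1, by omega, ?_⟩
    have h1 : Re S (c + c') ({a} ∪ {b}) := ha.trans (hb.src Set.subset_union_left)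
    have h2 := h1.step (a := a) (b := b) (Or.inr (Or.inl rfl)) (Or.inr (Or.inr rfl))
    exact h2.sub (by
      rintro z rfl
      exact Set.mem_insert _ _)

theorem Ck.of_mem {G : Type} [Group G] {S : Set G} {a : G} (ha : a ∈ S) : Ck S 1 a :=
  Or.inr ⟨0, le_rfl, Re.refl (Set.singleton_subset_iff.mpr ha)⟩

/-- weights of the layers -/
def wt {G : Type} (E : ℕ → ℕ) (m : ℕ → ℕ) (L : ℕ → List (G × ℕ)) (j : ℕ) : ℕ :=
  cw E (L j) + if 2 ≤ m j then 1 else 0

theorem decomp (hPOW : StPOW) (E : ℕ → ℕ) (hE : EXP E) {G : Type} [Group G] [Finite G]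
    (p : ℕ → G) (m : ℕ → ℕ) (hp : PC (fun j => derivedSeries G j) p m)
    (L : ℕ → List (G × ℕ)) (h : ℕ)
    (h1 : ∀ j < h, ∀ q ∈ L j, q.1 ∈ derivedSeries G j ∧ 2 ≤ q.2 ∧ q.2 ∣ Nat.card G)
    (h2 : ∀ j < h, ∀ g ∈ derivedSeries G j, ∃ i < m j, ∃ r ∈ derivedSeries G (j + 1),
      Fac (L j) g (p j ^ i * r)) (g : G) :
    ∀ k ≤ h, ∃ e : ℕ → ℕ, (∀ j, e j < m j) ∧ ∃ r ∈ derivedSeries G k, ∃ a : G,
      g = a * r ∧ Ck ({z | ∃ j < k, z ∈ lt (L j)} ∪ {z | ∃ j < k, e j ≠ 0 ∧ z = p j ^ e j})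
        (∑ j ∈ Finset.range k, wt E m L j) a := by
  intro k
  induction k with
  | zero =>
    intro _
    refine ⟨fun _ => 0, fun j => hp.pos j, g, ?_, 1, (one_mul g).symm, Or.inl rfl⟩
    rw [derivedSeries_zero]; exact mem_top g
  | succ k ih =>
    intro hk
    obtain ⟨e, he, r, hr, a, hga, ha⟩ := ih (by omega)
    obtain ⟨i, hi, r', hr', hfac⟩ := h2 k (by omega) r hr
    obtain ⟨a', ha', hca, _⟩ := hPOW E hE G {z | ∃ j < k + 1, z ∈ lt (L j)} (L k) r
      (p k ^ i * r') (fun q hq => ⟨⟨k, Nat.lt_succ_self k, q.2, hq⟩, (h1 k (by omega) q hq).2.1⟩)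
      hfac
    set e' := Function.update e k i with he'
    have hek : e' k = i := Function.update_self _ _ _
    have hej : ∀ j < k, e' j = e j := fun j hj => Function.update_of_ne hj.ne _ _
    refine ⟨e', ?_, r', hr', a * (a' * p k ^ i), ?_, ?_⟩
    · intro j
      by_cases hj : j = k
      · subst hj; rw [hek]; exact hi
      · rw [he', Function.update_of_ne hj]; exact he j
    · rw [hga, ha', mul_assoc, mul_assoc]
    · rw [Finset.sum_range_succ]
      refine Ck.mul (ha.mono ?_ le_rfl) ?_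
      · rintro z (⟨j, hj, hz⟩ | ⟨j, hj, hz, rfl⟩)
        · exact Or.inl ⟨j, by omega, hz⟩
        · refine Or.inr ⟨j, by omega, ?_, ?_⟩
          · rw [hej j hj]; exact hz
          · rw [hej j hj]
      · refine Ck.mul (w := cw E (L k)) (w' := if 2 ≤ m k then 1 else 0) ?_ ?_
        · exact Ck.mono hca Set.subset_union_left le_rfl
        · by_cases hi0 : i = 0
          · subst hi0
            rw [pow_zero]; exact Or.inl rfl
          · have hm : 2 ≤ m k := by omega
            rw [if_pos hm]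
            refine Ck.of_mem (Or.inr ⟨k, Nat.lt_succ_self k, ?_, ?_⟩)
            · rw [hek]; exact hi0
            · rw [hek]

/-- the list of all factors -/
def msl {G : Type} (m : ℕ → ℕ) (L : ℕ → List (G × ℕ)) : ℕ → List ℕ
  | 0 => []
  | (h + 1) => msl m L h ++ ((if 2 ≤ m h then [m h] else []) ++ (L h).map Prod.snd)

theorem msl_prod {G : Type} (m : ℕ → ℕ) (L : ℕ → List (G × ℕ)) (hm : ∀ j, 1 ≤ m j) (h : ℕ) :
    (msl m L h).prod = ∏ j ∈ Finset.range h, (m j * ((L j).map Prod.snd).prod) := by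
  induction h with
  | zero => simp [msl]
  | succ h ih =>
    rw [msl, List.prod_append, ih, Finset.prod_range_succ, List.prod_append]
    congr 2
    by_cases hm2 : 2 ≤ m h
    · rw [if_pos hm2]; simp
    · rw [if_neg hm2]
      have := hm h
      have : m h = 1 := by omega
      rw [this]; simp

theorem msl_sum {G : Type} (E : ℕ → ℕ) (m : ℕ → ℕ) (L : ℕ → List (G × ℕ)) (h : ℕ) :
    ((∑ j ∈ Finset.range h, if 2 ≤ m j then E (m j) + 1 else 0) +
      10 * ∑ j ∈ Finset.range h, (L j).length) + ∑ j ∈ Finset.range h, wt E m L j ≤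
    ((msl m L h).map fun k => E k + 11).sum := by
  induction h with
  | zero => simp [msl]
  | succ h ih =>
    rw [msl, List.map_append, List.sum_append, List.map_append, List.sum_append]
    rw [Finset.sum_range_succ, Finset.sum_range_succ, Finset.sum_range_succ]
    have h1 : (((L h).map Prod.snd).map fun k => E k + 11).sum = cw E (L h) + 10 * (L h).length := by
      unfold cw
      induction L h with
      | nil => simp
      | cons q l ihl =>
        simp only [List.map_cons, List.sum_cons, List.length_cons]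
        rw [ihl]; ring
    rw [h1]
    have h2 : (if 2 ≤ m h then E (m h) + 1 else 0) + (if 2 ≤ m h then 1 else 0) ≤
        ((if 2 ≤ m h then [m h] else []).map fun k => E k + 11).sum := by
      by_cases hm : 2 ≤ m h
      · simp only [if_pos hm, List.map_cons, List.map_nil, List.sum_cons, List.sum_nil]
        omega
      · simp [if_neg hm]
    unfold wt
    unfold wt at ih
    omega

theorem msl_mem {G : Type} (n : ℕ) (m : ℕ → ℕ) (L : ℕ → List (G × ℕ)) (hm : ∀ j, m j ∣ n)
    (h : ℕ) (hL : ∀ j < h, ∀ q ∈ L j, 2 ≤ q.2 ∧ q.2 ∣ n) :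
    ∀ k ∈ msl m L h, 2 ≤ k ∧ k ∣ n := by
  induction h with
  | zero => intro k hk; simp [msl] at hk
  | succ h ih =>
    intro k hk
    rw [msl, List.mem_append, List.mem_append] at hk
    rcases hk with hk | hk | hk
    · exact ih (fun j hj => hL j (by omega)) k hk
    · by_cases hm2 : 2 ≤ m h
      · rw [if_pos hm2, List.mem_singleton] at hk
        subst hk
        exact ⟨hm2, hm h⟩
      · rw [if_neg hm2] at hk
        simp at hk
    · rw [List.mem_map] at hk
      obtain ⟨q, hq, rfl⟩ := hk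
      exact hL h (Nat.lt_succ_self h) q hq

end ASMx

open ASMx in
theorem pASM (h1 : StPROD) (h2 : StIRR) (h3 : StPC) (h4 : StINV) (h5 : StPP) (h6 : StPOW) :
    StASM := by
  intro E hE G _ _ _ _ X hX
  obtain ⟨xs, ks, hxsX, hxs, hlen, hks, hksp⟩ := h2 G X hX
  have hne : xs ≠ [] := by
    rintro rfl
    have : (closure {x : G | x ∈ ([] : List G)} : Subgroup G) = ⊥ := by
      have : {x : G | x ∈ ([] : List G)} = ∅ := by
        ext x; simp
      rw [this, Subgroup.closure_empty]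
    rw [this] at hxs
    exact bot_ne_top hxs
  obtain ⟨p, m, hp, hp0, hmd⟩ := h3 G (fun j => derivedSeries G j) xs.prod
    (by show xs.prod ∈ derivedSeries G 0; rw [derivedSeries_zero]; exact mem_top _)
  obtain ⟨h, hh⟩ := (Group.isSolvable_def G).mp inferInstance
  obtain ⟨L, hL1, hL2, hL3, hL4⟩ := h1 G {x | x ∈ xs} p m hxs hp h
  refine ⟨msl m L h, ks, msl_mem _ m L hmd h (fun j hj q hq => (hL1 j hj q hq).2), ?_, hks, hksp,
    ?_⟩
  · rw [msl_prod m L hp.pos h, ← hL3, hh]
    simp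
  · intro g
    obtain ⟨Q, hPQ, hQ1, hQ2⟩ := h4 G xs hne
    obtain ⟨e, he, r, hr, a, hga, ha⟩ := decomp h6 E hE p m hp L h hL1 hL2 g h le_rfl
    have hr1 : r = 1 := by
      rw [hh] at hr
      exact (mem_bot).mp hr
    subst hr1
    rw [mul_one] at hga
    subst hga
    have hph : p h = 1 := by
      have := hp.mem h
      simp only [hh] at this
      exact (mem_bot).mp this
    have hPP := h5 E hE G p m e h 0 hp.nxt he (by
      rw [hph, inv_one]
      exact Re.refl le_rfl)
    rw [add_zero] at hPP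
    set T2 : Set G := {z | ∃ j ≤ h, z = p j ∨ z = (p j)⁻¹} ∪ {z | ∃ j < h, e j ≠ 0 ∧ z = p j ^ e j}
      with hT2
    set c2 := ∑ j ∈ Finset.range h, if 2 ≤ m j then E (m j) + 1 else 0 with hc2
    set c4 := 10 * ∑ j ∈ Finset.range h, (L j).length with hc4
    have hxsX' : {x | x ∈ xs} ⊆ X := hxsX
    have R1 : Re X (xs.length - 1) Q := hQ1.src hxsX'
    have R2 : Re (X ∪ Q) c2 T2 := hPP.src (by
      rintro z rfl
      rw [hp0]
      exact Or.inr hPQ)
    have R12 := R1.trans R2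
    have hPinv : xs.prod⁻¹ ∈ T2 := Or.inl ⟨0, Nat.zero_le _, Or.inr (by rw [hp0])⟩
    have R3 : Re (X ∪ (Q ∪ T2)) (2 * (xs.length - 1)) {x | x⁻¹ ∈ xs} := hQ2.src (by
      rintro z ((hz | hz) | hz)
      · exact Or.inl (hxsX' hz)
      · exact Or.inr (Or.inl hz)
      · rw [Set.mem_singleton_iff] at hz
        subst hz
        exact Or.inr (Or.inr hPinv))
    have R123 := R12.trans R3
    have R4 : Re (X ∪ (Q ∪ T2 ∪ {x | x⁻¹ ∈ xs})) c4 (pm {z | ∃ j < h, z ∈ lt (L j)}) := hL4.src (by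
      rintro z ((hz | hz) | (⟨j, hj, hz⟩ | ⟨j, hj, hz⟩))
      · exact Or.inl (hxsX' hz)
      · exact Or.inr (Or.inr hz)
      · exact Or.inr (Or.inl (Or.inr (Or.inl ⟨j, hj.le, Or.inl hz⟩)))
      · exact Or.inr (Or.inl (Or.inr (Or.inl ⟨j, hj.le, Or.inr (by rw [← hz, inv_inv])⟩))))
    have R1234 := R123.trans R4
    have hsum := msl_sum E m L h
    rw [← hc2, ← hc4] at hsum
    have hlen1 : 1 ≤ xs.length := by
      rcases xs with _ | ⟨x, l⟩
      · exact absurd rfl hne
      · simp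
    rcases ha with rfl | ⟨c, hc, ha⟩
    · -- the identity
      have R5 : Re (X ∪ (Q ∪ T2 ∪ {x | x⁻¹ ∈ xs} ∪ pm {z | ∃ j < h, z ∈ lt (L j)})) 1
          {xs.prod * xs.prod⁻¹} :=
        Re.mul (Or.inr (Or.inl (Or.inl (Or.inl hPQ))))
          (Or.inr (Or.inl (Or.inl (Or.inr hPinv))))
      rw [mul_inv_cancel] at R5
      refine (R1234.trans R5).mono le_rfl ?_ Set.subset_union_right
      rw [hlen]
      omega
    · have R5 : Re (X ∪ (Q ∪ T2 ∪ {x | x⁻¹ ∈ xs} ∪ pm {z | ∃ j < h, z ∈ lt (L j)})) c {g} :=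
        ha.src (by
          rintro z (hz | hz)
          · exact Or.inr (Or.inr (Or.inl hz))
          · exact Or.inr (Or.inl (Or.inl (Or.inr (Or.inr hz)))))
      refine (R1234.trans R5).mono le_rfl ?_ Set.subset_union_right
      rw [hlen]
      omega

end Pool.Agent.Helper46.RL
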