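import Pool.Agent.Helper46.RL.St

/-! RL (MP_d72c68_al), module BS -/

set_option autoImplicit false

namespace Pool.Agent.Helper46.RL

open Subgroup
open scoped commutatorElement

namespace BSx

/-- computing two sets one after the other -/
theorem two {G : Type} [Mul G] {S T U : Set G} {m n : ℕ} (h1 : Re S m T) (h2 : Re S n U) :
    Re S (m + n) (T ∪ U) :=
  h1.trans (h2.src Set.subset_union_left)

/-- the product of two computed elements -/
theorem prod {G : Type} [Mul G] {S : Set G} {m n : ℕ} {a b : G} (h1 : Re S m {a})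
    (h2 : Re S n {b}) : Re S (m + n + 1) {a * b} := by
  have h := (two h1 h2).step (a := a) (b := b) (Or.inr (Or.inl rfl)) (Or.inr (Or.inr rfl))
  exact h.sub (by intro x hx; exact Or.inl hx)

/-- multiplication by a constant on the right -/
theorem mulr {G : Type} [Mul G] {S : Set G} {m : ℕ} {a b : G} (h1 : Re S m {a}) (hb : b ∈ S) :
    Re S (m + 1) {a * b} := by
  have h := h1.step (a := a) (b := b) (Or.inr rfl) (Or.inl hb)
  exact h.sub (by intro x hx; exact Or.inl hx)

/-- multiplication by a constant on the left -/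
theorem mull {G : Type} [Mul G] {S : Set G} {m : ℕ} {a b : G} (h1 : Re S m {a}) (hb : b ∈ S) :
    Re S (m + 1) {b * a} := by
  have h := h1.step (a := b) (b := a) (Or.inl hb) (Or.inr rfl)
  exact h.sub (by intro x hx; exact Or.inl hx)

theorem inv_pow {G : Type} [Group G] [Finite G] (x : G) : x⁻¹ = x ^ (orderOf x - 1) := by
  have h0 : 0 < orderOf x := orderOf_pos x
  have h1 : x ^ (orderOf x - 1) * x = 1 := by
    rw [← pow_succ, Nat.sub_add_cancel h0, pow_orderOf_eq_one]
  exact (eq_inv_of_mul_eq_one_left h1).symm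

/-- a set containing `1` and closed under right multiplication by generators is everything -/
theorem closed {G : Type} [Group G] [Finite G] {X E : Set G} (hX : closure X = ⊤) (h1 : 1 ∈ E)
    (hE : ∀ y ∈ E, ∀ x ∈ X, y * x ∈ E) : ∀ g : G, g ∈ E := by
  intro g
  have hpow : ∀ y ∈ E, ∀ x ∈ X, ∀ k : ℕ, y * x ^ k ∈ E := by
    intro y hy x hx k
    induction k with
    | zero => simpa using hy
    | succ k ih => rw [pow_succ, ← mul_assoc]; exact hE _ ih x hx
  have hg : g ∈ closure X := by rw [hX]; trivial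
  induction hg using Subgroup.closure_induction_right with
  | one => exact h1
  | mul_right y _ x hx ih => exact hE _ ih x hx
  | mul_inv_cancel y _ x hx ih =>
    rw [inv_pow x]
    exact hpow _ ih x hx _

theorem main {G : Type} [Group G] [Finite G] {X : Set G} (hX : closure X = ⊤) : ∀ (n : ℕ)
    (S D : Set G) (e : ℕ), pm X ⊆ S → 1 ∈ S → D.Nonempty →
    (∀ c ∈ D, Re S e {c} ∧ Re S e {c⁻¹}) →
    Nat.card G < 2 ^ (n + 1) * D.ncard → ∀ g : G, Re S ((n + 1) * (4 * e + 4 * n + 4)) {g} := by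
  intro n
  induction n with
  | zero =>
    intro S D e hS h1 hD hR hc g
    by_cases hall : ∀ g : G, ∃ c₁ ∈ D, ∃ c₂ ∈ D, g = c₁⁻¹ * c₂
    · obtain ⟨c₁, hc₁, c₂, hc₂, rfl⟩ := hall g
      exact (prod (hR c₁ hc₁).2 (hR c₂ hc₂).1).weaken (by omega)
    · exfalso
      push Not at hall
      obtain ⟨y, hy⟩ := hall
      have hdisj : Disjoint D ((fun c => c * y) '' D) := by
        rw [Set.disjoint_left]
        rintro c hc' ⟨c', hc'', rfl⟩
        exact hy c' hc'' (c' * y) hc' (by group)
      have h2 : (D ∪ (fun c => c * y) '' D).ncard = 2 * D.ncard := by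
        rw [Set.ncard_union_eq hdisj, Set.ncard_image_of_injective _ (mul_left_injective y)]
        ring
      have h3 := Set.ncard_le_card (D ∪ (fun c => c * y) '' D)
      rw [h2] at h3
      omega
  | succ n ih =>
    intro S D e hS h1 hD hR hc g
    by_cases hall : ∀ g : G, ∃ c₁ ∈ D, ∃ c₂ ∈ D, g = c₁⁻¹ * c₂
    · obtain ⟨c₁, hc₁, c₂, hc₂, rfl⟩ := hall g
      refine (prod (hR c₁ hc₁).2 (hR c₂ hc₂).1).weaken ?_
      nlinarith
    · obtain ⟨c₁, hc₁, c₂, hc₂, x, hx, hy⟩ : ∃ c₁ ∈ D, ∃ c₂ ∈ D, ∃ x ∈ X,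
          ∀ c ∈ D, ∀ c' ∈ D, c₁⁻¹ * c₂ * x ≠ c⁻¹ * c' := by
        by_contra hcon
        push Not at hcon
        refine hall fun g => ?_
        have := closed (E := {g | ∃ c₁ ∈ D, ∃ c₂ ∈ D, g = c₁⁻¹ * c₂}) hX ?_ ?_ g
        · exact this
        · obtain ⟨c, hc⟩ := hD
          exact ⟨c, hc, c, hc, by group⟩
        · rintro y ⟨c₁, hc₁, c₂, hc₂, rfl⟩ x hx
          obtain ⟨c, hc, c', hc', h⟩ := hcon c₁ hc₁ c₂ hc₂ x hx
          exact ⟨c, hc, c', hc', h⟩
      obtain ⟨y, hydef⟩ : ∃ y, y = c₁⁻¹ * c₂ * x := ⟨_, rfl⟩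
      rw [← hydef] at hy
      have hxS : x ∈ S := hS (Or.inl hx)
      have hxS' : x⁻¹ ∈ S := hS (Or.inr (by simpa using hx))
      have hdisj : Disjoint D ((fun c => c * y) '' D) := by
        rw [Set.disjoint_left]
        rintro c hc' ⟨c', hc'', rfl⟩
        exact hy c' hc'' (c' * y) hc' (by group)
      have h2 : (D ∪ (fun c => c * y) '' D).ncard = 2 * D.ncard := by
        rw [Set.ncard_union_eq hdisj, Set.ncard_image_of_injective _ (mul_left_injective y)]
        ring
      have hcy : Re S (2 * e + 2) {y} := by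
        rw [hydef]
        exact (mulr (prod (hR c₁ hc₁).2 (hR c₂ hc₂).1) hxS).weaken (by omega)
      have hcy' : Re S (2 * e + 2) {y⁻¹} := by
        have e1 : y⁻¹ = x⁻¹ * (c₂⁻¹ * c₁) := by rw [hydef]; group
        rw [e1]
        exact (mull (prod (hR c₂ hc₂).2 (hR c₁ hc₁).1) hxS').weaken (by omega)
      have hyy := two hcy hcy'
      have hrec := ih (S ∪ ({y} ∪ {y⁻¹})) (D ∪ (fun c => c * y) '' D) (e + 1)
        (hS.trans Set.subset_union_left) (Or.inl h1) (hD.mono Set.subset_union_left) ?_ ?_ g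
      · refine ((hyy.trans hrec).sub Set.subset_union_right).weaken ?_
        nlinarith
      · rintro c (hc' | ⟨c', hc', rfl⟩)
        · exact ⟨((hR c hc').1.src Set.subset_union_left).weaken (by omega),
            ((hR c hc').2.src Set.subset_union_left).weaken (by omega)⟩
        · refine ⟨mulr ((hR c' hc').1.src Set.subset_union_left) (Or.inr (Or.inl rfl)), ?_⟩
          have e1 : (c' * y)⁻¹ = y⁻¹ * c'⁻¹ := mul_inv_rev _ _
          show Re _ _ {(c' * y)⁻¹}
          rw [e1]
          exact mull ((hR c' hc').2.src Set.subset_union_left) (Or.inr (Or.inr rfl))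
      · rw [h2]
        calc Nat.card G < 2 ^ (n + 1 + 1) * D.ncard := hc
          _ = 2 ^ (n + 1) * (2 * D.ncard) := by ring

end BSx

theorem pBS : StBS := fun _ _ _ _ hX n S D e hS h1 hD hR hc g =>
  BSx.main hX n S D e hS h1 hD hR hc g

end Pool.Agent.Helper46.RL
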