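import Pool.Agent.Helper46.RL.St

set_option autoImplicit false

namespace Pool.Agent.Helper46.RL

open Subgroup
open scoped commutatorElement

namespace EAx

theorem ml {G : Type} [Group G] {S T : Set G} {a b : G} {c : ℕ} (h1 : Re S c T)
    (ha : a ∈ S ∪ T) (hb : b ∈ S ∪ T) : Re S (c + 1) {a * b} :=
  (h1.step ha hb).sub (by rw [Set.singleton_subset_iff]; exact Set.mem_insert _ _)

theorem bin {G : Type} [Group G] (g : G) : ∀ l : ℕ, 1 ≤ l → Re {g} (2 * Nat.log 2 l) {g ^ l} := by
  intro l
  induction l using Nat.strong_induction_on with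
  | _ l ih =>
    intro hl
    rcases Nat.lt_or_ge l 2 with h | h
    · have : l = 1 := by omega
      subst this
      exact Re.refl (by rw [pow_one])
    · have h1 := ih (l / 2) (by omega) (by omega)
      have h2 : Nat.log 2 l = Nat.log 2 (l / 2) + 1 := Nat.log_of_one_lt_of_le (by norm_num) h
      have h3 : Re {g} (2 * Nat.log 2 (l / 2) + 1) {g ^ (l / 2) * g ^ (l / 2)} :=
        ml h1 (Or.inr rfl) (Or.inr rfl)
      rcases Nat.even_or_odd' l with ⟨k, hk | hk⟩
      · have h4 : l / 2 = k := by omega
        rw [h4] at h3 h2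
        rw [h2]
        have h5 : g ^ l = g ^ k * g ^ k := by rw [← pow_add, hk, two_mul]
        rw [h5]
        exact h3.weaken (by omega)
      · have h4 : l / 2 = k := by omega
        rw [h4] at h3 h2
        rw [h2]
        have h5 : g ^ l = g ^ k * g ^ k * g := by
          rw [← pow_add, ← pow_succ, hk, two_mul]
        rw [h5]
        exact (ml h3 (Or.inr rfl) (Or.inl rfl)).weaken (by omega)

end EAx

open EAx

theorem pEA : StEA := by
  intro G _ g m l hm hl
  have h1 := bin g (m - 1) (by omega)
  have h3 : g ^ (m - 1) * g = g ^ m := by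
    rw [← pow_succ]
    congr 1
    omega
  have h2 : Re {g} (4 * Nat.log 2 (m - 1)) ({g ^ (m - 1)} ∪ {q | l ≠ 0 ∧ q = g ^ l}) := by
    rcases eq_or_ne l 0 with rfl | h0
    · refine (h1.weaken (by omega)).sub ?_
      rintro x (hx | ⟨hx, _⟩)
      · exact hx
      · exact absurd rfl hx
    · have h4 := bin g l (by omega)
      have h5 : Nat.log 2 l ≤ Nat.log 2 (m - 1) := Nat.log_mono_right (by omega)
      refine ((h1.trans (h4.src Set.subset_union_left)).weaken (by omega)).sub ?_
      rintro x (hx | ⟨_, hx⟩)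
      · exact Or.inl hx
      · exact Or.inr hx
  have h6 := h2.step (a := g ^ (m - 1)) (b := g) (Or.inr (Or.inl rfl)) (Or.inl rfl)
  unfold EA
  refine h6.sub ?_
  rw [h3]
  rintro x ((hx | hx) | hx)
  · exact Or.inr (Or.inl hx)
  · exact Or.inl hx
  · exact Or.inr (Or.inr hx)

end Pool.Agent.Helper46.RL
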