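import Pool.Agent.Helper46.RL.St

set_option autoImplicit false

namespace Pool.Agent.Helper46.RL

open Subgroup
open scoped commutatorElement

namespace EBx

variable {G : Type} [Group G]

theorem sq (x : G) (w : ℕ) : Re {x} w {x ^ (2 ^ w)} := by
  induction w with
  | zero =>
    refine Re.refl ?_
    rintro y rfl
    simp
  | succ w ih =>
    have h := ih.step (a := x ^ (2 ^ w)) (b := x ^ (2 ^ w)) (Or.inr rfl) (Or.inr rfl)
    refine h.sub ?_
    rintro y rfl
    left
    rw [← pow_add]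
    congr 1
    rw [pow_succ]; omega

theorem powers (g : G) (w k : ℕ) :
    Re {g} (w * k) {x | ∃ j ≤ k, x = g ^ ((2 ^ w) ^ j)} := by
  induction k with
  | zero =>
    refine Re.refl ?_
    rintro x ⟨j, hj, rfl⟩
    have : j = 0 := by omega
    subst this
    simp
  | succ k ih =>
    have h1 : Re ({g} ∪ {x | ∃ j ≤ k, x = g ^ ((2 ^ w) ^ j)}) w {(g ^ ((2 ^ w) ^ k)) ^ (2 ^ w)} := by
      refine (sq (g ^ ((2 ^ w) ^ k)) w).src ?_
      rintro x rfl
      exact Or.inr ⟨k, le_rfl, rfl⟩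
    refine (ih.trans h1).mono le_rfl (by rw [mul_add, mul_one]) ?_
    rintro x ⟨j, hj, rfl⟩
    rcases Nat.lt_or_ge k j with hlt | hge
    · have : j = k + 1 := by omega
      subst this
      right
      show g ^ (2 ^ w) ^ (k + 1) = (g ^ (2 ^ w) ^ k) ^ 2 ^ w
      rw [← pow_mul g, pow_succ (2 ^ w) k]
    · exact Or.inl ⟨j, hge, rfl⟩

/-- multiply by the factors of a sum -/
theorem mulsum {S : Set G} (g : G) (a : ℕ → ℕ) (t : ℕ) (J : Finset ℕ)
    (hJ : ∀ j ∈ J, g ^ a j ∈ S) (ht : g ^ t ∈ S) : Re S J.card {g ^ (t + ∑ j ∈ J, a j)} := by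
  induction J using Finset.induction_on with
  | empty =>
    refine Re.refl ?_
    rintro x rfl
    simpa using ht
  | insert i J hi ih =>
    have h := (ih fun j hj => hJ j (Finset.mem_insert_of_mem hj)).step
      (a := g ^ (t + ∑ j ∈ J, a j)) (b := g ^ a i) (Or.inr rfl)
      (Or.inl (hJ i (Finset.mem_insert_self _ _)))
    rw [Finset.card_insert_of_notMem hi]
    refine h.sub ?_
    rintro x rfl
    left
    rw [← pow_add, Finset.sum_insert hi]
    congr 1
    ring

theorem sumonly {S : Set G} (g : G) (a : ℕ → ℕ) (J : Finset ℕ) (hne : J.Nonempty)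
    (hJ : ∀ j ∈ J, g ^ a j ∈ S) : Re S (J.card - 1) {g ^ (∑ j ∈ J, a j)} := by
  obtain ⟨i, hi⟩ := hne
  have h := mulsum g a (a i) (J.erase i) (fun j hj => hJ j (Finset.mem_of_mem_erase hj)) (hJ i hi)
  rw [Finset.card_erase_of_mem hi, Finset.add_sum_erase J a hi] at h
  exact h

/-- the claim of Yao's method -/
theorem yao (g : G) (a : ℕ → ℕ) : ∀ (c : ℕ) (S : Set G) (J : Finset ℕ) (e : ℕ → ℕ), 1 ≤ c →
    J.Nonempty → (∀ j ∈ J, g ^ a j ∈ S) → (∀ j ∈ J, 1 ≤ e j ∧ e j ≤ c) →
    Re S (J.card - 1 + (c - 1)) {g ^ (∑ j ∈ J, a j), g ^ (∑ j ∈ J, e j * a j)} := by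
  intro c
  induction c with
  | zero => intro S J e h; omega
  | succ c ih =>
    intro S J e _ hne hJ he
    by_cases hall : ∀ j ∈ J, e j = 1
    · refine (sumonly g a J hne hJ).mono le_rfl (by omega) ?_
      have : ∑ j ∈ J, e j * a j = ∑ j ∈ J, a j :=
        Finset.sum_congr rfl fun j hj => by rw [hall j hj, one_mul]
      rw [this]
      simp
    · push Not at hall
      obtain ⟨j₀, hj₀, hj₀'⟩ := hall
      have hc1 : 1 ≤ c := by
        have := he j₀ hj₀
        omega
      set J' := J.filter (fun j => 2 ≤ e j) with hJ'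
      have hne' : J'.Nonempty := ⟨j₀, by
        rw [hJ', Finset.mem_filter]
        have := he j₀ hj₀
        exact ⟨hj₀, by omega⟩⟩
      have hsub : J' ⊆ J := Finset.filter_subset _ _
      have h1 := ih S J' (fun j => e j - 1) hc1 hne' (fun j hj => hJ j (hsub hj)) (fun j hj => by
        have h2 := he j (hsub hj)
        have h3 := (Finset.mem_filter.1 hj).2
        omega)
      have h2 := mulsum (S := S ∪ {g ^ (∑ j ∈ J', a j), g ^ (∑ j ∈ J', (e j - 1) * a j)}) g a
        (∑ j ∈ J', a j) (J \ J') (fun j hj => Or.inl (hJ j (Finset.mem_sdiff.1 hj).1))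
        (Or.inr (Or.inl rfl))
      have hs1 : ∑ j ∈ J', a j + ∑ j ∈ J \ J', a j = ∑ j ∈ J, a j := by
        rw [add_comm]; exact Finset.sum_sdiff hsub
      have hs2 : ∑ j ∈ J, e j * a j = ∑ j ∈ J', (e j - 1) * a j + ∑ j ∈ J, a j := by
        have e1 : ∑ j ∈ J, e j * a j = ∑ j ∈ J, ((e j - 1) * a j + a j) := by
          refine Finset.sum_congr rfl fun j hj => ?_
          have := (he j hj).1
          obtain ⟨d, hd⟩ : ∃ d, e j = d + 1 := ⟨e j - 1, by omega⟩
          rw [hd, Nat.add_sub_cancel]; ring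
        rw [e1, Finset.sum_add_distrib]
        congr 1
        refine (Finset.sum_subset hsub fun j hj hj' => ?_).symm
        have h3 := (he j hj).1
        have h4 : ¬ 2 ≤ e j := fun h => hj' (Finset.mem_filter.2 ⟨hj, h⟩)
        have : e j - 1 = 0 := by omega
        rw [this, zero_mul]
      rw [hs1] at h2
      have h3 := (h1.trans h2).step (a := g ^ (∑ j ∈ J', (e j - 1) * a j))
        (b := g ^ (∑ j ∈ J, a j)) (Or.inr (Or.inl (Or.inr rfl))) (Or.inr (Or.inr rfl))
      refine h3.mono le_rfl ?_ ?_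
      · rw [Finset.card_sdiff_of_subset hsub]
        have h4 := Finset.card_le_card hsub
        have h5 := hne'.card_pos
        omega
      · rintro x (rfl | rfl)
        · exact Or.inr (Or.inr rfl)
        · left
          rw [← pow_add, hs2]

theorem digits_sum (b l : ℕ) : ∀ n : ℕ, ∑ j ∈ Finset.range n, (l / b ^ j % b) * b ^ j = l % b ^ n := by
  intro n
  induction n with
  | zero => simp [Nat.mod_one]
  | succ n ih =>
    rw [Finset.sum_range_succ, ih, Nat.mod_pow_succ]
    ring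

theorem single {S : Set G} (g : G) (b k l : ℕ) (hb : 2 ≤ b) (hS : ∀ j ≤ k, g ^ b ^ j ∈ S)
    (hl : 1 ≤ l) (hlk : l < b ^ (k + 1)) : Re S (k + (b - 2)) {g ^ l} := by
  set e : ℕ → ℕ := fun j => l / b ^ j % b with he
  set J := (Finset.range (k + 1)).filter (fun j => e j ≠ 0) with hJ
  have hsum : ∑ j ∈ J, e j * b ^ j = l := by
    have h1 : ∑ j ∈ Finset.range (k + 1), e j * b ^ j = l := by
      rw [he, digits_sum, Nat.mod_eq_of_lt hlk]
    rw [← h1, hJ, Finset.sum_filter]
    refine Finset.sum_congr rfl fun j _ => ?_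
    split_ifs with h
    · rfl
    · push Not at h
      rw [h, zero_mul]
  have hne : J.Nonempty := by
    rw [Finset.nonempty_iff_ne_empty]
    intro h0
    rw [h0, Finset.sum_empty] at hsum
    omega
  have h := yao g (fun j => b ^ j) (b - 1) S J e (by omega) hne
    (fun j hj => hS j (by
      have := Finset.mem_range.1 (Finset.mem_filter.1 hj).1
      omega))
    (fun j hj => by
      have h1 := (Finset.mem_filter.1 hj).2
      have h2 : e j < b := Nat.mod_lt _ (by omega)
      omega)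
  refine h.mono le_rfl ?_ ?_
  · have h3 : J.card ≤ k + 1 := by
      have := Finset.card_filter_le (Finset.range (k + 1)) (fun j => e j ≠ 0)
      rwa [Finset.card_range] at this
    omega
  · rintro x rfl
    right
    rw [hsum]; rfl

end EBx

theorem pEB : StEB := by
  intro w hw G _ g m l hm hlm
  have hb : 2 ≤ 2 ^ w := by
    calc 2 = 2 ^ 1 := rfl
      _ ≤ 2 ^ w := Nat.pow_le_pow_right (by norm_num) hw
  set k := Nat.log (2 ^ w) m with hk
  have hlt : m < (2 ^ w) ^ (k + 1) := Nat.lt_pow_succ_log_self (by omega) m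
  have h1 := EBx.powers g w k
  have hS : ∀ j ≤ k, g ^ (2 ^ w) ^ j ∈ ({g} ∪ {x | ∃ j ≤ k, x = g ^ ((2 ^ w) ^ j)} : Set G) :=
    fun j hj => Or.inr ⟨j, hj, rfl⟩
  have h2 := EBx.single g (2 ^ w) k (m - 1) hb hS (by omega) (by omega)
  have h3 : Re {g} (w * k + (k + (2 ^ w - 2))) ({x | ∃ j ≤ k, x = g ^ ((2 ^ w) ^ j)} ∪ {g ^ (m - 1)}) :=
    h1.trans h2
  have h4 : Re {g} (w * k + (k + (2 ^ w - 2)) + (k + (2 ^ w - 2)))
      ({x | ∃ j ≤ k, x = g ^ ((2 ^ w) ^ j)} ∪ {g ^ (m - 1)} ∪ {q | l ≠ 0 ∧ q = g ^ l}) := by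
    by_cases hl : l = 0
    · refine h3.mono le_rfl (by omega) ?_
      rintro x (hx | ⟨hx, -⟩)
      · exact hx
      · exact absurd hl hx
    · have hS' : ∀ j ≤ k, g ^ (2 ^ w) ^ j ∈
          ({g} ∪ ({x | ∃ j ≤ k, x = g ^ ((2 ^ w) ^ j)} ∪ {g ^ (m - 1)}) : Set G) :=
        fun j hj => Or.inr (Or.inl ⟨j, hj, rfl⟩)
      have h5 := EBx.single g (2 ^ w) k l hb hS' (by omega) (by omega)
      refine (h3.trans h5).sub ?_
      rintro x (hx | ⟨-, rfl⟩)
      · exact Or.inl hx
      · exact Or.inr rfl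
  have h6 := h4.step (a := g ^ (m - 1)) (b := g) (Or.inr (Or.inl (Or.inr rfl))) (Or.inl rfl)
  refine h6.mono le_rfl ?_ ?_
  · show w * k + (k + (2 ^ w - 2)) + (k + (2 ^ w - 2)) + 1 ≤ w * k + 2 * (k + (2 ^ w - 2)) + 1
    omega
  · rintro x ((rfl | rfl) | hx)
    · exact Or.inr (Or.inl (Or.inr rfl))
    · left
      rw [← pow_succ]
      congr 1
      omega
    · exact Or.inr (Or.inr hx)

end Pool.Agent.Helper46.RL
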