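import Pool.Agent.Helper46.RL.M_KL

/-!
# RL, module EXT: a new letter
-/

set_option autoImplicit false

namespace Pool.Agent.Helper46.RL

open Subgroup
open scoped commutatorElement

namespace EXTx

variable {G : Type} [Group G]

/-- conjugation costs two multiplications -/
theorem re_conj {S : Set G} {x g : G} (hx : x ∈ S) (hx' : x⁻¹ ∈ S) (hg : g ∈ S) :
    Re S 2 {x⁻¹ * g * x} := by
  have h1 : Re S 1 {x⁻¹ * g} := Re.mul hx' hg
  have h2 := h1.step (a := x⁻¹ * g) (b := x) (Or.inr rfl) (Or.inl hx)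
  exact h2.sub (by rintro _ rfl; exact Set.mem_insert _ _)

/-- a commutator and its inverse cost six multiplications -/
theorem re_comm {S : Set G} {u w : G} (hu : u ∈ S) (hu' : u⁻¹ ∈ S) (hw : w ∈ S) (hw' : w⁻¹ ∈ S) :
    Re S 6 {⁅u, w⁆, ⁅u, w⁆⁻¹} := by
  have h1 : Re S 1 {u * w} := Re.mul hu hw
  have h2 := h1.step (a := u * w) (b := u⁻¹) (Or.inr rfl) (Or.inl hu')
  have h3 := h2.step (a := u * w * u⁻¹) (b := w⁻¹) (Or.inr (Set.mem_insert _ _)) (Or.inl hw')
  have h4 := h3.step (a := w) (b := u) (Or.inl hw) (Or.inl hu)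
  have h5 := h4.step (a := w * u) (b := w⁻¹) (Or.inr (Set.mem_insert _ _)) (Or.inl hw')
  have h6 := h5.step (a := w * u * w⁻¹) (b := u⁻¹) (Or.inr (Set.mem_insert _ _)) (Or.inl hu')
  refine h6.sub ?_
  have e : ⁅u, w⁆⁻¹ = w * u * w⁻¹ * u⁻¹ := by
    rw [commutatorElement_inv, commutatorElement_def]
  rw [e, commutatorElement_def]
  rintro z (rfl | rfl)
  · simp
  · simp

end EXTx

open KLx EXTx in
theorem pEXT (h : StKL) : StEXT := by
  intro G _ _ X U V N hN hX hUN hNU hV hne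
  set H : Subgroup G := closure V ⊔ ⁅⁅N, N⁆, ⁅N, N⁆⁆ with hH
  have hVH : V ⊆ H := fun v hv => mem_sup_left (subset_closure hv)
  have hN' : (⁅N, N⁆ : Subgroup G).Normal := inferInstance
  by_cases hc : ∀ x ∈ X, ∀ v ∈ V, x⁻¹ * v * x ∈ H
  · haveI hHn : H.Normal := normal_of_gen' hX V _ hc
    by_contra hno
    push Not at hno
    apply hne
    refine h G X U N H hX hUN hNU le_sup_right (fun u hu w hw => ?_) (fun u hu w hw x hx => ?_)
    · by_contra hmem
      refine hno ⁅u, w⁆ (commutator_mem_commutator (hUN hu) (hUN hw)) hmem ?_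
      have := re_comm (S := pm X ∪ pm U ∪ pm V) (u := u) (w := w) (Or.inl (Or.inr (Or.inl hu)))
        (Or.inl (Or.inr (Or.inr (by simpa using hu)))) (Or.inl (Or.inr (Or.inl hw)))
        (Or.inl (Or.inr (Or.inr (by simpa using hw))))
      exact this.weaken (by norm_num)
    · by_contra hmem
      have hx1 : x ∈ pm X ∪ pm U ∪ pm V := Or.inl (Or.inl (Or.inl hx))
      have hx2 : x⁻¹ ∈ pm X ∪ pm U ∪ pm V := Or.inl (Or.inl (Or.inr (by simpa using hx)))
      have hu1 : u ∈ pm X ∪ pm U ∪ pm V := Or.inl (Or.inr (Or.inl hu))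
      have hu2 : u⁻¹ ∈ pm X ∪ pm U ∪ pm V := Or.inl (Or.inr (Or.inr (by simpa using hu)))
      have hw1 : w ∈ pm X ∪ pm U ∪ pm V := Or.inl (Or.inr (Or.inl hw))
      have hw2 : w⁻¹ ∈ pm X ∪ pm U ∪ pm V := Or.inl (Or.inr (Or.inr (by simpa using hw)))
      have hcN : x⁻¹ * u * x ∈ N := by
        have := hN.conj_mem u (hUN hu) x⁻¹
        simpa using this
      refine hno ⁅w, x⁻¹ * u * x⁆ (commutator_mem_commutator (hUN hw) hcN) hmem ?_
      have r1 := re_conj hx1 hx2 hu1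
      have r2 := (re_conj hx1 hx2 hu2).src (Set.subset_union_left (t := {x⁻¹ * u * x}))
      have r3 := r1.trans r2
      have e : x⁻¹ * u⁻¹ * x = (x⁻¹ * u * x)⁻¹ := by group
      rw [e] at r3
      have r4 := re_comm (S := (pm X ∪ pm U ∪ pm V) ∪ ({x⁻¹ * u * x} ∪ {(x⁻¹ * u * x)⁻¹})) (u := w)
        (w := x⁻¹ * u * x) (Or.inl hw1) (Or.inl hw2) (Or.inr (Or.inl rfl)) (Or.inr (Or.inr rfl))
      exact (r3.trans r4).mono le_rfl (by norm_num) Set.subset_union_right
  · push Not at hc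
    obtain ⟨x, hx, v, hv, hn⟩ := hc
    have hx1 : x ∈ pm X ∪ pm U ∪ pm V := Or.inl (Or.inl (Or.inl hx))
    have hx2 : x⁻¹ ∈ pm X ∪ pm U ∪ pm V := Or.inl (Or.inl (Or.inr (by simpa using hx)))
    have hv1 : v ∈ pm X ∪ pm U ∪ pm V := Or.inr (Or.inl hv)
    have hv2 : v⁻¹ ∈ pm X ∪ pm U ∪ pm V := Or.inr (Or.inr (by simpa using hv))
    refine ⟨x⁻¹ * v * x, ?_, hn, ?_⟩
    · have := hN'.conj_mem v (hV hv) x⁻¹
      simpa using this
    · have r1 := re_conj hx1 hx2 hv1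
      have r2 := (re_conj hx1 hx2 hv2).src (Set.subset_union_left (t := {x⁻¹ * v * x}))
      have r3 := r1.trans r2
      have e : x⁻¹ * v⁻¹ * x = (x⁻¹ * v * x)⁻¹ := by group
      rw [e] at r3
      refine r3.mono le_rfl (by norm_num) ?_
      rintro z (rfl | rfl)
      · exact Or.inl rfl
      · exact Or.inr rfl

end Pool.Agent.Helper46.RL
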