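import Pool.Agent.Helper46.RL.St

/-! Project RL (MP_d72c68_al), module FINA -/

set_option autoImplicit false

namespace Pool.Agent.Helper46.RL

open Subgroup
open scoped commutatorElement

namespace FINAx

theorem logb_nonneg {k : ℕ} (hk : 2 ≤ k) : 1 ≤ Real.logb 2 k := by
  rw [Real.le_logb_iff_rpow_le (by norm_num) (by positivity), Real.rpow_one]
  exact_mod_cast hk

/-- sums over a list of factors -/
theorem sum_le {c d : ℝ} {f : ℕ → ℕ} : ∀ l : List ℕ,
    (∀ k ∈ l, 2 ≤ k ∧ (f k : ℝ) ≤ c * Real.logb 2 k + d) →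
    (((l.map f).sum : ℕ) : ℝ) ≤ c * Real.logb 2 (l.prod : ℕ) + d * l.length := by
  intro l
  induction l with
  | nil => intro _; simp
  | cons k l ih =>
    intro h
    have h1 := ih fun j hj => h j (List.mem_cons_of_mem _ hj)
    obtain ⟨h2, h3⟩ := h k List.mem_cons_self
    have h4 : (l.prod : ℝ) ≠ 0 := by
      have : l.prod ≠ 0 := by
        intro h0
        rw [List.prod_eq_zero_iff] at h0
        have := (h 0 (List.mem_cons_of_mem _ h0)).1
        omega
      exact_mod_cast this
    have h5 : (k : ℝ) ≠ 0 := by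
      have : k ≠ 0 := by omega
      exact_mod_cast this
    rw [List.map_cons, List.sum_cons, List.prod_cons, List.length_cons, Nat.cast_add, Nat.cast_mul,
      Nat.cast_add, Nat.cast_one, Real.logb_mul h5 h4]
    linarith

theorem len_le {a : ℝ} : ∀ l : List ℕ, (∀ k ∈ l, 2 ≤ k ∧ a ≤ Real.logb 2 k) →
    a * (l.length : ℝ) ≤ Real.logb 2 (l.prod : ℕ) := by
  intro l
  induction l with
  | nil => intro _; simp
  | cons k l ih =>
    intro h
    have h1 := ih fun j hj => h j (List.mem_cons_of_mem _ hj)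
    obtain ⟨h2, h3⟩ := h k List.mem_cons_self
    have h4 : (l.prod : ℝ) ≠ 0 := by
      have : l.prod ≠ 0 := by
        intro h0
        rw [List.prod_eq_zero_iff] at h0
        have := (h 0 (List.mem_cons_of_mem _ h0)).1
        omega
      exact_mod_cast this
    have h5 : (k : ℝ) ≠ 0 := by
      have : k ≠ 0 := by omega
      exact_mod_cast this
    rw [List.prod_cons, List.length_cons, Nat.cast_mul, Nat.cast_add, Nat.cast_one,
      Real.logb_mul h5 h4]
    linarith

theorem EA_le {k : ℕ} (hk : 2 ≤ k) : ((EA k + 11 : ℕ) : ℝ) ≤ 12 * Real.logb 2 k := by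
  unfold EA
  have h1 := logb_nonneg hk
  rcases Nat.lt_or_ge 2 k with h | h
  · have h2 : (Nat.log 2 (k - 1) : ℝ) ≤ Real.logb 2 k := by
      have h3 : 2 ^ Nat.log 2 (k - 1) ≤ k - 1 := Nat.pow_log_le_self 2 (by omega)
      rw [Real.le_logb_iff_rpow_le (by norm_num) (by positivity), Real.rpow_natCast]
      have h4 : 2 ^ Nat.log 2 (k - 1) ≤ k := by omega
      exact_mod_cast h4
    have h5 : (3 / 2 : ℝ) ≤ Real.logb 2 k := by
      have h6 : (3 / 2 : ℝ) ≤ Real.logb 2 3 := by
        have h7 : Real.logb 2 8 ≤ Real.logb 2 9 :=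
          Real.logb_le_logb_of_le (by norm_num) (by norm_num) (by norm_num)
        have h8 : Real.logb 2 8 = 3 := by
          rw [show (8 : ℝ) = 2 ^ (3 : ℕ) by norm_num, Real.logb_pow, Real.logb_self_eq_one (by norm_num)]
          norm_num
        have h9 : Real.logb 2 9 = 2 * Real.logb 2 3 := by
          rw [show (9 : ℝ) = 3 ^ (2 : ℕ) by norm_num, Real.logb_pow]
          norm_num
        linarith
      refine h6.trans (Real.logb_le_logb_of_le (by norm_num) (by norm_num) ?_)
      exact_mod_cast h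
    push_cast
    linarith
  · have h2 : k = 2 := by omega
    subst h2
    push_cast
    have : (Nat.log 2 (2 - 1) : ℝ) = 0 := by norm_num
    rw [this]
    push_cast at h1
    linarith

end FINAx

open FINAx in
theorem pFINA (h : StASM) (hE : StEA) : StFINA := by
  intro G _ _ _ _ X hX g
  obtain ⟨ms, ks, h1, h2, h3, h4, h5⟩ := h EA hE G X hX
  obtain ⟨k, hk, hk2⟩ := (h5 g).obt
  refine ⟨k, ?_, hk2⟩
  have a1 := sum_le (c := 12) (d := 0) (f := fun k => EA k + 11) ms fun k hk =>
    ⟨(h1 k hk).1, by rw [add_zero]; exact EA_le (h1 k hk).1⟩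
  have a2 := len_le (a := 1) ks fun k hk => ⟨(h3 k hk).1, logb_nonneg (h3 k hk).1⟩
  rw [h2] at a1
  rw [h4] at a2
  have a3 : (k : ℝ) ≤ (((ms.map fun k => EA k + 11).sum + 3 * ks.length : ℕ) : ℝ) := by
    exact_mod_cast hk
  rw [Nat.cast_add, Nat.cast_mul, Nat.cast_ofNat] at a3
  linarith

end Pool.Agent.Helper46.RL
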