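import Pool.Agent.Helper46.RL.St

set_option autoImplicit false

namespace Pool.Agent.Helper46.RL

open Subgroup
open scoped commutatorElement

namespace GRx

variable {G : Type} [Group G]

theorem conj_mem {A B H : Subgroup G} (hAH : A ≤ H) (hHB : H ≤ B) (hab : ⁅B, B⁆ ≤ A) {b h : G}
    (hb : b ∈ B) (hh : h ∈ H) : b * h * b⁻¹ ∈ H := by
  have h1 : ⁅b, h⁆ ∈ A := hab (commutator_mem_commutator hb (hHB hh))
  have h2 : b * h * b⁻¹ = ⁅b, h⁆ * h := by rw [commutatorElement_def]; group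
  rw [h2]
  exact H.mul_mem (hAH h1) hh

/-- products `v ^ i * h` -/
theorem exists_pow {A B H : Subgroup G} (hAH : A ≤ H) (hHB : H ≤ B) (hab : ⁅B, B⁆ ≤ A)
    {v : G} (hv : v ∈ B) {m : ℕ} (hm : 1 ≤ m) (hvm : v ^ m ∈ H) {g : G}
    (hg : g ∈ closure {v} ⊔ H) : ∃ i < m, ∃ h ∈ H, g = v ^ i * h := by
  have hc : ∀ (i : ℤ) (h : G), h ∈ H → v ^ i * h * (v ^ i)⁻¹ ∈ H := fun i h hh =>
    conj_mem hAH hHB hab (B.zpow_mem hv i) hh
  let K : Subgroup G :=
    { carrier := {g | ∃ i : ℤ, ∃ h ∈ H, g = v ^ i * h}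
      one_mem' := ⟨0, 1, H.one_mem, by simp⟩
      mul_mem' := by
        rintro _ _ ⟨i, h, hh, rfl⟩ ⟨j, k, hk, rfl⟩
        refine ⟨i + j, v ^ (-j) * h * (v ^ (-j))⁻¹ * k, H.mul_mem (hc _ _ hh) hk, ?_⟩
        rw [zpow_add, zpow_neg, inv_inv]
        group
      inv_mem' := by
        rintro _ ⟨i, h, hh, rfl⟩
        refine ⟨-i, v ^ i * h⁻¹ * (v ^ i)⁻¹, hc _ _ (H.inv_mem hh), ?_⟩
        rw [zpow_neg]
        group }
  have hle : closure {v} ⊔ H ≤ K := by
    refine sup_le ?_ fun h hh => ⟨0, h, hh, by simp⟩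
    rw [closure_le]
    rintro x rfl
    exact ⟨1, 1, H.one_mem, by simp⟩
  obtain ⟨i, h, hh, rfl⟩ := hle hg
  have hm0 : (m : ℤ) ≠ 0 := by omega
  have hpos := Int.emod_nonneg i hm0
  have hlt := Int.emod_lt_of_pos i (by omega : (0 : ℤ) < m)
  refine ⟨(i % m).toNat, by omega, (v ^ m) ^ (i / m) * h, H.mul_mem (H.zpow_mem hvm _) hh, ?_⟩
  have e1 : v ^ i = v ^ (i % m).toNat * (v ^ m) ^ (i / m) := by
    rw [← zpow_natCast, ← zpow_natCast, ← zpow_mul, ← zpow_add]
    congr 1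
    rw [Int.toNat_of_nonneg hpos]
    exact (Int.emod_add_mul_ediv i m).symm
  rw [e1, mul_assoc]

theorem card_eq [Finite G] {A B H : Subgroup G} (hAH : A ≤ H) (hHB : H ≤ B) (hab : ⁅B, B⁆ ≤ A)
    {v : G} (hv : v ∈ B) {m : ℕ} (hm : 1 ≤ m) (hvm : v ^ m ∈ H)
    (hmin : ∀ i, 0 < i → v ^ i ∈ H → m ≤ i) :
    m * Nat.card H = Nat.card (closure {v} ⊔ H : Subgroup G) := by
  have hvK : v ∈ closure {v} ⊔ H := (le_sup_left : closure {v} ≤ _) (subset_closure rfl)
  have hHK : H ≤ closure {v} ⊔ H := le_sup_right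
  let f : Fin m × H → (closure {v} ⊔ H : Subgroup G) := fun q =>
    ⟨v ^ (q.1 : ℕ) * q.2, mul_mem (pow_mem hvK _) (hHK q.2.2)⟩
  have key : ∀ (i j : ℕ) (h k : G), h ∈ H → k ∈ H → i ≤ j → j < m → v ^ i * h = v ^ j * k →
      i = j := by
    intro i j h k hh hk hij hj he
    by_contra hne
    have h1 : v ^ (j - i) = h * k⁻¹ := by
      have h2 : v ^ j = v ^ i * v ^ (j - i) := by rw [← pow_add]; congr 1; omega
      rw [h2, mul_assoc] at he
      have h3 := mul_left_cancel he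
      rw [h3, mul_inv_cancel_right]
    have h4 := hmin (j - i) (by omega) (h1 ▸ H.mul_mem hh (H.inv_mem hk))
    omega
  have hf : Function.Bijective f := by
    constructor
    · rintro ⟨i, h⟩ ⟨j, k⟩ he
      have he' : v ^ (i : ℕ) * (h : G) = v ^ (j : ℕ) * (k : G) := congrArg Subtype.val he
      have hij : (i : ℕ) = j := by
        rcases le_total (i : ℕ) j with hl | hl
        · exact key _ _ _ _ h.2 k.2 hl j.2 he'
        · exact (key _ _ _ _ k.2 h.2 hl i.2 he'.symm).symm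
      rw [hij] at he'
      have h5 := mul_left_cancel he'
      exact Prod.ext (Fin.ext hij) (Subtype.ext h5)
    · rintro ⟨g, hg⟩
      obtain ⟨i, hi, h, hh, rfl⟩ := exists_pow hAH hHB hab hv hm hvm hg
      exact ⟨(⟨i, hi⟩, ⟨h, hh⟩), rfl⟩
  have := Nat.card_congr (Equiv.ofBijective f hf)
  rw [Nat.card_prod, Nat.card_fin] at this
  exact this

theorem lt_cons (v : G) (m : ℕ) (l : List (G × ℕ)) : lt ((v, m) :: l) = insert v (lt l) := by
  ext z
  simp only [lt, List.mem_cons, Prod.mk.injEq, Set.mem_ofPred_eq, Set.mem_insert_iff]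
  constructor
  · rintro ⟨n, ⟨rfl, -⟩ | h⟩
    · exact Or.inl rfl
    · exact Or.inr ⟨n, h⟩
  · rintro (rfl | ⟨n, h⟩)
    · exact ⟨m, Or.inl ⟨rfl, rfl⟩⟩
    · exact ⟨n, Or.inr h⟩

theorem main [Finite G] (A B : Subgroup G) (S : Set G) (p : G)
    (m₀ : ℕ) (hAB : A ≤ B) (hab : ⁅B, B⁆ ≤ A) (hp : p ∈ B)
    (hor : ∀ V : Set G, V.Finite → V ⊆ B → p ∈ V → ¬ B ≤ closure V ⊔ A →
      ∃ v ∈ B, v ∉ closure V ⊔ A ∧ Re (S ∪ pm V) 10 {v, v⁻¹}) :
    ∀ (n : ℕ) (l : List (G × ℕ)), (∀ q ∈ l, q.1 ∈ B ∧ 2 ≤ q.2 ∧ q.2 ∣ Nat.card G) →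
      (∀ g ∈ closure ({p} ∪ lt l) ⊔ A, ∃ i < m₀, ∃ r ∈ A, Fac l g (p ^ i * r)) →
      m₀ * (l.map Prod.snd).prod * Nat.card A = Nat.card (closure ({p} ∪ lt l) ⊔ A : Subgroup G) →
      Re (S ∪ pm {p}) (10 * l.length) (pm (lt l)) →
      Nat.card G - Nat.card (closure ({p} ∪ lt l) ⊔ A : Subgroup G) ≤ n →
    ∃ l : List (G × ℕ), (∀ q ∈ l, q.1 ∈ B ∧ 2 ≤ q.2 ∧ q.2 ∣ Nat.card G) ∧
      (∀ g ∈ B, ∃ i < m₀, ∃ r ∈ A, Fac l g (p ^ i * r)) ∧
      m₀ * (l.map Prod.snd).prod = A.relIndex B ∧ B ≤ closure ({p} ∪ lt l) ⊔ A ∧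
      Re (S ∪ pm {p}) (10 * l.length) (pm (lt l)) := by
  intro n
  induction n using Nat.strong_induction_on with
  | _ n ih =>
    intro l h1 h2 h3 h4 h5
    have hV : ({p} ∪ lt l : Set G) ⊆ B := by
      rintro x (rfl | ⟨m, hm⟩)
      · exact hp
      · exact (h1 _ hm).1
    have hHB : closure ({p} ∪ lt l) ⊔ A ≤ B := sup_le ((closure_le _).2 hV) hAB
    by_cases hB : B ≤ closure ({p} ∪ lt l) ⊔ A
    · refine ⟨l, h1, fun g hg => h2 g (hB hg), ?_, hB, h4⟩
      have hHeq : closure ({p} ∪ lt l) ⊔ A = B := le_antisymm hHB hB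
      rw [hHeq] at h3
      have h6 : Nat.card A * A.relIndex B = Nat.card B := by
        rw [← Subgroup.relIndex_bot_left A, ← Subgroup.relIndex_bot_left B,
          Subgroup.relIndex_mul_relIndex _ _ _ bot_le hAB]
      rw [← h6, mul_comm (Nat.card A)] at h3
      exact Nat.eq_of_mul_eq_mul_right Nat.card_pos h3
    · obtain ⟨v, hv, hvn, hcost⟩ := hor ({p} ∪ lt l) (Set.toFinite _) hV (Or.inl rfl) hB
      set H := closure ({p} ∪ lt l) ⊔ A with hH
      have hAH : A ≤ H := le_sup_right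
      have hex : ∃ i, 0 < i ∧ v ^ i ∈ H :=
        ⟨orderOf v, orderOf_pos v, by rw [pow_orderOf_eq_one]; exact H.one_mem⟩
      classical
      obtain ⟨m, ⟨hm0, hvm⟩, hmin⟩ : ∃ m, (0 < m ∧ v ^ m ∈ H) ∧ ∀ i, 0 < i → v ^ i ∈ H → m ≤ i :=
        ⟨Nat.find hex, Nat.find_spec hex, fun i hi hvi => Nat.find_min' hex ⟨hi, hvi⟩⟩
      have hm2 : 2 ≤ m := by
        by_contra hcon
        have : m = 1 := by omega
        rw [this, pow_one] at hvm
        exact hvn hvm
      have hH1 : closure ({p} ∪ lt ((v, m) :: l)) ⊔ A = closure {v} ⊔ H := by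
        rw [lt_cons, hH, ← sup_assoc, ← Subgroup.closure_union]
        congr 2
        ext z
        simp only [Set.mem_union, Set.mem_singleton_iff, Set.mem_insert_iff]
        tauto
      have hcard := card_eq hAH hHB hab hv hm0 hvm hmin
      have hpos : 0 < Nat.card H := Nat.card_pos
      have hlt : Nat.card H < Nat.card (closure {v} ⊔ H : Subgroup G) := by
        rw [← hcard]; nlinarith
      have hleG : Nat.card (closure {v} ⊔ H : Subgroup G) ≤ Nat.card G :=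
        Subgroup.card_le_card_group _
      refine ih (Nat.card G - Nat.card (closure {v} ⊔ H : Subgroup G)) (by omega) ((v, m) :: l)
        ?_ ?_ ?_ ?_ ?_
      · intro q hq
        rcases List.mem_cons.1 hq with rfl | hq
        · refine ⟨hv, hm2, ?_⟩
          refine Dvd.dvd.trans ?_ (Subgroup.card_subgroup_dvd_card (closure {v} ⊔ H))
          exact ⟨Nat.card H, hcard.symm⟩
        · exact h1 q hq
      · intro g hg
        rw [hH1] at hg
        obtain ⟨j, hj, h, hh, rfl⟩ := exists_pow hAH hHB hab hv hm0 hvm hg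
        obtain ⟨i, hi, r, hr, hf⟩ := h2 h hh
        refine ⟨i, hi, r, hr, j, hj, ?_⟩
        show Fac l ((v ^ j)⁻¹ * (v ^ j * h)) (p ^ i * r)
        rw [inv_mul_cancel_left]
        exact hf
      · rw [hH1, ← hcard, ← h3, List.map_cons, List.prod_cons]
        ring
      · have h6 : Re (S ∪ pm {p}) (10 * l.length + 10) (pm (lt l) ∪ {v, v⁻¹}) := by
          refine h4.trans (hcost.src ?_)
          rintro x (hx | hx | hx)
          · exact Or.inl (Or.inl hx)
          · rcases hx with hx | hx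
            · exact Or.inl (Or.inr (Or.inl hx))
            · exact Or.inr (Or.inl hx)
          · rcases hx with hx | hx
            · exact Or.inl (Or.inr (Or.inr hx))
            · exact Or.inr (Or.inr hx)
        refine h6.mono le_rfl (by simp only [List.length_cons]; omega) ?_
        rw [lt_cons]
        rintro x (hx | hx)
        · rcases hx with rfl | hx
          · exact Or.inr (Or.inl rfl)
          · exact Or.inl (Or.inl hx)
        · rcases hx with hx | hx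
          · right; right
            rw [← hx, inv_inv]; rfl
          · exact Or.inl (Or.inr hx)
      · rw [hH1]

end GRx

theorem pGR : StGR := by
  intro G _ _ A B S p m₀ hAB hab hp hm hpm hmin hor
  have hlt : lt ([] : List (G × ℕ)) = ∅ := by
    ext z; simp [lt]
  have hH : closure ({p} ∪ lt ([] : List (G × ℕ))) ⊔ A = closure {p} ⊔ A := by
    rw [hlt, Set.union_empty]
  refine GRx.main A B S p m₀ hAB hab hp hor _ [] (by simp) ?_ ?_ ?_ le_rfl
  · intro g hg
    rw [hH] at hg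
    obtain ⟨i, hi, h, hh, rfl⟩ := GRx.exists_pow le_rfl hAB hab hp hm hpm hg
    exact ⟨i, hi, h, hh, rfl⟩
  · rw [hH, ← GRx.card_eq le_rfl hAB hab hp hm hpm hmin]
    simp
  · refine Re.refl ?_
    rw [hlt]
    rintro x (hx | hx)
    · exact hx.elim
    · exact hx.elim

end Pool.Agent.Helper46.RL
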