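import Pool.Agent.Helper46.RL.St

/-!
# RL, module INV: all inverses from one
-/

set_option autoImplicit false

namespace Pool.Agent.Helper46.RL

open Subgroup
open scoped commutatorElement

namespace INVx

variable {G : Type} [Group G]

/-- the products of the nonempty suffixes -/
def Q : List G → Set G
  | [] => ∅
  | x :: l => {(x :: l).prod} ∪ Q l

theorem re1 (x : G) (l : List G) : Re {y | y ∈ x :: l} l.length (Q (x :: l)) := by
  induction l generalizing x with
  | nil =>
    refine Re.refl ?_
    rintro z (rfl | hz)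
    · simp
    · exact absurd hz (by simp [Q])
  | cons y l ih =>
    have h1 := (ih y).src (S' := {z | z ∈ x :: y :: l}) (fun z hz => List.mem_cons_of_mem _ hz)
    have h2 := h1.step (a := x) (b := (y :: l).prod) (Or.inl (by simp)) (Or.inr (Or.inl rfl))
    refine h2.mono le_rfl (by simp) ?_
    rintro z (hz | hz)
    · left
      rw [Set.mem_singleton_iff] at hz
      rw [hz, List.prod_cons]
    · right; exact hz

theorem re2 (l : List G) (x : G) (S : Set G) (h1 : ∀ y ∈ x :: l, y ∈ S) (h2 : Q (x :: l) ⊆ S)
    (h3 : ((x :: l).prod)⁻¹ ∈ S) : Re S (2 * l.length) {z | z⁻¹ ∈ x :: l} := by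
  induction l generalizing x S with
  | nil =>
    refine Re.refl ?_
    intro z hz
    have hz' : z⁻¹ ∈ [x] := hz
    rw [List.mem_singleton] at hz'
    rw [List.prod_singleton] at h3
    rw [← inv_inv z, hz']; exact h3
  | cons y l ih =>
    have ha : ((x :: y :: l).prod)⁻¹ * x = ((y :: l).prod)⁻¹ := by
      rw [List.prod_cons]; group
    have hb : (y :: l).prod * ((x :: y :: l).prod)⁻¹ = x⁻¹ := by
      rw [show (x :: y :: l).prod = x * (y :: l).prod from List.prod_cons]; group
    have r1 : Re S 1 {((x :: y :: l).prod)⁻¹ * x} := Re.mul h3 (h1 x (by simp))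
    have r2 := r1.step (a := (y :: l).prod) (b := ((x :: y :: l).prod)⁻¹)
      (Or.inl (h2 (Or.inr (Or.inl rfl)))) (Or.inl h3)
    rw [ha, hb] at r2
    have r3 := ih y (S ∪ insert x⁻¹ {((y :: l).prod)⁻¹})
      (fun z hz => Or.inl (h1 z (List.mem_cons_of_mem _ hz)))
      (fun z hz => Or.inl (h2 (Or.inr hz))) (Or.inr (Or.inr rfl))
    have r4 := r2.trans r3
    refine r4.mono le_rfl ?_ ?_
    · rw [List.length_cons]; omega
    · intro z hz
      have hz' : z⁻¹ ∈ x :: y :: l := hz
      rcases List.mem_cons.1 hz' with h | h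
      · left; left
        rw [← h, inv_inv]
      · right; exact h

end INVx

open INVx in
theorem pINV : StINV := by
  intro G _ xs hxs
  match xs, hxs with
  | x :: l, _ =>
    refine ⟨Q (x :: l), Or.inl rfl, ?_, ?_⟩
    · simpa using re1 x l
    · have := re2 l x ({y | y ∈ x :: l} ∪ Q (x :: l) ∪ {((x :: l).prod)⁻¹})
        (fun y hy => Or.inl (Or.inl hy)) (fun y hy => Or.inl (Or.inr hy)) (Or.inr rfl)
      simpa using this

end Pool.Agent.Helper46.RL
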