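import Pool.Agent.Helper46.RL.St

set_option autoImplicit false

namespace Pool.Agent.Helper46.RL

open Subgroup
open scoped commutatorElement

namespace IRRx

theorem card_mul_relIndex {G : Type} [Group G] {H K : Subgroup G} (h : H ≤ K) :
    Nat.card H * H.relIndex K = Nat.card K := by
  rw [← Subgroup.relIndex_bot_left H, ← Subgroup.relIndex_bot_left K,
    Subgroup.relIndex_mul_relIndex _ _ _ bot_le h]

theorem relIndex_ne_zero {G : Type} [Group G] [Finite G] {H K : Subgroup G} :
    H.relIndex K ≠ 0 := by
  rw [Subgroup.relIndex]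
  exact Subgroup.index_ne_zero_of_finite

theorem two_le_relIndex {G : Type} [Group G] [Finite G] {H K : Subgroup G} (h : ¬ K ≤ H) :
    2 ≤ H.relIndex K := by
  have h1 : H.relIndex K ≠ 1 := fun e => h (Subgroup.relIndex_eq_one.1 e)
  have h0 : H.relIndex K ≠ 0 := relIndex_ne_zero
  omega

theorem relIndex_dvd {G : Type} [Group G] {H K : Subgroup G} :
    H.relIndex K ∣ Nat.card G :=
  (Subgroup.relIndex_dvd_card H K).trans (Subgroup.card_subgroup_dvd_card K)

theorem main (G : Type) [Group G] [Finite G] (X : Set G) (hX : closure X = ⊤) :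
    ∀ (n : ℕ) (xs : List G) (ks : List ℕ), (∀ x ∈ xs, x ∈ X) → ks.length = xs.length →
      (∀ k ∈ ks, 2 ≤ k ∧ k ∣ Nat.card G) → ks.prod = Nat.card (closure {x | x ∈ xs}) →
      Nat.card G - Nat.card (closure {x | x ∈ xs}) ≤ n →
    ∃ (xs : List G) (ks : List ℕ), (∀ x ∈ xs, x ∈ X) ∧ closure {x | x ∈ xs} = ⊤ ∧
      ks.length = xs.length ∧ (∀ k ∈ ks, 2 ≤ k ∧ k ∣ Nat.card G) ∧ ks.prod = Nat.card G := by
  intro n
  induction n using Nat.strong_induction_on with
  | _ n ih =>
    intro xs ks h1 h2 h3 h4 h5
    by_cases htop : closure {x | x ∈ xs} = ⊤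
    · refine ⟨xs, ks, h1, htop, h2, h3, ?_⟩
      rw [h4, htop]
      exact Nat.card_congr (Subgroup.topEquiv.toEquiv)
    · obtain ⟨x, hx, hxn⟩ : ∃ x ∈ X, x ∉ closure {x | x ∈ xs} := by
        by_contra hcon
        push Not at hcon
        apply htop
        rw [eq_top_iff, ← hX, closure_le]
        exact hcon
      set H := closure {x | x ∈ xs} with hH
      have hle : H ≤ closure {y | y ∈ x :: xs} :=
        closure_mono fun y hy => List.mem_cons_of_mem _ hy
      have hxm : x ∈ closure {y | y ∈ x :: xs} := subset_closure List.mem_cons_self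
      have hcard := card_mul_relIndex hle
      have h2le : 2 ≤ H.relIndex (closure {y | y ∈ x :: xs}) :=
        two_le_relIndex fun hc => hxn (hc hxm)
      have hpos : 0 < Nat.card H := Nat.card_pos
      have hlt : Nat.card H < Nat.card (closure {y | y ∈ x :: xs}) := by
        rw [← hcard]; nlinarith
      have hleG : Nat.card (closure {y | y ∈ x :: xs}) ≤ Nat.card G :=
        Subgroup.card_le_card_group _
      refine ih (Nat.card G - Nat.card (closure {y | y ∈ x :: xs})) (by omega) (x :: xs)
        (H.relIndex (closure {y | y ∈ x :: xs}) :: ks) ?_ ?_ ?_ ?_ le_rfl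
      · intro y hy
        rcases List.mem_cons.1 hy with rfl | hy
        · exact hx
        · exact h1 y hy
      · simp [h2]
      · intro k hk
        rcases List.mem_cons.1 hk with rfl | hk
        · exact ⟨h2le, relIndex_dvd⟩
        · exact h3 k hk
      · rw [List.prod_cons, h4, mul_comm, hcard]

end IRRx

theorem pIRR : StIRR := by
  intro G _ _ X hX
  refine IRRx.main G X hX _ [] [] (by simp) rfl (by simp) ?_ le_rfl
  have : closure {x : G | x ∈ ([] : List G)} = ⊥ := by
    simp
  rw [this]
  simp

end Pool.Agent.Helper46.RL
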