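import Pool.Agent.Helper46.RL.St

/-! RL (MP_d72c68_al), module PC -/

set_option autoImplicit false

namespace Pool.Agent.Helper46.RL

open Subgroup
open scoped commutatorElement

namespace PCx

variable {G : Type} [Group G] [Finite G]

theorem ex (H : Subgroup G) (x : G) : ∃ i : ℕ, 0 < i ∧ x ^ i ∈ H :=
  ⟨orderOf x, orderOf_pos x, by rw [pow_orderOf_eq_one]; exact H.one_mem⟩

open Classical in
/-- the least positive exponent -/
noncomputable def mm (H : Subgroup G) (x : G) : ℕ := Nat.find (ex H x)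

theorem mm_pos (H : Subgroup G) (x : G) : 0 < mm H x := by
  classical
  exact (Nat.find_spec (ex H x)).1

theorem mm_mem (H : Subgroup G) (x : G) : x ^ mm H x ∈ H := by
  classical
  exact (Nat.find_spec (ex H x)).2

theorem mm_le (H : Subgroup G) (x : G) (i : ℕ) (hi : 0 < i) (h : x ^ i ∈ H) : mm H x ≤ i := by
  classical
  exact Nat.find_min' (ex H x) ⟨hi, h⟩

theorem mm_dvd (H : Subgroup G) (x : G) : mm H x ∣ Nat.card G := by
  refine dvd_trans ?_ (orderOf_dvd_natCard x)
  rw [Nat.dvd_iff_mod_eq_zero]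
  by_contra h
  have h1 : 0 < orderOf x % mm H x := Nat.pos_of_ne_zero h
  have h2 : orderOf x % mm H x < mm H x := Nat.mod_lt _ (mm_pos H x)
  have h3 : x ^ (orderOf x % mm H x) ∈ H := by
    have e1 : x ^ orderOf x = x ^ (mm H x * (orderOf x / mm H x)) * x ^ (orderOf x % mm H x) := by
      rw [← pow_add, Nat.div_add_mod]
    rw [pow_orderOf_eq_one, pow_mul] at e1
    have e2 : x ^ (orderOf x % mm H x) = ((x ^ mm H x) ^ (orderOf x / mm H x))⁻¹ :=
      (inv_eq_of_mul_eq_one_right e1.symm).symm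
    rw [e2]
    exact H.inv_mem (H.pow_mem (mm_mem H x) _)
  have h4 := mm_le H x _ h1 h3
  omega

/-- the sequence -/
noncomputable def sq (N : ℕ → Subgroup G) (P : G) : ℕ → G
  | 0 => P
  | j + 1 => sq N P j ^ mm (N (j + 1)) (sq N P j)

end PCx

theorem pPC : StPC := by
  intro G _ _ N P hP
  refine ⟨PCx.sq N P, fun j => PCx.mm (N (j + 1)) (PCx.sq N P j), ⟨?_, ?_, ?_, ?_⟩, rfl, ?_⟩
  · intro j
    cases j with
    | zero => exact hP
    | succ j => exact PCx.mm_mem _ _
  · intro j
    exact PCx.mm_pos _ _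
  · intro j
    rfl
  · intro j i hi h
    exact PCx.mm_le _ _ _ hi h
  · intro j
    exact PCx.mm_dvd _ _

end Pool.Agent.Helper46.RL
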