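import Pool.Agent.Helper46.RL.St

set_option autoImplicit false

namespace Pool.Agent.Helper46.RL

open Subgroup
open scoped commutatorElement

namespace POWx

theorem pw {E : ℕ → ℕ} (hE : EXP E) {G : Type} [Group G] {S : Set G} {z : G} {m i : ℕ}
    (hz : z ∈ S) (hm : 2 ≤ m) (hi : i < m) (hi0 : i ≠ 0) : Re S (E m) {z ^ i} := by
  refine (hE G z m i hm hi).mono (Set.singleton_subset_iff.2 hz) le_rfl ?_
  rw [Set.singleton_subset_iff]
  exact Or.inr ⟨hi0, rfl⟩

theorem ml {G : Type} [Group G] {S : Set G} {a b : G} {c d : ℕ} (h1 : Re S c {a})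
    (h2 : Re S d {b}) : Re S (c + d + 1) {a * b} := by
  have h3 : Re S (c + d) ({a} ∪ {b}) := h1.trans (h2.src Set.subset_union_left)
  have h4 := h3.step (a := a) (b := b) (Or.inr (Or.inl rfl)) (Or.inr (Or.inr rfl))
  exact h4.sub (by rw [Set.singleton_subset_iff]; exact Set.mem_insert _ _)

end POWx

open POWx

theorem pPOW : StPOW := by
  intro E hE G _ S l
  induction l with
  | nil =>
    intro g r _ hf
    refine ⟨1, ?_, Or.inl rfl, fun _ => Or.inl rfl⟩
    rw [one_mul]
    exact hf
  | cons q l ih =>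
    intro g r hl hf
    obtain ⟨i, hi, hf'⟩ := hf
    have hq := hl q (by simp)
    obtain ⟨a', ha', h1, h2⟩ := ih _ _ (fun x hx => hl x (by simp [hx])) hf'
    have hcw : cw E (q :: l) = E q.2 + 1 + cw E l := by
      unfold cw
      rw [List.map_cons, List.sum_cons]
    refine ⟨q.1 ^ i * a', ?_, ?_, ?_⟩
    · rw [mul_assoc, ← ha', mul_inv_cancel_left]
    · rcases eq_or_ne i 0 with rfl | hi0
      · rw [pow_zero, one_mul]
        rcases h1 with h1 | ⟨c, hc, h1⟩
        · exact Or.inl h1
        · exact Or.inr ⟨c, by omega, h1⟩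
      · right
        have h3 := pw hE hq.1 hq.2 hi hi0
        rcases h1 with h1 | ⟨c, hc, h1⟩
        · refine ⟨E q.2, by omega, ?_⟩
          rw [h1, mul_one]
          exact h3
        · exact ⟨E q.2 + c + 1, by omega, ml h3 h1⟩
    · intro hS
      have hqS := hS q (by simp)
      have h2' := h2 (fun x hx => hS x (by simp [hx]))
      rcases eq_or_ne i 0 with rfl | hi0
      · rw [pow_zero, one_mul]
        rcases h2' with h1 | ⟨c, hc, h1⟩
        · exact Or.inl h1
        · exact Or.inr ⟨c, by omega, h1⟩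
      · right
        have h3 := pw hE hqS hq.2 hi hi0
        rw [mul_inv_rev, ← inv_pow]
        rcases h2' with h1 | ⟨c, hc, h1⟩
        · refine ⟨E q.2, by omega, ?_⟩
          rw [h1, inv_one, one_mul]
          exact h3
        · exact ⟨c + E q.2 + 1, by omega, ml h1 h3⟩

end Pool.Agent.Helper46.RL
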