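import Pool.Agent.Helper46.RL.St

/-!
# RL, module PP: powers and inverses along the sequence
-/

set_option autoImplicit false

namespace Pool.Agent.Helper46.RL

open Subgroup
open scoped commutatorElement

theorem pPP : StPP := by
  intro E hE G _ p m e h
  induction h generalizing p m e with
  | zero =>
    intro r _ _ hr
    have h1 := hr.self_union
    refine h1.mono le_rfl (by simp) ?_
    rintro z (⟨j, hj, hz⟩ | ⟨j, hj, _⟩)
    · have hj0 : j = 0 := by omega
      subst hj0
      rcases hz with rfl | rfl
      · exact Or.inl rfl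
      · exact Or.inr rfl
    · omega
  | succ h ih =>
    intro r hp he hr
    have h1 := ih (fun j => p (j + 1)) (fun j => m (j + 1)) (fun j => e (j + 1)) r
      (fun j => hp (j + 1)) (fun j => he (j + 1)) hr
    -- the target set
    have hsub : ({z | ∃ j ≤ h + 1, z = p j ∨ z = (p j)⁻¹} ∪
        {z | ∃ j < h + 1, e j ≠ 0 ∧ z = p j ^ e j}) ⊆
        ({z | ∃ j ≤ h, z = p (j + 1) ∨ z = (p (j + 1))⁻¹} ∪
          {z | ∃ j < h, e (j + 1) ≠ 0 ∧ z = p (j + 1) ^ e (j + 1)}) ∪
        ({p 0, (p 0)⁻¹} ∪ {z | e 0 ≠ 0 ∧ z = p 0 ^ e 0}) := by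
      rintro z (⟨j, hj, hz⟩ | ⟨j, hj, hz1, hz2⟩)
      · rcases j with _ | j
        · right; left
          rcases hz with rfl | rfl <;> simp
        · left; left; exact ⟨j, by omega, hz⟩
      · rcases j with _ | j
        · right; right; exact ⟨hz1, hz2⟩
        · left; right; exact ⟨j, by omega, hz1, hz2⟩
    rw [Finset.sum_range_succ']
    by_cases hm : 2 ≤ m 0
    · rw [if_pos hm]
      have r1 := hE G (p 0) (m 0) (e 0) hm (he 0)
      have hp1 : p (0 + 1) = p 0 ^ m 0 := hp 0
      have r2 : Re ({p 0} ∪ ({p 0 ^ (m 0 - 1), p 0 ^ m 0} ∪ {q | e 0 ≠ 0 ∧ q = p 0 ^ e 0})) _ _ :=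
        h1.src (by
          rintro z hz
          have hz' : z = p (0 + 1) := hz
          rw [hz', hp1]
          right; left; right; rfl)
      have r3 := r1.trans r2
      have hinv : p 0 ^ (m 0 - 1) * (p (0 + 1))⁻¹ = (p 0)⁻¹ := by
        rw [hp1]
        have : p 0 ^ m 0 = p 0 ^ (m 0 - 1) * p 0 := by
          rw [← pow_succ]; congr 1; omega
        rw [this]; group
      have r4 := r3.step (a := p 0 ^ (m 0 - 1)) (b := (p (0 + 1))⁻¹)
        (Or.inr (Or.inl (Or.inl (Or.inl rfl))))
        (Or.inr (Or.inr (Or.inl ⟨0, Nat.zero_le _, Or.inr rfl⟩)))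
      rw [hinv] at r4
      have r5 := r4.self_union
      refine r5.mono le_rfl (by omega) (hsub.trans ?_)
      rintro z (hz | hz)
      · right; right; right; exact hz
      · rcases hz with hz | hz
        · rcases hz with rfl | hz
          · left; rfl
          · rw [Set.mem_singleton_iff] at hz
            right; left; exact hz
        · right; right; left; right; exact hz
    · have hm1 : m 0 = 1 := by
        have := he 0
        omega
      rw [if_neg hm]
      have he0 : e 0 = 0 := by have := he 0; omega
      have hp1 : p (0 + 1) = p 0 := by rw [hp 0, hm1, pow_one]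
      have r1 : Re {p 0} _ _ := h1.src (S' := {p 0}) (by
        rintro z hz
        have hz' : z = p (0 + 1) := hz
        rw [hz', hp1]; rfl)
      refine r1.mono le_rfl (by omega) (hsub.trans ?_)
      rintro z (hz | hz)
      · exact hz
      · rcases hz with hz | ⟨hz, _⟩
        · left
          refine ⟨0, Nat.zero_le _, ?_⟩
          rw [hp1]
          rcases hz with rfl | hz
          · left; rfl
          · right; exact hz
        · exact absurd he0 hz

end Pool.Agent.Helper46.RL
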