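import Pool.Agent.Helper46.RL.St

set_option autoImplicit false

namespace Pool.Agent.Helper46.RL

open Subgroup
open scoped commutatorElement

namespace PRODx

theorem pm_mono {G : Type} [Group G] {S T : Set G} (h : S ⊆ T) : pm S ⊆ pm T := by
  intro g hg
  rcases hg with hg | hg
  · exact Or.inl (h hg)
  · exact Or.inr (h hg)

theorem pm_union {G : Type} [Group G] (S T : Set G) : pm (S ∪ T) = pm S ∪ pm T := by
  ext g
  simp only [pm, Set.mem_union, Set.mem_ofPred_eq]
  tauto

/-- what is wanted of the list of layer `j` -/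
def LayerOK {G : Type} [Group G] (p : ℕ → G) (m : ℕ → ℕ) (j : ℕ) (l : List (G × ℕ)) : Prop :=
  (∀ q ∈ l, q.1 ∈ derivedSeries G j ∧ 2 ≤ q.2 ∧ q.2 ∣ Nat.card G) ∧
    (∀ g ∈ derivedSeries G j, ∃ i < m j, ∃ r ∈ derivedSeries G (j + 1),
      Fac l g (p j ^ i * r)) ∧
    m j * (l.map Prod.snd).prod = (derivedSeries G (j + 1)).relIndex (derivedSeries G j) ∧
    derivedSeries G j ≤ closure ({p j} ∪ lt l) ⊔ derivedSeries G (j + 1)

theorem layer_zero (hG : StGR) {G : Type} [Group G] [Finite G] (X : Set G) (p : ℕ → G)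
    (m : ℕ → ℕ) (hX : closure X = ⊤) (hp : PC (fun j => derivedSeries G j) p m) :
    ∃ l : List (G × ℕ), LayerOK p m 0 l ∧
      Re (pm X ∪ pm {p 0}) (10 * l.length) (pm (lt l)) := by
  have hle : derivedSeries G 1 ≤ derivedSeries G 0 := by
    rw [derivedSeries_zero]; exact le_top
  have hcomm : ⁅derivedSeries G 0, derivedSeries G 0⁆ ≤ derivedSeries G 1 := by
    rw [← derivedSeries_succ]
  obtain ⟨l, h1, h2, h3, h4, h5⟩ := hG G (derivedSeries G 1) (derivedSeries G 0) (pm X) (p 0) (m 0)
    hle hcomm (hp.mem 0) (hp.pos 0) (by rw [← hp.nxt 0]; exact hp.mem 1) (hp.low 0) (by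
      intro V _ _ _ hV
      have : ∃ x ∈ X, x ∉ closure V ⊔ derivedSeries G 1 := by
        by_contra hcon
        push Not at hcon
        apply hV
        have h1 : closure X ≤ closure V ⊔ derivedSeries G 1 := by
          rw [closure_le]
          exact hcon
        rw [hX] at h1
        exact le_top.trans h1
      obtain ⟨x, hx, hxV⟩ := this
      refine ⟨x, by rw [derivedSeries_zero]; exact mem_top x, hxV, Re.refl ?_⟩
      rintro y (rfl | rfl)
      · exact Or.inl (Or.inl hx)
      · refine Or.inl (Or.inr ?_)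
        rwa [inv_inv])
  exact ⟨l, ⟨h1, h2, h3, h4⟩, h5⟩

theorem layer_succ (hG : StGR) (hE : StEXT) {G : Type} [Group G] [Finite G] (X : Set G)
    (p : ℕ → G) (m : ℕ → ℕ) (hX : closure X = ⊤) (hp : PC (fun j => derivedSeries G j) p m)
    (j : ℕ) (l₀ : List (G × ℕ)) (hl₀ : LayerOK p m j l₀) :
    ∃ l : List (G × ℕ), LayerOK p m (j + 1) l ∧
      Re (pm X ∪ pm ({p j} ∪ lt l₀) ∪ pm {p (j + 1)}) (10 * l.length) (pm (lt l)) := by
  obtain ⟨g1, g2, g3, g4⟩ := hl₀
  have hU : ({p j} ∪ lt l₀ : Set G) ⊆ derivedSeries G j := by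
    rintro z (rfl | ⟨k, hk⟩)
    · exact hp.mem j
    · exact (g1 _ hk).1
  obtain ⟨l, h1, h2, h3, h4, h5⟩ := hG G (derivedSeries G (j + 2)) (derivedSeries G (j + 1))
    (pm X ∪ pm ({p j} ∪ lt l₀)) (p (j + 1)) (m (j + 1))
    (derivedSeries_antitone G (Nat.le_succ _))
    (by rw [← derivedSeries_succ]) (hp.mem (j + 1)) (hp.pos (j + 1))
    (by rw [← hp.nxt (j + 1)]; exact hp.mem (j + 2)) (hp.low (j + 1)) (by
      intro V _ hVB _ hV
      have key := hE G X ({p j} ∪ lt l₀) V (derivedSeries G j) hX hU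
        (by rw [← derivedSeries_succ]; exact g4)
        (by rw [← derivedSeries_succ]; exact hVB)
        (by rw [← derivedSeries_succ, ← derivedSeries_succ]; exact hV)
      rw [← derivedSeries_succ, ← derivedSeries_succ] at key
      exact key)
  exact ⟨l, ⟨h1, h2, h3, h4⟩, h5⟩

end PRODx

open PRODx in
theorem pPROD (hG : StGR) (hE : StEXT) : StPROD := by
  intro G _ _ X p m hX hp h
  suffices H : ∃ L : ℕ → List (G × ℕ), (∀ j < h, LayerOK p m j (L j)) ∧
      (∏ j ∈ Finset.range h, (m j * ((L j).map Prod.snd).prod)) *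
        Nat.card (derivedSeries G h) = Nat.card G ∧
      Re (pm X ∪ pm {z | ∃ j < h, z = p j}) (10 * ∑ j ∈ Finset.range h, (L j).length)
        (pm {z | ∃ j < h, z ∈ lt (L j)}) by
    obtain ⟨L, h1, h2, h3⟩ := H
    exact ⟨L, fun j hj => (h1 j hj).1, fun j hj => (h1 j hj).2.1, h2, h3⟩
  induction h with
  | zero =>
    refine ⟨fun _ => [], fun j hj => absurd hj (Nat.not_lt_zero j), ?_, ?_⟩
    · simp
    · refine Re.refl ?_
      rintro z (⟨j, hj, _⟩ | ⟨j, hj, _⟩) <;> exact absurd hj (Nat.not_lt_zero j)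
  | succ h ih =>
    obtain ⟨L, hL, hprod, hRe⟩ := ih
    -- the new list
    have key : ∃ l : List (G × ℕ), LayerOK p m h l ∧
        Re ((pm X ∪ pm {z | ∃ j < h + 1, z = p j}) ∪ pm {z | ∃ j < h, z ∈ lt (L j)})
          (10 * l.length) (pm (lt l)) := by
      cases h with
      | zero =>
        obtain ⟨l, hl, hr⟩ := layer_zero hG X p m hX hp
        refine ⟨l, hl, hr.src ?_⟩
        rintro z (hz | hz)
        · exact Or.inl (Or.inl hz)
        · refine Or.inl (Or.inr (pm_mono ?_ hz))
          rintro _ rfl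
          exact ⟨0, Nat.succ_pos _, rfl⟩
      | succ k =>
        obtain ⟨l, hl, hr⟩ := layer_succ hG hE X p m hX hp k (L k) (hL k (Nat.lt_succ_self k))
        refine ⟨l, hl, hr.src ?_⟩
        rw [pm_union]
        rintro z ((hz | (hz | hz)) | hz)
        · exact Or.inl (Or.inl hz)
        · refine Or.inl (Or.inr (pm_mono ?_ hz))
          rintro _ rfl
          exact ⟨k, by omega, rfl⟩
        · refine Or.inr (pm_mono ?_ hz)
          intro y hy
          exact ⟨k, Nat.lt_succ_self k, hy⟩
        · refine Or.inl (Or.inr (pm_mono ?_ hz))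
          rintro _ rfl
          exact ⟨k + 1, by omega, rfl⟩
    obtain ⟨l, hl, hr⟩ := key
    refine ⟨Function.update L h l, ?_, ?_, ?_⟩
    · intro j hj
      rcases Nat.lt_succ_iff_lt_or_eq.mp hj with hj | rfl
      · rw [Function.update_of_ne hj.ne]
        exact hL j hj
      · rw [Function.update_self]
        exact hl
    · rw [Finset.prod_range_succ, Function.update_self, hl.2.2.1]
      have e1 : ∏ j ∈ Finset.range h, (m j * ((Function.update L h l j).map Prod.snd).prod) =
          ∏ j ∈ Finset.range h, (m j * ((L j).map Prod.snd).prod) := by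
        refine Finset.prod_congr rfl fun j hj => ?_
        rw [Function.update_of_ne (Finset.mem_range.mp hj).ne]
      rw [e1, mul_assoc, ← hprod]
      congr 1
      have hle : derivedSeries G (h + 1) ≤ derivedSeries G h :=
        derivedSeries_antitone G (Nat.le_succ _)
      have h4 := relIndex_mul_relIndex (⊥ : Subgroup G) _ _ bot_le hle
      rw [relIndex_bot_left, relIndex_bot_left] at h4
      rw [mul_comm, h4]
    · rw [Finset.sum_range_succ, Function.update_self, mul_add]
      have e1 : ∑ j ∈ Finset.range h, (Function.update L h l j).length =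
          ∑ j ∈ Finset.range h, (L j).length := by
        refine Finset.sum_congr rfl fun j hj => ?_
        rw [Function.update_of_ne (Finset.mem_range.mp hj).ne]
      rw [e1]
      have hRe' : Re (pm X ∪ pm {z | ∃ j < h + 1, z = p j})
          (10 * ∑ j ∈ Finset.range h, (L j).length) (pm {z | ∃ j < h, z ∈ lt (L j)}) := by
        refine hRe.src ?_
        refine Set.union_subset_union_right _ (pm_mono ?_)
        rintro z ⟨j, hj, rfl⟩
        exact ⟨j, by omega, rfl⟩
      refine (hRe'.trans hr).sub ?_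
      rw [← pm_union]
      refine pm_mono ?_
      rintro z ⟨j, hj, hz⟩
      rcases Nat.lt_succ_iff_lt_or_eq.mp hj with hj | rfl
      · rw [Function.update_of_ne hj.ne] at hz
        exact Or.inl ⟨j, hj, hz⟩
      · rw [Function.update_self] at hz
        exact Or.inr hz

end Pool.Agent.Helper46.RL
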