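import Pool.Agent.Helper46.RL.M_KL
import Pool.Agent.Helper46.RL.M_EXT
import Pool.Agent.Helper46.RL.M_GR
import Pool.Agent.Helper46.RL.M_PROD
import Pool.Agent.Helper46.RL.M_IRR
import Pool.Agent.Helper46.RL.M_PC
import Pool.Agent.Helper46.RL.M_INV
import Pool.Agent.Helper46.RL.M_PP
import Pool.Agent.Helper46.RL.M_POW
import Pool.Agent.Helper46.RL.M_EA
import Pool.Agent.Helper46.RL.M_EB
import Pool.Agent.Helper46.RL.M_BS
import Pool.Agent.Helper46.RL.M_ASM
import Pool.Agent.Helper46.RL.M_FINA
import Pool.Agent.Helper46.RL.M_FINB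

/-!
# RL (MP_d72c68_al): assembly
-/

set_option autoImplicit false

namespace Pool.Agent.Helper46.RL

theorem prod_layers : StPROD := pPROD pGR (pEXT pKL)

theorem asm : StASM := pASM prod_layers pIRR pPC pINV pPP pPOW

theorem finA : StFINA := pFINA asm pEA

theorem finB : StFINB := pFINB asm pEB

end Pool.Agent.Helper46.RL
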