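import Pool.Agent.Helper46.RL.M_GRc
import Pool.Agent.Helper46.RL.M_EXT
import Pool.Agent.Helper46.RL.M_BS

set_option autoImplicit false

namespace Pool.Agent.Helper46.RL

open Subgroup
open scoped commutatorElement

namespace ABx

variable {G : Type} [Group G]

/-- a conjugate and its inverse: four multiplications -/
theorem re_conj4 {S : Set G} {x v : G} (hx : x ∈ S) (hx' : x⁻¹ ∈ S) (hv : v ∈ S) (hv' : v⁻¹ ∈ S) :
    Re S 4 {x⁻¹ * v * x, (x⁻¹ * v * x)⁻¹} := by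
  have r1 := EXTx.re_conj hx hx' hv
  have r2 := (EXTx.re_conj hx hx' hv').src (Set.subset_union_left (t := {x⁻¹ * v * x}))
  have r3 := r1.trans r2
  have e : x⁻¹ * v⁻¹ * x = (x⁻¹ * v * x)⁻¹ := by group
  rw [e] at r3
  exact r3

/-- commutators with a conjugate: ten multiplications -/
theorem re_comm10 {S : Set G} {x u w : G} (hx1 : x ∈ S) (hx2 : x⁻¹ ∈ S) (hu1 : u ∈ S)
    (hu2 : u⁻¹ ∈ S) (hw1 : w ∈ S) (hw2 : w⁻¹ ∈ S) :
    Re S 10 {⁅w, x⁻¹ * u * x⁆, ⁅w, x⁻¹ * u * x⁆⁻¹} := by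
  have r3 := re_conj4 hx1 hx2 hu1 hu2
  have r4 := EXTx.re_comm (S := S ∪ {x⁻¹ * u * x, (x⁻¹ * u * x)⁻¹}) (u := w)
    (w := x⁻¹ * u * x) (Or.inl hw1) (Or.inl hw2) (Or.inr (Or.inl rfl)) (Or.inr (Or.inr rfl))
  exact (r3.trans r4).mono le_rfl (by norm_num) Set.subset_union_right

theorem pm_sub {S U : Set G} (h : pm U ⊆ S) {u : G} (hu : u ∈ U) : u ∈ S ∧ u⁻¹ ∈ S :=
  ⟨h (Or.inl hu), h (Or.inr (by simpa using hu))⟩

omit [Group G] in
theorem cw_eq (E : ℕ → ℕ) (l : List (G × ℕ)) :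
    cw E l = ((l.map Prod.snd).map fun m => E m + 1).sum := by
  unfold cw
  rw [List.map_map]
  rfl

end ABx

open ABx BSx KLx in
theorem pAB (hG : StGRc) (hK : StKL) (hP : StPOW) (hE : StEA) : StAB := by
  intro G _ _ X S₀ N hN a e r hX hS h1 hst
  obtain ⟨S, hRe, hSS, hCov, hOrc⟩ := hst
  have hA : (⁅N, N⁆ : Subgroup G).Normal := inferInstance
  have hAN : (⁅N, N⁆ : Subgroup G) ≤ N := commutator_le_right N N
  have hXS : pm X ⊆ S := hS.trans hSS
  obtain ⟨l, l1, l2, l3, l4, l5⟩ := hG G ⁅N, N⁆ N S (max 4 r) hAN le_rfl (hSS h1) (by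
    intro V _ hV hNV
    by_cases hc : ∀ x ∈ X, ∀ v ∈ V, x⁻¹ * v * x ∈ closure V ⊔ ⁅N, N⁆
    · have hn : (closure V ⊔ ⁅N, N⁆ : Subgroup G).Normal := normal_of_gen' hX V _ hc
      obtain ⟨v, hv, hvn, hcost⟩ := hOrc _ hn le_sup_right
        (sup_le ((closure_le _).2 hV) hAN) hNV
      exact ⟨v, hv, hvn, hcost.mono Set.subset_union_left (le_max_right _ _) le_rfl⟩
    · push Not at hc
      obtain ⟨x, hx, v, hv, hn⟩ := hc
      obtain ⟨hx1, hx2⟩ := pm_sub hXS hx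
      refine ⟨x⁻¹ * v * x, ?_, hn, ?_⟩
      · have := hN.conj_mem v (hV hv) x⁻¹
        simpa using this
      · exact (re_conj4 (S := S ∪ pm V) (Or.inl hx1) (Or.inl hx2) (Or.inr (Or.inl hv))
          (Or.inr (Or.inr (by simpa using hv)))).weaken (le_max_left _ _))
  refine ⟨l.map Prod.snd, ?_, l3, S ∪ pm (lt l), ?_, hSS.trans Set.subset_union_left, ?_, ?_⟩
  · intro m hm
    obtain ⟨q, hq, rfl⟩ := List.mem_map.1 hm
    exact (l1 q hq).2
  · rw [List.length_map]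
    exact hRe.trans (l5.src Set.subset_union_right)
  · intro g
    obtain ⟨c, hc, hc1, hc2⟩ := hCov g
    obtain ⟨b, hb, hf⟩ := l2 _ hc
    obtain ⟨a', ha, ha1, ha2⟩ := hP EA hE G (S ∪ pm (lt l)) l (c⁻¹ * g) b
      (fun q hq => ⟨Or.inr (Or.inl ⟨q.2, hq⟩), (l1 q hq).2⟩) hf
    have ha2 := ha2 (fun q hq => Or.inr (Or.inr (by
      show (q.1⁻¹)⁻¹ ∈ lt l
      rw [inv_inv]
      exact ⟨q.2, hq⟩)))
    rw [← cw_eq]
    refine ⟨c * a', ?_, ?_, ?_⟩
    · have e1 : (c * a')⁻¹ * g = b := by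
        rw [mul_inv_rev, mul_assoc, ha, inv_mul_cancel_left]
      rw [e1]; exact hb
    · rcases ha1 with rfl | ⟨k, hk, hr⟩
      · rw [mul_one]
        exact (hc1.src Set.subset_union_left).weaken (Nat.le_add_right _ _)
      · exact (prod (hc1.src Set.subset_union_left) hr).weaken (by omega)
    · rcases ha2 with h | ⟨k, hk, hr⟩
      · rw [h, mul_one]
        exact (hc2.src Set.subset_union_left).weaken (Nat.le_add_right _ _)
      · rw [mul_inv_rev]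
        exact (prod hr (hc2.src Set.subset_union_left)).weaken (by omega)
  · intro H hH hAH _ hne
    have hlN : lt l ⊆ N := by
      rintro z ⟨m, hm⟩
      exact (l1 _ hm).1
    have hXS' : ∀ x ∈ X, x ∈ S ∪ pm (lt l) ∧ x⁻¹ ∈ S ∪ pm (lt l) := fun x hx =>
      ⟨Or.inl (pm_sub hXS hx).1, Or.inl (pm_sub hXS hx).2⟩
    have hlS' : ∀ u ∈ lt l, u ∈ S ∪ pm (lt l) ∧ u⁻¹ ∈ S ∪ pm (lt l) := fun u hu =>
      ⟨Or.inr (Or.inl hu), Or.inr (Or.inr (by simpa using hu))⟩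
    by_contra hno
    push Not at hno
    apply hne
    refine hK G X (lt l) N H hX hlN l4 hAH (fun u hu w hw => ?_) (fun u hu w hw x hx => ?_)
    · by_contra hmem
      exact hno ⁅u, w⁆ (commutator_mem_commutator (hlN hu) (hlN hw)) hmem
        ((EXTx.re_comm (hlS' u hu).1 (hlS' u hu).2 (hlS' w hw).1 (hlS' w hw).2).weaken
          (by norm_num))
    · by_contra hmem
      have hcN : x⁻¹ * u * x ∈ N := by
        have := hN.conj_mem u (hlN hu) x⁻¹
        simpa using this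
      exact hno ⁅w, x⁻¹ * u * x⁆ (commutator_mem_commutator (hlN hw) hcN) hmem
        (re_comm10 (hXS' x hx).1 (hXS' x hx).2 (hlS' u hu).1 (hlS' u hu).2 (hlS' w hw).1
          (hlS' w hw).2)

end Pool.Agent.Helper46.RL
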