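import Pool.Agent.Helper46.RL.St

/-!
# RL (MP_d72c68_al): all finite groups

Goal: `cost ≤ (23 + 44 log₂ ns) log₂|G|`, `ns` the product of the orders of the nonabelian factors of any normal series.
-/

set_option autoImplicit false

namespace Pool.Agent.Helper46.RL

open Subgroup
open scoped commutatorElement

/-- every `g` is `c * n`, `n ∈ N`, `c` and `c⁻¹` computed with `e` multiplications -/
def Cov {G : Type} [Group G] (S : Set G) (N : Subgroup G) (e : ℕ) : Prop :=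
  ∀ g : G, ∃ c : G, c⁻¹ * g ∈ N ∧ Re S e {c} ∧ Re S e {c⁻¹}

/-- elements of `N` outside of a normal subgroup `H`, `⁅N, N⁆ ≤ H < N`, with `r` multiplications -/
def Orc {G : Type} [Group G] (S : Set G) (N : Subgroup G) (r : ℕ) : Prop :=
  ∀ H : Subgroup G, H.Normal → ⁅N, N⁆ ≤ H → H ≤ N → ¬ N ≤ H → ∃ v ∈ N, v ∉ H ∧ Re S r {v, v⁻¹}

/-- the state of the ladder at `N` -/
def Stt {G : Type} [Group G] (S₀ : Set G) (N : Subgroup G) (a e r : ℕ) : Prop :=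
  ∃ S, Re S₀ a S ∧ S₀ ⊆ S ∧ Cov S N e ∧ Orc S N r

/-- greedy choice of letters in an abelian section (`StGR` for `p = 1` and a general constant) -/
def StGRc : Prop := ∀ (G : Type) [Group G] [Finite G] (A B : Subgroup G) (S : Set G) (c : ℕ),
  A ≤ B → ⁅B, B⁆ ≤ A → 1 ∈ S →
  (∀ V : Set G, V.Finite → V ⊆ B → ¬ B ≤ closure V ⊔ A →
    ∃ v ∈ B, v ∉ closure V ⊔ A ∧ Re (S ∪ pm V) c {v, v⁻¹}) →
  ∃ l : List (G × ℕ), (∀ q ∈ l, q.1 ∈ B ∧ 2 ≤ q.2) ∧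
    (∀ g ∈ B, ∃ r ∈ A, Fac l g r) ∧
    (l.map Prod.snd).prod = A.relIndex B ∧ B ≤ closure (lt l) ⊔ A ∧
    Re S (c * l.length) (pm (lt l))

/-- an abelian layer -/
def StAB : Prop := ∀ (G : Type) [Group G] [Finite G] (X S₀ : Set G) (N : Subgroup G) [N.Normal]
  (a e r : ℕ), closure X = ⊤ → pm X ⊆ S₀ → 1 ∈ S₀ → Stt S₀ N a e r →
  ∃ l : List ℕ, (∀ m ∈ l, 2 ≤ m) ∧ l.prod = (⁅N, N⁆ : Subgroup G).relIndex N ∧
    Stt S₀ ⁅N, N⁆ (a + max 4 r * l.length) (e + (l.map fun m => EA m + 1).sum) 10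

/-- doubling steps in a section -/
def StDBL : Prop := ∀ (G : Type) [Group G] [Finite G] (X S : Set G) (N M : Subgroup G) [N.Normal]
  [M.Normal] (e : ℕ), closure X = ⊤ → pm X ⊆ S → 1 ∈ S → M ≤ N → Cov S N e →
  ∃ (t : ℕ) (Z D : Set G), 2 ^ t ≤ M.relIndex N ∧ Z ⊆ N ∧
    Re S (t * (4 * e + 4 * t + 8)) (pm Z) ∧ 1 ∈ D ∧ D ⊆ closure Z ∧
    (∀ d ∈ D, Re (S ∪ pm Z) (2 * t + 1) {d} ∧ Re (S ∪ pm Z) (2 * t + 1) {d⁻¹}) ∧
    ∀ n ∈ N, ∃ d ∈ D, d⁻¹ * n ∈ M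

/-- roots of the kernel of a perfect section -/
def StREL : Prop := ∀ (G : Type) [Group G] [Finite G] (X S : Set G) (N M : Subgroup G) [N.Normal]
  [M.Normal] (t : ℕ) (Z D : Set G), closure X = ⊤ → pm X ⊆ S → pm Z ⊆ S → 1 ∈ S → M ≤ N →
  ⁅N, N⁆ = N → Z ⊆ N → 1 ∈ D → D ⊆ closure Z →
  (∀ d ∈ D, Re S (2 * t + 1) {d} ∧ Re S (2 * t + 1) {d⁻¹}) →
  (∀ n ∈ N, ∃ d ∈ D, d⁻¹ * n ∈ M) → Orc S M (8 * t + 8)

/-- a perfect layer -/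
def StNA : Prop := ∀ (G : Type) [Group G] [Finite G] (X S₀ : Set G) (N M : Subgroup G) [N.Normal]
  [M.Normal] (a e r : ℕ), closure X = ⊤ → pm X ⊆ S₀ → 1 ∈ S₀ → M ≤ N → ⁅N, N⁆ = N →
  Stt S₀ N a e r →
  ∃ t : ℕ, 2 ^ t ≤ M.relIndex N ∧
    Stt S₀ M (a + t * (4 * e + 4 * t + 8)) (e + 2 * t + 2) (8 * t + 8)

/-- inverses of generators -/
def StINV2 : Prop := ∀ (G : Type) [Group G] [Finite G] [Nontrivial G] (X : Set G),
  closure X = ⊤ → ∃ (X' : Set G) (a₀ : ℕ), closure X' = ⊤ ∧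
    (a₀ : ℝ) ≤ 7 * Real.logb 2 (Nat.card G) ∧ Re X a₀ (pm X' ∪ {1})

/-- the bound for all finite groups -/
def StALL : Prop := ∀ (G : Type) [Group G] [Finite G] [Nontrivial G] (X : Set G) (n : ℕ)
  (K : ℕ → Subgroup G) (T : Finset ℕ), closure X = ⊤ → K 0 = ⊤ → K n = ⊥ →
  (∀ i, K (i + 1) ≤ K i) → (∀ i, (K i).Normal) →
  (∀ i, i ∉ T → ⁅K i, K i⁆ ≤ K (i + 1)) →
  ∀ g : G, ∃ k : ℕ, (k : ℝ) ≤
    (23 + 44 * ∑ i ∈ T, Real.logb 2 ((K (i + 1)).relIndex (K i))) *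
      Real.logb 2 (Nat.card G) ∧ Obt X g k

end Pool.Agent.Helper46.RL
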