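import Pool.Agent.Helper46.RL.M_FINA
import Pool.Agent.Helper46.RL.M_BS
import Pool.Agent.Helper46.RL.St2

set_option autoImplicit false

namespace Pool.Agent.Helper46.RL

open Subgroup
open scoped commutatorElement

namespace ALLx

open FINAx

/-- `log₂` of the order -/
noncomputable def lg {G : Type} [Group G] (N : Subgroup G) : ℝ := Real.logb 2 (Nat.card N)

/-- `log₂` of the product of the orders of the factors from `i` on -/
noncomputable def tau {G : Type} [Group G] (K : ℕ → Subgroup G) (T : Finset ℕ) (i : ℕ) : ℝ :=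
  ∑ j ∈ T.filter (fun j => i ≤ j), Real.logb 2 ((K (j + 1)).relIndex (K j))

variable {G : Type} [Group G] [Finite G]

theorem lg_nonneg (N : Subgroup G) : 0 ≤ lg N := by
  have h : 1 ≤ Nat.card N := Nat.card_pos
  exact Real.logb_nonneg (by norm_num) (by exact_mod_cast h)

theorem relIndex_pos (A B : Subgroup G) : 0 < A.relIndex B :=
  Nat.pos_of_ne_zero Subgroup.index_ne_zero_of_finite

theorem log_nonneg (n : ℕ) (h : 0 < n) : 0 ≤ Real.logb 2 (n : ℝ) :=
  Real.logb_nonneg (by norm_num) (by exact_mod_cast h)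

theorem tau_nonneg (K : ℕ → Subgroup G) (T : Finset ℕ) (i : ℕ) : 0 ≤ tau K T i :=
  Finset.sum_nonneg fun j _ => log_nonneg _ (relIndex_pos _ _)

theorem tau_mono (K : ℕ → Subgroup G) (T : Finset ℕ) {i j : ℕ} (h : i ≤ j) :
    tau K T j ≤ tau K T i := by
  refine Finset.sum_le_sum_of_subset_of_nonneg ?_ fun k _ _ => log_nonneg _ (relIndex_pos _ _)
  intro k hk
  rw [Finset.mem_filter] at hk ⊢
  exact ⟨hk.1, h.trans hk.2⟩

theorem tau_step (K : ℕ → Subgroup G) (T : Finset ℕ) {i j : ℕ} (h : i ≤ j) (hj : j ∈ T) :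
    tau K T (j + 1) + Real.logb 2 ((K (j + 1)).relIndex (K j)) ≤ tau K T i := by
  have h1 : tau K T j ≤ tau K T i := tau_mono K T h
  have h2 : j ∉ T.filter (fun k => j + 1 ≤ k) := by
    rw [Finset.mem_filter]; omega
  have h3 : tau K T (j + 1) + Real.logb 2 ((K (j + 1)).relIndex (K j)) ≤ tau K T j := by
    have h4 := Finset.sum_insert (f := fun k => Real.logb 2 ((K (k + 1)).relIndex (K k))) h2
    unfold tau
    rw [add_comm, ← h4]
    refine Finset.sum_le_sum_of_subset_of_nonneg ?_ fun k _ _ => log_nonneg _ (relIndex_pos _ _)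
    intro k hk
    rw [Finset.mem_insert, Finset.mem_filter] at hk
    rw [Finset.mem_filter]
    rcases hk with rfl | hk
    · exact ⟨hj, le_rfl⟩
    · exact ⟨hk.1, by omega⟩
  linarith

theorem lg_sub {M N : Subgroup G} (h : M ≤ N) :
    lg N = lg M + Real.logb 2 (M.relIndex N) := by
  have h6 : Nat.card M * M.relIndex N = Nat.card N := by
    rw [← Subgroup.relIndex_bot_left M, ← Subgroup.relIndex_bot_left N,
      Subgroup.relIndex_mul_relIndex _ _ _ bot_le h]
  unfold lg
  rw [← h6, Nat.cast_mul, Real.logb_mul]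
  · have : Nat.card M ≠ 0 := Nat.card_pos.ne'
    exact_mod_cast this
  · have : M.relIndex N ≠ 0 := (relIndex_pos M N).ne'
    exact_mod_cast this

theorem EA_le6 {k : ℕ} (hk : 2 ≤ k) : ((EA k + 1 : ℕ) : ℝ) ≤ 6 * Real.logb 2 k + 0 := by
  have h1 := logb_nonneg hk
  have h2 : (Nat.log 2 (k - 1) : ℝ) ≤ Real.logb 2 k := by
    have h3 : 2 ^ Nat.log 2 (k - 1) ≤ k - 1 := Nat.pow_log_le_self 2 (by omega)
    rw [Real.le_logb_iff_rpow_le (by norm_num) (by positivity), Real.rpow_natCast]
    have h4 : 2 ^ Nat.log 2 (k - 1) ≤ k := by omega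
    exact_mod_cast h4
  unfold EA
  push_cast
  linarith

theorem ind (hAB : StAB) (hNA : StNA) (X S₀ : Set G) (n : ℕ) (K : ℕ → Subgroup G)
    (T : Finset ℕ) (hX : closure X = ⊤) (hS : pm X ⊆ S₀) (h1S : 1 ∈ S₀) (hKn : K n = ⊥)
    (hanti : ∀ i, K (i + 1) ≤ K i) (hnorm : ∀ i, (K i).Normal)
    (hab : ∀ i, i ∉ T → ⁅K i, K i⁆ ≤ K (i + 1)) :
    ∀ (c : ℕ) (N : Subgroup G) (i a e r : ℕ), N.Normal → Nat.card N ≤ c → N ≤ K i →
      Stt S₀ N a e r → (e : ℝ) + 6 * lg N ≤ 6 * Real.logb 2 (Nat.card G) →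
      (r : ℝ) ≤ 8 * tau K T 0 + 10 → ∀ g : G, ∃ k : ℕ,
        (k : ℝ) ≤ a + (8 * tau K T 0 + 10) * lg N + 36 * Real.logb 2 (Nat.card G) * tau K T i +
          6 * Real.logb 2 (Nat.card G) ∧ Re S₀ k {g} := by
  have hanti' : Antitone K := antitone_nat_of_succ_le hanti
  intro c
  induction c with
  | zero =>
    intro N i a e r _ hc
    have : 0 < Nat.card N := Nat.card_pos
    omega
  | succ c ih =>
    intro N i a e r hNn hc hNK hst he hr g
    have hL0 : 0 ≤ Real.logb 2 (Nat.card G : ℝ) := log_nonneg _ Nat.card_pos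
    have hτ0 := tau_nonneg K T 0
    have hτi := tau_nonneg K T i
    by_cases hbot : N = ⊥
    · obtain ⟨S, hRe, hSS, hCov, -⟩ := hst
      obtain ⟨d, hd, hd1, -⟩ := hCov g
      rw [hbot, mem_bot] at hd
      have hdg : d = g := by
        have := congrArg (fun y => d * y) hd
        simpa using this.symm
      rw [hdg] at hd1
      refine ⟨a + e, ?_, (hRe.trans (hd1.src Set.subset_union_right)).sub
        Set.subset_union_right⟩
      have h2 := lg_nonneg N
      have h3 : 0 ≤ (8 * tau K T 0 + 10) * lg N := mul_nonneg (by linarith) h2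
      have h4 : 0 ≤ 36 * Real.logb 2 (Nat.card G : ℝ) * tau K T i :=
        mul_nonneg (by linarith) hτi
      push_cast
      linarith
    have hle : (⁅N, N⁆ : Subgroup G) ≤ N := commutator_le_right N N
    by_cases hperf : ⁅N, N⁆ = N
    · -- a perfect layer
      obtain ⟨j, hij, hj1, hj2⟩ : ∃ j, i ≤ j ∧ N ≤ K j ∧ ¬ N ≤ K (j + 1) := by
        by_contra hcon
        push Not at hcon
        have h5 : ∀ k, N ≤ K (i + k) := by
          intro k
          induction k with
          | zero => exact hNK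
          | succ k ihk => exact hcon (i + k) (Nat.le_add_right _ _) ihk
        have h6 := (h5 n).trans (hanti' (Nat.le_add_left n i))
        rw [hKn] at h6
        exact hbot (le_bot_iff.1 h6)
      have hjT : j ∈ T := by
        by_contra hjT
        apply hj2
        have h5 := hab j hjT
        rw [← hperf]
        exact (commutator_mono hj1 hj1).trans h5
      haveI := hnorm (j + 1)
      obtain ⟨t, ht, hst'⟩ := hNA G X S₀ N (N ⊓ K (j + 1)) a e r hX hS h1S inf_le_left hperf hst
      have hMN : N ⊓ K (j + 1) ≤ N := inf_le_left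
      have hne : N ⊓ K (j + 1) ≠ N := fun h => hj2 (inf_eq_left.1 h)
      have hlt : N ⊓ K (j + 1) < N := lt_of_le_of_ne hMN hne
      have hrel : 2 ≤ (N ⊓ K (j + 1)).relIndex N := by
        have h5 : (N ⊓ K (j + 1)).relIndex N ≠ 1 := by
          intro h
          exact hne (le_antisymm hMN (Subgroup.relIndex_eq_one.1 h))
        have h6 := relIndex_pos (N ⊓ K (j + 1)) N
        omega
      have hcard : Nat.card (N ⊓ K (j + 1) : Subgroup G) ≤ c := by
        have h5 : Nat.card (N ⊓ K (j + 1) : Subgroup G) * (N ⊓ K (j + 1)).relIndex N =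
            Nat.card N := by
          rw [← Subgroup.relIndex_bot_left (N ⊓ K (j + 1)), ← Subgroup.relIndex_bot_left N,
            Subgroup.relIndex_mul_relIndex _ _ _ bot_le hMN]
        have h6 : 0 < Nat.card (N ⊓ K (j + 1) : Subgroup G) := Nat.card_pos
        nlinarith
      have hlg := lg_sub hMN
      have hl1 : 1 ≤ Real.logb 2 ((N ⊓ K (j + 1)).relIndex N : ℝ) := logb_nonneg hrel
      have ht1 : (t : ℝ) ≤ Real.logb 2 ((N ⊓ K (j + 1)).relIndex N : ℝ) := by
        rw [Real.le_logb_iff_rpow_le (by norm_num) (by exact_mod_cast (relIndex_pos _ _)),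
          Real.rpow_natCast]
        exact_mod_cast ht
      have ht2 : Real.logb 2 ((N ⊓ K (j + 1)).relIndex N : ℝ) ≤
          Real.logb 2 ((K (j + 1)).relIndex (K j) : ℝ) := by
        apply Real.logb_le_logb_of_le (by norm_num)
        · exact_mod_cast (relIndex_pos _ _)
        · have h5 : (N ⊓ K (j + 1)).relIndex N ≤ (K (j + 1)).relIndex (K j) := by
            rw [Subgroup.inf_relIndex_left]
            exact Subgroup.relIndex_le_of_le_right hj1 (relIndex_pos _ _).ne'
          exact_mod_cast h5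
      have hts := tau_step K T hij hjT
      have hts0 := tau_step K T (Nat.zero_le j) hjT
      have hτj := tau_nonneg K T (j + 1)
      have hlM := lg_nonneg (N ⊓ K (j + 1))
      have hlN : lg N ≤ Real.logb 2 (Nat.card G : ℝ) := by
        apply Real.logb_le_logb_of_le (by norm_num)
        · exact_mod_cast Nat.card_pos
        · exact_mod_cast Subgroup.card_le_card_group N
      obtain ⟨k, hk, hRe⟩ := ih (N ⊓ K (j + 1)) (j + 1) _ _ _ inferInstance hcard inf_le_right
        hst' (by push_cast; linarith) (by push_cast; linarith) g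
      refine ⟨k, hk.trans ?_, hRe⟩
      have h5 : (t : ℝ) * (4 * e + 4 * t + 8) ≤ 36 * Real.logb 2 (Nat.card G : ℝ) * t := by
        have h6 : (4 * e + 4 * t + 8 : ℝ) ≤ 36 * Real.logb 2 (Nat.card G : ℝ) := by linarith
        have h7 := mul_le_mul_of_nonneg_left h6 (Nat.cast_nonneg (α := ℝ) t)
        linarith
      have h6 : 36 * Real.logb 2 (Nat.card G : ℝ) * (tau K T (j + 1) + t) ≤
          36 * Real.logb 2 (Nat.card G : ℝ) * tau K T i :=
        mul_le_mul_of_nonneg_left (by linarith) (by linarith)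
      have h7 : (8 * tau K T 0 + 10) * lg (N ⊓ K (j + 1)) ≤ (8 * tau K T 0 + 10) * lg N :=
        mul_le_mul_of_nonneg_left (by linarith) (by linarith)
      push_cast
      linarith
    · -- an abelian layer
      obtain ⟨l, hl2, hlp, hst'⟩ := hAB G X S₀ N a e r hX hS h1S hst
      have hrel : 2 ≤ (⁅N, N⁆ : Subgroup G).relIndex N := by
        have h5 : (⁅N, N⁆ : Subgroup G).relIndex N ≠ 1 := by
          intro h
          exact hperf (le_antisymm hle (Subgroup.relIndex_eq_one.1 h))
        have h6 := relIndex_pos (⁅N, N⁆ : Subgroup G) N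
        omega
      have hcard : Nat.card (⁅N, N⁆ : Subgroup G) ≤ c := by
        have h5 : Nat.card (⁅N, N⁆ : Subgroup G) * (⁅N, N⁆ : Subgroup G).relIndex N =
            Nat.card N := by
          rw [← Subgroup.relIndex_bot_left (⁅N, N⁆ : Subgroup G), ← Subgroup.relIndex_bot_left N,
            Subgroup.relIndex_mul_relIndex _ _ _ bot_le hle]
        have h6 : 0 < Nat.card (⁅N, N⁆ : Subgroup G) := Nat.card_pos
        nlinarith
      have hlg := lg_sub hle
      have h7 := sum_le (c := 6) (d := 0) (f := fun m => EA m + 1) l fun m hm =>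
        ⟨hl2 m hm, EA_le6 (hl2 m hm)⟩
      have h8 := len_le (a := 1) l fun m hm => ⟨hl2 m hm, logb_nonneg (hl2 m hm)⟩
      rw [hlp] at h7 h8
      obtain ⟨k, hk, hRe⟩ := ih (⁅N, N⁆ : Subgroup G) i _ _ _ inferInstance hcard
        (hle.trans hNK) hst' (by rw [Nat.cast_add]; linarith) (by push_cast; linarith) g
      refine ⟨k, hk.trans ?_, hRe⟩
      have h9 : ((max 4 r : ℕ) : ℝ) ≤ 8 * tau K T 0 + 10 := by
        rw [Nat.cast_max]
        exact max_le (by push_cast; linarith) hr
      have h10 : ((max 4 r : ℕ) : ℝ) * l.length ≤ (8 * tau K T 0 + 10) *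
          Real.logb 2 ((⁅N, N⁆ : Subgroup G).relIndex N : ℝ) :=
        mul_le_mul h9 (by linarith) (Nat.cast_nonneg _) (by linarith)
      rw [hlg, Nat.cast_add, Nat.cast_mul]
      linarith

end ALLx

open ALLx in
theorem pALL (hAB : StAB) (hNA : StNA) (hI : StINV2) : StALL := by
  intro G _ _ _ X n K T hX hK0 hKn hanti hnorm hab g
  obtain ⟨X', a₀, hX', ha₀, hRe₀⟩ := hI G X hX
  have hst : Stt (pm X' ∪ {1}) (⊤ : Subgroup G) 0 0 0 := by
    refine ⟨pm X' ∪ {1}, Re.refl le_rfl, le_rfl, ?_, ?_⟩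
    · intro g
      refine ⟨1, mem_top _, Re.refl ?_, Re.refl ?_⟩
      · rintro _ rfl; exact Or.inr rfl
      · rintro _ rfl; exact Or.inr inv_one
    · intro H _ _ _ hne
      have h1 : ∃ x ∈ X', x ∉ H := by
        by_contra hcon
        push Not at hcon
        apply hne
        rw [← hX', closure_le]
        exact hcon
      obtain ⟨x, hx, hxH⟩ := h1
      refine ⟨x, mem_top _, hxH, Re.refl ?_⟩
      rintro y (rfl | rfl)
      · exact Or.inl (Or.inl hx)
      · exact Or.inl (Or.inr (by rwa [inv_inv]))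
  have hcardtop : lg (⊤ : Subgroup G) = Real.logb 2 (Nat.card G) := by
    unfold lg
    rw [Subgroup.card_top]
  have htau : tau K T 0 = ∑ i ∈ T, Real.logb 2 ((K (i + 1)).relIndex (K i)) := by
    unfold tau
    rw [Finset.filter_true_of_mem fun _ _ => Nat.zero_le _]
  obtain ⟨k, hk, hRe⟩ := ind hAB hNA X' (pm X' ∪ {1}) n K T hX' Set.subset_union_left (Or.inr rfl)
    hKn hanti hnorm hab (Nat.card (⊤ : Subgroup G)) ⊤ 0 0 0 0 inferInstance le_rfl
    (by rw [hK0]) hst (by rw [hcardtop]; simp)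
    (by have := tau_nonneg K T 0; push_cast; linarith) g
  obtain ⟨k', hk', hO⟩ := ((hRe₀.trans (hRe.src Set.subset_union_right)).sub
    Set.subset_union_right).obt
  refine ⟨k', ?_, hO⟩
  rw [hcardtop] at hk
  rw [← htau]
  have h1 : (k' : ℝ) ≤ a₀ + k := by exact_mod_cast hk'
  have e1 : (23 + 44 * tau K T 0) * Real.logb 2 (Nat.card G : ℝ) =
      7 * Real.logb 2 (Nat.card G : ℝ) + ((0 : ℕ) + (8 * tau K T 0 + 10) *
        Real.logb 2 (Nat.card G : ℝ) + 36 * Real.logb 2 (Nat.card G : ℝ) * tau K T 0 +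
        6 * Real.logb 2 (Nat.card G : ℝ)) := by
    push_cast
    ring
  rw [e1]
  linarith

end Pool.Agent.Helper46.RL
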