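import Pool.Agent.Helper46.RL.M_BS
import Pool.Agent.Helper46.RL.St2

set_option autoImplicit false

namespace Pool.Agent.Helper46.RL

open Subgroup
open scoped commutatorElement

namespace DBLx

variable {G : Type} [Group G]

open BSx

theorem exit [Finite G] {X S : Set G} {N : Subgroup G} [N.Normal] {e : ℕ} (hX : closure X = ⊤)
    (hS : pm X ⊆ S) (h1 : 1 ∈ S) (hCov : Cov S N e) {E : Set G} (hE1 : 1 ∈ E)
    (hEN : ∀ m ∈ E, m ∈ N) (hne : ∃ n ∈ N, n ∉ E) :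
    ∃ m ∈ E, ∃ s ∈ N, m * s ∉ E ∧ Re S (2 * e + 2) {s} ∧ Re S (2 * e + 2) {s⁻¹} := by
  by_contra hcon
  push Not at hcon
  have key : ∀ m ∈ E, ∀ s ∈ N, Re S (2 * e + 2) {s} → Re S (2 * e + 2) {s⁻¹} → m * s ∈ E := by
    intro m hm s hs r1 r2
    by_contra hmem
    exact hcon m hm s hs hmem r1 r2
  have hF := closed (E := {g | ∃ m ∈ E, ∃ c, Re S e {c} ∧ Re S e {c⁻¹} ∧ g = m * c}) hX ?_ ?_
  · obtain ⟨n, hn, hnE⟩ := hne
    obtain ⟨m, hm, c, hc1, hc2, rfl⟩ := hF n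
    refine hnE (key m hm c ?_ (hc1.weaken (by omega)) (hc2.weaken (by omega)))
    have := N.mul_mem (N.inv_mem (hEN m hm)) hn
    rwa [inv_mul_cancel_left] at this
  · refine ⟨1, hE1, 1, ?_, ?_, (one_mul 1).symm⟩
    · exact (Re.refl (Set.singleton_subset_iff.2 h1)).weaken (Nat.zero_le _)
    · rw [inv_one]
      exact (Re.refl (Set.singleton_subset_iff.2 h1)).weaken (Nat.zero_le _)
  · rintro y ⟨m, hm, c, hc1, hc2, rfl⟩ x hx
    obtain ⟨c', hc', hc1', hc2'⟩ := hCov (c * x)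
    have hx1 : x ∈ S := hS (Or.inl hx)
    have hx2 : x⁻¹ ∈ S := hS (Or.inr (by simpa using hx))
    refine ⟨m * (c * x * c'⁻¹), key m hm _ ?_ ?_ ?_, c', hc1', hc2', by group⟩
    · have h := (inferInstance : N.Normal).conj_mem _ hc' c'
      have e1 : c' * (c'⁻¹ * (c * x)) * c'⁻¹ = c * x * c'⁻¹ := by group
      rwa [e1] at h
    · exact (prod (mulr hc1 hx1) hc2').weaken (by omega)
    · have e1 : (c * x * c'⁻¹)⁻¹ = c' * x⁻¹ * c⁻¹ := by group
      rw [e1]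
      exact (prod (mulr hc1' hx2) hc2).weaken (by omega)

/-- the result after `t` steps -/
def Done (S : Set G) (N M : Subgroup G) (e t : ℕ) : Prop :=
  ∃ (Z D : Set G), 2 ^ t ≤ M.relIndex N ∧ Z ⊆ N ∧
    Re S (t * (4 * e + 4 * t + 8)) (pm Z) ∧ 1 ∈ D ∧ D ⊆ closure Z ∧
    (∀ d ∈ D, Re (S ∪ pm Z) (2 * t + 1) {d} ∧ Re (S ∪ pm Z) (2 * t + 1) {d⁻¹}) ∧
    ∀ n ∈ N, ∃ d ∈ D, d⁻¹ * n ∈ M

/-- the configuration after `k` steps -/
def Conf (S : Set G) (N M : Subgroup G) (e k : ℕ) : Prop :=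
  ∃ (Z D : Set G), Z ⊆ N ∧
    Re S (k * (4 * e + 4 * k + 8)) (pm Z) ∧ 1 ∈ D ∧ D ⊆ closure Z ∧
    (∀ d ∈ D, Re (S ∪ pm Z) k {d} ∧ Re (S ∪ pm Z) k {d⁻¹}) ∧
    2 ^ k ≤ ((fun g : G => (g : G ⧸ M)) '' D).ncard

theorem card_le [Finite G] {N M : Subgroup G} [N.Normal] [M.Normal] (D : Set G)
    (hD : ∀ d ∈ D, d ∈ N) : ((fun g : G => (g : G ⧸ M)) '' D).ncard ≤ M.relIndex N := by
  have h1 : ((fun g : G => (g : G ⧸ M)) '' D) ⊆
      (QuotientGroup.map (M.subgroupOf N) M N.subtype le_rfl) '' Set.univ := by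
    rintro _ ⟨d, hd, rfl⟩
    exact ⟨((⟨d, hD d hd⟩ : N) : N ⧸ M.subgroupOf N), Set.mem_univ _, rfl⟩
  calc _ ≤ _ := Set.ncard_le_ncard h1 (Set.toFinite _)
    _ ≤ (Set.univ : Set (N ⧸ M.subgroupOf N)).ncard := Set.ncard_image_le (Set.toFinite _)
    _ = _ := by rw [Set.ncard_univ]; rfl

theorem step [Finite G] {X S : Set G} {N M : Subgroup G} [N.Normal] [M.Normal] {e k : ℕ}
    (hX : closure X = ⊤) (hS : pm X ⊆ S) (h1 : 1 ∈ S) (hMN : M ≤ N) (hCov : Cov S N e)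
    (hC : Conf S N M e k) : Done S N M e k ∨ Conf S N M e (k + 1) := by
  obtain ⟨Z, D, hZ, hRe, hD1, hDZ, hcost, hcard⟩ := hC
  have hDN : ∀ d ∈ D, d ∈ N := fun d hd => (closure_le N).2 hZ (hDZ hd)
  by_cases hall : ∀ n ∈ N, ∃ d₁ ∈ D, ∃ d₂ ∈ D, (d₁⁻¹ * d₂)⁻¹ * n ∈ M
  · left
    refine ⟨Z, {d | ∃ d₁ ∈ D, ∃ d₂ ∈ D, d = d₁⁻¹ * d₂}, hcard.trans (card_le D hDN), hZ, hRe,
      ⟨1, hD1, 1, hD1, by group⟩, ?_, ?_, ?_⟩
    · rintro _ ⟨d₁, h₁, d₂, h₂, rfl⟩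
      exact mul_mem (inv_mem (hDZ h₁)) (hDZ h₂)
    · rintro _ ⟨d₁, h₁, d₂, h₂, rfl⟩
      refine ⟨(prod (hcost d₁ h₁).2 (hcost d₂ h₂).1).weaken (by omega), ?_⟩
      have e1 : (d₁⁻¹ * d₂)⁻¹ = d₂⁻¹ * d₁ := by group
      rw [e1]
      exact (prod (hcost d₂ h₂).2 (hcost d₁ h₁).1).weaken (by omega)
    · intro n hn
      obtain ⟨d₁, h₁, d₂, h₂, h⟩ := hall n hn
      exact ⟨_, ⟨d₁, h₁, d₂, h₂, rfl⟩, h⟩
  · right
    push Not at hall
    obtain ⟨n, hn, hnE⟩ := hall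
    have hMn : M.Normal := inferInstance
    obtain ⟨m, ⟨d₁, h₁, d₂, h₂, hm⟩, s, hs, hms, r1, r2⟩ := exit hX hS h1 hCov
      (E := {m | ∃ d₁ ∈ D, ∃ d₂ ∈ D, (d₁⁻¹ * d₂)⁻¹ * m ∈ M})
      ⟨1, hD1, 1, hD1, by simp⟩ (by
        rintro m ⟨d₁, h₁, d₂, h₂, hm⟩
        have := N.mul_mem (N.mul_mem (N.inv_mem (hDN _ h₁)) (hDN _ h₂)) (hMN hm)
        rwa [mul_inv_cancel_left] at this) ⟨n, hn, fun ⟨d₁, h₁, d₂, h₂, h⟩ => hnE d₁ h₁ d₂ h₂ h⟩
    obtain ⟨z, hz⟩ : ∃ z, z = d₁⁻¹ * d₂ * s := ⟨_, rfl⟩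
    have hzN : z ∈ N := by
      rw [hz]
      exact N.mul_mem (N.mul_mem (N.inv_mem (hDN _ h₁)) (hDN _ h₂)) hs
    have hzE : ∀ c₁ ∈ D, ∀ c₂ ∈ D, (c₁⁻¹ * c₂)⁻¹ * z ∉ M := by
      intro c₁ hc₁ c₂ hc₂ hmem
      refine hms ⟨c₁, hc₁, c₂, hc₂, ?_⟩
      have h3 := hMn.conj_mem _ hm s⁻¹
      have h4 := M.mul_mem hmem h3
      have e1 : (c₁⁻¹ * c₂)⁻¹ * z * (s⁻¹ * ((d₁⁻¹ * d₂)⁻¹ * m) * s⁻¹⁻¹) =
          (c₁⁻¹ * c₂)⁻¹ * (m * s) := by
        rw [hz]; group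
      rwa [e1] at h4
    have hzc : Re (S ∪ pm Z) (2 * k + 2 * e + 4) {z} := by
      rw [hz]
      exact (prod (prod (hcost d₁ h₁).2 (hcost d₂ h₂).1) (r1.src Set.subset_union_left)).weaken
        (by omega)
    have hzc' : Re (S ∪ pm Z) (2 * k + 2 * e + 4) {z⁻¹} := by
      have e1 : z⁻¹ = s⁻¹ * (d₂⁻¹ * d₁) := by rw [hz]; group
      rw [e1]
      exact (prod (r2.src Set.subset_union_left) (prod (hcost d₂ h₂).2 (hcost d₁ h₁).1)).weaken
        (by omega)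
    have hpm : pm (insert z Z) = pm Z ∪ ({z} ∪ {z⁻¹}) := by
      ext y
      simp only [pm, Set.mem_insert_iff, Set.mem_ofPred_eq, Set.mem_union, Set.mem_singleton_iff]
      constructor
      · rintro ((h | h) | (h | h))
        · exact Or.inr (Or.inl h)
        · exact Or.inl (Or.inl h)
        · exact Or.inr (Or.inr (by rw [← h, inv_inv]))
        · exact Or.inl (Or.inr h)
      · rintro ((h | h) | (h | h))
        · exact Or.inl (Or.inr h)
        · exact Or.inr (Or.inr h)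
        · exact Or.inl (Or.inl h)
        · exact Or.inr (Or.inl (by rw [h, inv_inv]))
    refine ⟨insert z Z, D ∪ (fun d => d * z) '' D, ?_, ?_, Or.inl hD1, ?_, ?_, ?_⟩
    · rintro y (rfl | hy)
      · exact hzN
      · exact hZ hy
    · rw [hpm]
      refine (hRe.trans (two hzc hzc')).weaken ?_
      nlinarith
    · have hsub : closure Z ≤ closure (insert z Z) := closure_mono (Set.subset_insert _ _)
      rintro _ (hd | ⟨d, hd, rfl⟩)
      · exact hsub (hDZ hd)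
      · exact mul_mem (hsub (hDZ hd)) (subset_closure (Set.mem_insert _ _))
    · have hsrc : S ∪ pm Z ⊆ S ∪ pm (insert z Z) := by
        rw [hpm, ← Set.union_assoc]
        exact Set.subset_union_left
      have hz1 : z ∈ S ∪ pm (insert z Z) := by
        rw [hpm]; exact Or.inr (Or.inr (Or.inl rfl))
      have hz2 : z⁻¹ ∈ S ∪ pm (insert z Z) := by
        rw [hpm]; exact Or.inr (Or.inr (Or.inr rfl))
      rintro _ (hd | ⟨d, hd, rfl⟩)
      · exact ⟨((hcost _ hd).1.src hsrc).weaken (by omega),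
          ((hcost _ hd).2.src hsrc).weaken (by omega)⟩
      · refine ⟨mulr ((hcost _ hd).1.src hsrc) hz1, ?_⟩
        show Re _ _ {(d * z)⁻¹}
        rw [mul_inv_rev]
        exact mull ((hcost _ hd).2.src hsrc) hz2
    · have hinj : Function.Injective (fun q : G ⧸ M => q * (z : G ⧸ M)) := mul_left_injective _
      have himg : (fun g : G => (g : G ⧸ M)) '' ((fun d => d * z) '' D) =
          (fun q : G ⧸ M => q * (z : G ⧸ M)) '' ((fun g : G => (g : G ⧸ M)) '' D) := by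
        rw [Set.image_image, Set.image_image]
        rfl
      have hdisj : Disjoint ((fun g : G => (g : G ⧸ M)) '' D)
          ((fun g : G => (g : G ⧸ M)) '' ((fun d => d * z) '' D)) := by
        rw [Set.disjoint_left]
        rintro _ ⟨c, hc, rfl⟩ ⟨_, ⟨c', hc', rfl⟩, h⟩
        have h5 : (c' * z)⁻¹ * c ∈ M := QuotientGroup.eq.1 h
        have h6 := M.inv_mem h5
        apply hzE c' hc' c hc
        have e1 : ((c' * z)⁻¹ * c)⁻¹ = (c'⁻¹ * c)⁻¹ * z := by group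
        rwa [e1] at h6
      rw [Set.image_union, Set.ncard_union_eq hdisj (Set.toFinite _) (Set.toFinite _), himg,
        Set.ncard_image_of_injective _ hinj, pow_succ]
      omega

end DBLx

open DBLx in
theorem pDBL : StDBL := by
  intro G _ _ X S N M _ _ e hX hS h1 hMN hCov
  by_contra hcon
  have hall : ∀ k, Conf S N M e k := by
    intro k
    induction k with
    | zero =>
      refine ⟨∅, {1}, by simp, ?_, rfl, ?_, ?_, ?_⟩
      · refine Re.refl ?_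
        rintro x (hx | hx)
        · exact hx.elim
        · exact hx.elim
      · rintro _ rfl
        exact one_mem _
      · rintro _ rfl
        refine ⟨Re.refl (Set.singleton_subset_iff.2 (Or.inl h1)), ?_⟩
        rw [inv_one]
        exact Re.refl (Set.singleton_subset_iff.2 (Or.inl h1))
      · rw [Set.image_singleton, Set.ncard_singleton, pow_zero]
    | succ k ih =>
      rcases step hX hS h1 hMN hCov ih with h | h
      · exact absurd ⟨k, h⟩ hcon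
      · exact h
  obtain ⟨Z, D, hZ, -, -, hDZ, -, hcard⟩ := hall (M.relIndex N)
  have hDN : ∀ d ∈ D, d ∈ N := fun d hd => (closure_le N).2 hZ (hDZ hd)
  have h2 := hcard.trans (card_le D hDN)
  have h3 : M.relIndex N < 2 ^ (M.relIndex N) := Nat.lt_two_pow_self
  omega

end Pool.Agent.Helper46.RL
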