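import Pool.Agent.Helper46.RL.M_GR
import Pool.Agent.Helper46.RL.St2

set_option autoImplicit false

namespace Pool.Agent.Helper46.RL

open Subgroup
open scoped commutatorElement

namespace GRx

variable {G : Type} [Group G]

theorem mainc [Finite G] (A B : Subgroup G) (S : Set G) (p : G)
    (m₀ c : ℕ) (hAB : A ≤ B) (hab : ⁅B, B⁆ ≤ A) (hp : p ∈ B)
    (hor : ∀ V : Set G, V.Finite → V ⊆ B → p ∈ V → ¬ B ≤ closure V ⊔ A →
      ∃ v ∈ B, v ∉ closure V ⊔ A ∧ Re (S ∪ pm V) c {v, v⁻¹}) :
    ∀ (n : ℕ) (l : List (G × ℕ)), (∀ q ∈ l, q.1 ∈ B ∧ 2 ≤ q.2 ∧ q.2 ∣ Nat.card G) →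
      (∀ g ∈ closure ({p} ∪ lt l) ⊔ A, ∃ i < m₀, ∃ r ∈ A, Fac l g (p ^ i * r)) →
      m₀ * (l.map Prod.snd).prod * Nat.card A = Nat.card (closure ({p} ∪ lt l) ⊔ A : Subgroup G) →
      Re (S ∪ pm {p}) (c * l.length) (pm (lt l)) →
      Nat.card G - Nat.card (closure ({p} ∪ lt l) ⊔ A : Subgroup G) ≤ n →
    ∃ l : List (G × ℕ), (∀ q ∈ l, q.1 ∈ B ∧ 2 ≤ q.2 ∧ q.2 ∣ Nat.card G) ∧
      (∀ g ∈ B, ∃ i < m₀, ∃ r ∈ A, Fac l g (p ^ i * r)) ∧
      m₀ * (l.map Prod.snd).prod = A.relIndex B ∧ B ≤ closure ({p} ∪ lt l) ⊔ A ∧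
      Re (S ∪ pm {p}) (c * l.length) (pm (lt l)) := by
  intro n
  induction n using Nat.strong_induction_on with
  | _ n ih =>
    intro l h1 h2 h3 h4 h5
    have hV : ({p} ∪ lt l : Set G) ⊆ B := by
      rintro x (rfl | ⟨m, hm⟩)
      · exact hp
      · exact (h1 _ hm).1
    have hHB : closure ({p} ∪ lt l) ⊔ A ≤ B := sup_le ((closure_le _).2 hV) hAB
    by_cases hB : B ≤ closure ({p} ∪ lt l) ⊔ A
    · refine ⟨l, h1, fun g hg => h2 g (hB hg), ?_, hB, h4⟩
      have hHeq : closure ({p} ∪ lt l) ⊔ A = B := le_antisymm hHB hB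
      rw [hHeq] at h3
      have h6 : Nat.card A * A.relIndex B = Nat.card B := by
        rw [← Subgroup.relIndex_bot_left A, ← Subgroup.relIndex_bot_left B,
          Subgroup.relIndex_mul_relIndex _ _ _ bot_le hAB]
      rw [← h6, mul_comm (Nat.card A)] at h3
      exact Nat.eq_of_mul_eq_mul_right Nat.card_pos h3
    · obtain ⟨v, hv, hvn, hcost⟩ := hor ({p} ∪ lt l) (Set.toFinite _) hV (Or.inl rfl) hB
      set H := closure ({p} ∪ lt l) ⊔ A with hH
      have hAH : A ≤ H := le_sup_right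
      have hex : ∃ i, 0 < i ∧ v ^ i ∈ H :=
        ⟨orderOf v, orderOf_pos v, by rw [pow_orderOf_eq_one]; exact H.one_mem⟩
      classical
      obtain ⟨m, ⟨hm0, hvm⟩, hmin⟩ : ∃ m, (0 < m ∧ v ^ m ∈ H) ∧ ∀ i, 0 < i → v ^ i ∈ H → m ≤ i :=
        ⟨Nat.find hex, Nat.find_spec hex, fun i hi hvi => Nat.find_min' hex ⟨hi, hvi⟩⟩
      have hm2 : 2 ≤ m := by
        by_contra hcon
        have : m = 1 := by omega
        rw [this, pow_one] at hvm
        exact hvn hvm
      have hH1 : closure ({p} ∪ lt ((v, m) :: l)) ⊔ A = closure {v} ⊔ H := by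
        rw [lt_cons, hH, ← sup_assoc, ← Subgroup.closure_union]
        congr 2
        ext z
        simp only [Set.mem_union, Set.mem_singleton_iff, Set.mem_insert_iff]
        tauto
      have hcard := card_eq hAH hHB hab hv hm0 hvm hmin
      have hpos : 0 < Nat.card H := Nat.card_pos
      have hlt : Nat.card H < Nat.card (closure {v} ⊔ H : Subgroup G) := by
        rw [← hcard]; nlinarith
      have hleG : Nat.card (closure {v} ⊔ H : Subgroup G) ≤ Nat.card G :=
        Subgroup.card_le_card_group _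
      refine ih (Nat.card G - Nat.card (closure {v} ⊔ H : Subgroup G)) (by omega) ((v, m) :: l)
        ?_ ?_ ?_ ?_ ?_
      · intro q hq
        rcases List.mem_cons.1 hq with rfl | hq
        · refine ⟨hv, hm2, ?_⟩
          refine Dvd.dvd.trans ?_ (Subgroup.card_subgroup_dvd_card (closure {v} ⊔ H))
          exact ⟨Nat.card H, hcard.symm⟩
        · exact h1 q hq
      · intro g hg
        rw [hH1] at hg
        obtain ⟨j, hj, h, hh, rfl⟩ := exists_pow hAH hHB hab hv hm0 hvm hg
        obtain ⟨i, hi, r, hr, hf⟩ := h2 h hh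
        refine ⟨i, hi, r, hr, j, hj, ?_⟩
        show Fac l ((v ^ j)⁻¹ * (v ^ j * h)) (p ^ i * r)
        rw [inv_mul_cancel_left]
        exact hf
      · rw [hH1, ← hcard, ← h3, List.map_cons, List.prod_cons]
        ring
      · have h6 : Re (S ∪ pm {p}) (c * l.length + c) (pm (lt l) ∪ {v, v⁻¹}) := by
          refine h4.trans (hcost.src ?_)
          rintro x (hx | hx | hx)
          · exact Or.inl (Or.inl hx)
          · rcases hx with hx | hx
            · exact Or.inl (Or.inr (Or.inl hx))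
            · exact Or.inr (Or.inl hx)
          · rcases hx with hx | hx
            · exact Or.inl (Or.inr (Or.inr hx))
            · exact Or.inr (Or.inr hx)
        refine h6.mono le_rfl (by rw [List.length_cons, Nat.mul_succ]) ?_
        rw [lt_cons]
        rintro x (hx | hx)
        · rcases hx with rfl | hx
          · exact Or.inr (Or.inl rfl)
          · exact Or.inl (Or.inl hx)
        · rcases hx with hx | hx
          · right; right
            rw [← hx, inv_inv]; rfl
          · exact Or.inl (Or.inr hx)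
      · rw [hH1]

end GRx

theorem pGRc : StGRc := by
  intro G _ _ A B S c hAB hab h1S hor
  have hlt : lt ([] : List (G × ℕ)) = ∅ := by
    ext z; simp [lt]
  have hcl : ∀ V : Set G, closure ({1} ∪ V) = closure V := by
    intro V
    apply le_antisymm
    · rw [closure_le]
      rintro x (rfl | hx)
      · exact one_mem _
      · exact subset_closure hx
    · exact closure_mono Set.subset_union_right
  have hH : closure ({1} ∪ lt ([] : List (G × ℕ))) ⊔ A = A := by
    rw [hlt, Set.union_empty, closure_singleton_one, bot_sup_eq]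
  have hpm : S ∪ pm {1} = S := by
    apply Set.union_eq_self_of_subset_right
    rintro x (hx | hx)
    · rw [hx]; exact h1S
    · have : x = 1 := inv_eq_one.1 hx
      rw [this]; exact h1S
  have g1 : ∀ g ∈ closure ({1} ∪ lt ([] : List (G × ℕ))) ⊔ A, ∃ i < 1, ∃ r ∈ A,
      Fac [] g ((1 : G) ^ i * r) := by
    intro g hg
    rw [hH] at hg
    refine ⟨0, by norm_num, g, hg, ?_⟩
    rw [pow_zero, one_mul]
    rfl
  have g2 : 1 * (([] : List (G × ℕ)).map Prod.snd).prod * Nat.card A =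
      Nat.card (closure ({1} ∪ lt ([] : List (G × ℕ))) ⊔ A : Subgroup G) := by
    rw [hH]; simp
  have g3 : Re (S ∪ pm {1}) (c * ([] : List (G × ℕ)).length) (pm (lt ([] : List (G × ℕ)))) := by
    refine Re.refl ?_
    rw [hlt]
    rintro x (hx | hx)
    · exact hx.elim
    · exact hx.elim
  obtain ⟨l, h1, h2, h3, h4, h5⟩ := GRx.mainc A B S 1 1 c hAB hab B.one_mem
    (fun V hf hV _ hVB => hor V hf hV hVB) _ [] (by simp) g1 g2 g3 le_rfl
  refine ⟨l, fun q hq => ⟨(h1 q hq).1, (h1 q hq).2.1⟩, ?_, ?_, ?_, ?_⟩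
  · intro g hg
    obtain ⟨i, hi, r, hr, hf⟩ := h2 g hg
    refine ⟨r, hr, ?_⟩
    rwa [one_pow, one_mul] at hf
  · rwa [one_mul] at h3
  · rwa [hcl] at h4
  · rwa [hpm] at h5

end Pool.Agent.Helper46.RL
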