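import Pool.Agent.Helper46.RL.M_BS
import Pool.Agent.Helper46.RL.St2

set_option autoImplicit false

namespace Pool.Agent.Helper46.RL

open Subgroup
open scoped commutatorElement

namespace INV2x

theorem len_le_log (ks : List ℕ) (h : ∀ k ∈ ks, 2 ≤ k) :
    (ks.length : ℝ) ≤ Real.logb 2 (ks.prod : ℕ) := by
  have h1 : 2 ^ ks.length ≤ ks.prod := by
    induction ks with
    | nil => simp
    | cons k ks ih =>
      rw [List.length_cons, List.prod_cons, pow_succ, mul_comm]
      exact Nat.mul_le_mul (h k (by simp)) (ih fun j hj => h j (List.mem_cons_of_mem _ hj))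
  have h2 : (0 : ℝ) < (ks.prod : ℕ) := by
    have : 0 < ks.prod := lt_of_lt_of_le (by positivity) h1
    exact_mod_cast this
  rw [Real.le_logb_iff_rpow_le (by norm_num) h2, Real.rpow_natCast]
  exact_mod_cast h1

end INV2x

open BSx INV2x in
theorem pINV2 (hI : StIRR) (hV : StINV) (hE : StEA) : StINV2 := by
  intro G _ _ _ X hX
  obtain ⟨xs, ks, h1, h2, h3, h4, h5⟩ := hI G X hX
  have hne : xs ≠ [] := by
    rintro rfl
    have h6 : ks = [] := List.length_eq_zero_iff.1 (by simpa using h3)
    rw [h6, List.prod_nil] at h5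
    exact absurd h5.symm Finite.one_lt_card.ne'
  obtain ⟨Q, hP, hQ, hall⟩ := hV G xs hne
  have hL : (ks.length : ℝ) ≤ Real.logb 2 (Nat.card G) := by
    have := len_le_log ks fun k hk => (h4 k hk).1
    rwa [h5] at this
  have hsub : {x | x ∈ xs} ⊆ X := h1
  obtain ⟨x₀, hx₀⟩ : ∃ x, x ∈ xs := List.exists_mem_of_ne_nil xs hne
  -- the inverse of the product
  obtain ⟨c, hc, hr⟩ : ∃ c : ℕ, (c : ℝ) ≤ 4 * Real.logb 2 (Nat.card G) + 1 ∧
      Re {xs.prod} c {xs.prod⁻¹} := by
    have hpos := orderOf_pos xs.prod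
    rcases Nat.lt_or_ge (orderOf xs.prod) 2 with h | h
    · have h6 : xs.prod = 1 := by
        have : orderOf xs.prod = 1 := by omega
        exact orderOf_eq_one_iff.1 this
      refine ⟨0, ?_, Re.refl (by rw [h6, inv_one])⟩
      have : 0 ≤ Real.logb 2 (Nat.card G) := by
        have h7 : (0 : ℝ) ≤ ks.length := Nat.cast_nonneg _
        linarith
      push_cast
      linarith
    · refine ⟨EA (orderOf xs.prod), ?_, ?_⟩
      · unfold EA
        have h7 : (Nat.log 2 (orderOf xs.prod - 1) : ℝ) ≤ Real.logb 2 (Nat.card G) := by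
          have h8 : 2 ^ Nat.log 2 (orderOf xs.prod - 1) ≤ orderOf xs.prod - 1 :=
            Nat.pow_log_le_self 2 (by omega)
          have h9 : orderOf xs.prod ≤ Nat.card G := Nat.le_of_dvd Nat.card_pos (orderOf_dvd_natCard _)
          have h10 : (0 : ℝ) < (Nat.card G : ℕ) := by exact_mod_cast Nat.card_pos
          rw [Real.le_logb_iff_rpow_le (by norm_num) h10, Real.rpow_natCast]
          have h11 : 2 ^ Nat.log 2 (orderOf xs.prod - 1) ≤ Nat.card G := by omega
          exact_mod_cast h11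
        push_cast
        linarith
      · have h8 := hE G xs.prod (orderOf xs.prod) 0 h hpos
        rw [BSx.inv_pow xs.prod]
        exact h8.sub (by rintro _ rfl; exact Or.inl (Or.inl rfl))
  refine ⟨{x | x ∈ xs}, (xs.length - 1) + c + 2 * (xs.length - 1) + 1, h2, ?_, ?_⟩
  · have h6 : 1 ≤ xs.length := List.length_pos_iff.2 hne
    rw [h3] at hL
    have h7 : ((xs.length - 1 : ℕ) : ℝ) ≤ Real.logb 2 (Nat.card G) - 1 := by
      rw [Nat.cast_sub (by omega)]
      push_cast
      linarith
    push_cast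
    linarith
  · have s1 : Re X (xs.length - 1) Q := hQ.src hsub
    have s2 : Re (X ∪ Q) c {xs.prod⁻¹} := hr.src (by
      rintro _ rfl
      exact Or.inr hP)
    have s3 := s1.trans s2
    have s4 : Re (X ∪ (Q ∪ {xs.prod⁻¹})) (2 * (xs.length - 1)) {x | x⁻¹ ∈ xs} := hall.src (by
      rintro y ((hy | hy) | hy)
      · exact Or.inl (hsub hy)
      · exact Or.inr (Or.inl hy)
      · exact Or.inr (Or.inr hy))
    have s5 := s3.trans s4
    have s6 := s5.step (a := x₀) (b := x₀⁻¹) (Or.inl (h1 _ hx₀)) (Or.inr (Or.inr (by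
      show (x₀⁻¹)⁻¹ ∈ xs
      rwa [inv_inv])))
    refine s6.self_union.mono le_rfl le_rfl ?_
    rintro y ((hy | hy) | hy)
    · exact Or.inl (hsub hy)
    · exact Or.inr (Or.inr (Or.inr hy))
    · refine Or.inr (Or.inl ?_)
      have : y = 1 := hy
      rw [this, mul_inv_cancel]

end Pool.Agent.Helper46.RL
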