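import Pool.Agent.Helper46.RL.M_BS
import Pool.Agent.Helper46.RL.St2

set_option autoImplicit false

namespace Pool.Agent.Helper46.RL

open Subgroup
open scoped commutatorElement

open BSx in
theorem pNA (hD : StDBL) (hR : StREL) : StNA := by
  intro G _ _ X S₀ N M _ _ a e r hX hS h1 hMN hNN hst
  obtain ⟨S, hRe, hSS, hCov, -⟩ := hst
  obtain ⟨t, Z, D, ht, hZN, hZ, h1D, hDZ, hcost, hcov⟩ :=
    hD G X S N M e hX (hS.trans hSS) (hSS h1) hMN hCov
  refine ⟨t, ht, S ∪ pm Z, hRe.trans (hZ.src Set.subset_union_right),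
    hSS.trans Set.subset_union_left, ?_, ?_⟩
  · intro g
    obtain ⟨c, hc, hc1, hc2⟩ := hCov g
    obtain ⟨d, hd, hm⟩ := hcov _ hc
    refine ⟨c * d, ?_, ?_, ?_⟩
    · have e1 : (c * d)⁻¹ * g = d⁻¹ * (c⁻¹ * g) := by group
      rw [e1]; exact hm
    · exact (prod (hc1.src Set.subset_union_left) (hcost d hd).1).weaken (by omega)
    · rw [mul_inv_rev]
      exact (prod (hcost d hd).2 (hc2.src Set.subset_union_left)).weaken (by omega)
  · exact hR G X (S ∪ pm Z) N M t Z D hX ((hS.trans hSS).trans Set.subset_union_left)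
      Set.subset_union_right (Or.inl (hSS h1)) hMN hNN hZN h1D hDZ hcost hcov

end Pool.Agent.Helper46.RL
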