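import Pool.Agent.Helper46.RL.M_BS
import Pool.Agent.Helper46.RL.M_EXT
import Pool.Agent.Helper46.RL.St2

set_option autoImplicit false

namespace Pool.Agent.Helper46.RL

open Subgroup
open scoped commutatorElement

namespace RELx

/-- a set containing `1` and closed under right multiplication by `Z` contains `closure Z` -/
theorem closed' {G : Type} [Group G] [Finite G] {Z E : Set G} (h1 : 1 ∈ E)
    (hE : ∀ y ∈ E, ∀ x ∈ Z, y * x ∈ E) : ∀ g ∈ closure Z, g ∈ E := by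
  intro g hg
  have hpow : ∀ y ∈ E, ∀ x ∈ Z, ∀ k : ℕ, y * x ^ k ∈ E := by
    intro y hy x hx k
    induction k with
    | zero => simpa using hy
    | succ k ih => rw [pow_succ, ← mul_assoc]; exact hE _ ih x hx
  induction hg using Subgroup.closure_induction_right with
  | one => exact h1
  | mul_right y _ x hx ih => exact hE _ ih x hx
  | mul_inv_cancel y _ x hx ih =>
    rw [BSx.inv_pow x]
    exact hpow _ ih x hx _

end RELx

open RELx BSx KLx EXTx in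
theorem pREL : StREL := by
  intro G _ _ X S N M hNn hMn t Z D hX hXS hZS h1S hMN hNN hZN h1D hDZ hcost hcov
  intro H hHn hMH hHM hne
  by_contra hno
  push Not at hno
  have hDN : ∀ d ∈ D, d ∈ N := fun d hd => (closure_le N).2 hZN (hDZ hd)
  have rel1 : ∀ d ∈ D, ∀ z ∈ Z, ∀ d' ∈ D, d * z * d'⁻¹ ∈ M → d * z * d'⁻¹ ∈ H := by
    intro d hd z hz d' hd' hm
    by_contra hn
    have hz1 : z ∈ S := hZS (Or.inl hz)
    have hz2 : z⁻¹ ∈ S := hZS (Or.inr (by simpa using hz))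
    refine hno _ hm hn ?_
    have r1 := prod (mulr (hcost d hd).1 hz1) (hcost d' hd').2
    have r2 := prod (mulr (hcost d' hd').1 hz2) (hcost d hd).2
    have e1 : (d * z * d'⁻¹)⁻¹ = d' * z⁻¹ * d⁻¹ := by group
    rw [e1]
    exact (two r1 r2).mono le_rfl (by omega) (by rintro y (hy | hy); exacts [Or.inl hy, Or.inr hy])
  have rel2 : ∀ z ∈ Z, ∀ x ∈ X, ∀ d ∈ D, x⁻¹ * z * x * d⁻¹ ∈ M → x⁻¹ * z * x * d⁻¹ ∈ H := by
    intro z hz x hx d hd hm
    by_contra hn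
    have hz1 : z ∈ S := hZS (Or.inl hz)
    have hz2 : z⁻¹ ∈ S := hZS (Or.inr (by simpa using hz))
    have hx1 : x ∈ S := hXS (Or.inl hx)
    have hx2 : x⁻¹ ∈ S := hXS (Or.inr (by simpa using hx))
    refine hno _ hm hn ?_
    have r1 := prod (re_conj hx1 hx2 hz1) (hcost d hd).2
    have r2 := prod (hcost d hd).1 (re_conj hx1 hx2 hz2)
    have e1 : (x⁻¹ * z * x * d⁻¹)⁻¹ = d * (x⁻¹ * z⁻¹ * x) := by group
    rw [e1]
    exact (two r1 r2).mono le_rfl (by omega) (by rintro y (hy | hy); exacts [Or.inl hy, Or.inr hy])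
  -- the set `D * H`
  have hDH : ∀ y ∈ closure Z, ∃ d ∈ D, ∃ h ∈ H, y = d * h := by
    refine closed' (E := {y | ∃ d ∈ D, ∃ h ∈ H, y = d * h}) ⟨1, h1D, 1, H.one_mem, by simp⟩ ?_
    rintro _ ⟨d, hd, h, hh, rfl⟩ z hz
    obtain ⟨d', hd', hm⟩ := hcov (d * z) (N.mul_mem (hDN d hd) (hZN hz))
    have h2 : d * z * d'⁻¹ ∈ M := by
      have := hMn.conj_mem _ hm d'
      have e1 : d' * (d'⁻¹ * (d * z)) * d'⁻¹ = d * z * d'⁻¹ := by group
      rwa [e1] at this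
    have h3 := hHn.conj_mem _ (rel1 d hd z hz d' hd' h2) d'⁻¹
    have h4 := hHn.conj_mem _ hh z⁻¹
    refine ⟨d', hd', _, H.mul_mem h3 h4, ?_⟩
    group
  have hY : ∀ y ∈ closure Z ⊔ H, ∃ d ∈ D, ∃ h ∈ H, y = d * h := by
    intro y hy
    obtain ⟨c, hc, h, hh, rfl⟩ := Subgroup.mem_sup_of_normal_right.1 hy
    obtain ⟨d, hd, h', hh', rfl⟩ := hDH c hc
    exact ⟨d, hd, h' * h, H.mul_mem hh' hh, mul_assoc _ _ _⟩
  have hYn : (closure Z ⊔ H : Subgroup G).Normal := by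
    refine normal_of_gen' hX Z _ ?_
    intro x hx z hz
    have hc : x⁻¹ * z * x ∈ N := by
      have := hNn.conj_mem z (hZN hz) x⁻¹
      simpa using this
    obtain ⟨d, hd, hm⟩ := hcov _ hc
    have h2 : x⁻¹ * z * x * d⁻¹ ∈ M := by
      have := hMn.conj_mem _ hm d
      have e1 : d * (d⁻¹ * (x⁻¹ * z * x)) * d⁻¹ = x⁻¹ * z * x * d⁻¹ := by group
      rwa [e1] at this
    have h3 := mul_mem (mem_sup_right (rel2 z hz x hx d hd h2) : _ ∈ closure Z ⊔ H)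
      (mem_sup_left (hDZ hd))
    rwa [inv_mul_cancel_right] at h3
  have hNY : N ≤ closure Z ⊔ H := by
    rw [← hNN, Subgroup.commutator_le]
    intro g₁ hg₁ g₂ hg₂
    obtain ⟨d₁, hd₁, hm₁⟩ := hcov g₁ hg₁
    obtain ⟨d₂, hd₂, hm₂⟩ := hcov g₂ hg₂
    have key : ∀ (g d : G), d ∈ D →
        ((g : G) : G ⧸ (closure Z ⊔ H)) = ((d⁻¹ * g : G) : G ⧸ (closure Z ⊔ H)) := by
      intro g d hd
      have h1 : ((d : G) : G ⧸ (closure Z ⊔ H)) = 1 :=
        (QuotientGroup.eq_one_iff d).2 (mem_sup_left (hDZ hd))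
      rw [QuotientGroup.mk_mul, QuotientGroup.mk_inv, h1, inv_one, one_mul]
    have h5 : ⁅d₁⁻¹ * g₁, d₂⁻¹ * g₂⁆ ∈ closure Z ⊔ H :=
      mem_sup_right (hMH (commutator_mem_commutator hm₁ hm₂))
    rw [← QuotientGroup.eq_one_iff] at h5 ⊢
    rw [commutatorElement_def] at h5 ⊢
    rw [QuotientGroup.mk_mul, QuotientGroup.mk_mul, QuotientGroup.mk_mul, QuotientGroup.mk_inv,
      QuotientGroup.mk_inv] at h5 ⊢
    rw [key g₁ d₁ hd₁, key g₂ d₂ hd₂]
    exact h5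
  apply hne
  intro m hm
  obtain ⟨d, hd, h, hh, he⟩ := hY m (hNY (hMN hm))
  have hdM : d ∈ M := by
    have h1 := M.mul_mem hm (M.inv_mem (hHM hh))
    rwa [he, mul_inv_cancel_right] at h1
  suffices hdH : d ∈ H by rw [he]; exact H.mul_mem hdH hh
  rcases Z.eq_empty_or_nonempty with hZ | ⟨z, hz⟩
  · have h1 := hDZ hd
    rw [hZ, Subgroup.closure_empty] at h1
    have h2 : d = 1 := h1
    rw [h2]; exact H.one_mem
  · obtain ⟨d'', hd'', hμ⟩ := hcov (d * z⁻¹) (N.mul_mem (hDN d hd) (N.inv_mem (hZN hz)))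
    have h1 : z⁻¹ * (d''⁻¹ * (d * z⁻¹))⁻¹ * z⁻¹⁻¹ ∈ M :=
      hMn.conj_mem _ (M.inv_mem hμ) z⁻¹
    have h2 : d'' * z ∈ M := by
      have := M.mul_mem hdM h1
      have e1 : d * (z⁻¹ * (d''⁻¹ * (d * z⁻¹))⁻¹ * z⁻¹⁻¹) = d'' * z := by group
      rwa [e1] at this
    have h3 : d'' * z * d⁻¹ ∈ M := M.mul_mem h2 (M.inv_mem hdM)
    have h4 := rel1 d'' hd'' z hz d hd h3
    have h5 := rel1 d'' hd'' z hz 1 h1D (by rwa [inv_one, mul_one])
    rw [inv_one, mul_one] at h5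
    have h6 := H.mul_mem (H.inv_mem h4) h5
    have e2 : (d'' * z * d⁻¹)⁻¹ * (d'' * z) = d := by group
    rwa [e2] at h6

end Pool.Agent.Helper46.RL
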