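import Pool.Agent.Helper46.RL.All
import Pool.Agent.Helper46.RL.M_GRc
import Pool.Agent.Helper46.RL.M_AB
import Pool.Agent.Helper46.RL.M_DBL
import Pool.Agent.Helper46.RL.M_REL
import Pool.Agent.Helper46.RL.M_NA
import Pool.Agent.Helper46.RL.M_INV2
import Pool.Agent.Helper46.RL.M_ALL

/-!
# RL (MP_d72c68_al): assembly of the bound for all finite groups
-/

set_option autoImplicit false

namespace Pool.Agent.Helper46.RL

theorem all_finite : StALL :=
  pALL (pAB pGRc pKL pPOW pEA) (pNA pDBL pREL) (pINV2 pIRR pINV pEA)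

end Pool.Agent.Helper46.RL
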