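import Mathlib

/-!
# RL (MP_d72c68_al): computing elements of a finite group with few multiplications

`Av S n T`: the set `T` consists of `S` and of the results of `n` multiplications.
`Re S n T`: all elements of `T` are computed from `S` with at most `n` multiplications.
-/

set_option autoImplicit false

universe u v

namespace Pool.Agent.Helper46.RL

/-- `T` consists of `S` and of the results of `n` multiplications. -/
inductive Av {M : Type u} [Mul M] (S : Set M) : ℕ → Set M → Prop
  | base : Av S 0 S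
  | step {n : ℕ} {T : Set M} {a b : M} :
      Av S n T → a ∈ T → b ∈ T → Av S (n + 1) (insert (a * b) T)

/-- All elements of `T` can be computed from `S` with at most `n` multiplications. -/
def Re {M : Type u} [Mul M] (S : Set M) (n : ℕ) (T : Set M) : Prop :=
  ∃ k ≤ n, ∃ T', Av S k T' ∧ T ⊆ T'

section mul

variable {M : Type u} [Mul M] {S S' T T' U : Set M} {n m k : ℕ} {a b : M}

theorem Av.subset (h : Av S n T) : S ⊆ T := by
  induction h with
  | base => exact le_rfl
  | step _ _ _ ih => exact ih.trans (Set.subset_insert _ _)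

theorem Av.union (h : Av S n T) (V : Set M) : Av (S ∪ V) n (T ∪ V) := by
  induction h with
  | base => exact Av.base
  | step _ ha hb ih =>
    rw [Set.insert_union]
    exact Av.step ih (Or.inl ha) (Or.inl hb)

theorem Av.trans (h : Av S n T) (h' : Av T m U) : Av S (n + m) U := by
  induction h' with
  | base => exact h
  | step _ ha hb ih => exact Av.step ih ha hb

theorem Re.refl (h : T ⊆ S) : Re S n T := ⟨0, Nat.zero_le _, S, Av.base, h⟩

theorem Re.mono (h : Re S n T) (hS : S ⊆ S') (hn : n ≤ m) (hT : U ⊆ T) : Re S' m U := by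
  obtain ⟨k, hk, T', h', hT'⟩ := h
  refine ⟨k, hk.trans hn, T' ∪ S', ?_, hT.trans (hT'.trans Set.subset_union_left)⟩
  have := h'.union S'
  rwa [Set.union_eq_self_of_subset_left hS] at this

theorem Re.weaken (h : Re S n T) (hn : n ≤ m) : Re S m T := h.mono le_rfl hn le_rfl

theorem Re.sub (h : Re S n T) (hT : U ⊆ T) : Re S n U := h.mono le_rfl le_rfl hT

theorem Re.src (h : Re S n T) (hS : S ⊆ S') : Re S' n T := h.mono hS le_rfl le_rfl

/-- Composition: after `T` has been computed, it may be used. -/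
theorem Re.trans (h : Re S n T) (h' : Re (S ∪ T) m U) : Re S (n + m) (T ∪ U) := by
  obtain ⟨k, hk, T', h1, hT'⟩ := h
  obtain ⟨l, hl, U', h2, hU'⟩ := h'
  have hST : S ∪ T ⊆ T' := Set.union_subset h1.subset hT'
  have h3 := h2.union T'
  rw [Set.union_eq_self_of_subset_left hST] at h3
  refine ⟨k + l, by omega, U' ∪ T', h1.trans h3, ?_⟩
  exact Set.union_subset (hT'.trans Set.subset_union_right) (hU'.trans Set.subset_union_left)

theorem Re.mul (ha : a ∈ S) (hb : b ∈ S) : Re S 1 {a * b} :=
  ⟨1, le_rfl, _, Av.step Av.base ha hb, by simp⟩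

/-- One more multiplication. -/
theorem Re.step (h : Re S n T) (ha : a ∈ S ∪ T) (hb : b ∈ S ∪ T) :
    Re S (n + 1) (insert (a * b) T) := by
  have := h.trans (Re.mul ha hb)
  rwa [Set.union_singleton] at this

theorem Re.self_union (h : Re S n T) : Re S n (S ∪ T) := by
  obtain ⟨k, hk, T', h1, hT'⟩ := h
  exact ⟨k, hk, T', h1, Set.union_subset h1.subset hT'⟩

end mul

theorem Av.map {M : Type u} {N : Type v} [Mul M] [Mul N] (f : M →ₙ* N) {S T : Set M} {n : ℕ}
    (h : Av S n T) : Av (f '' S) n (f '' T) := by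
  induction h with
  | base => exact Av.base
  | step _ ha hb ih =>
    rw [Set.image_insert_eq, map_mul]
    exact Av.step ih (Set.mem_image_of_mem _ ha) (Set.mem_image_of_mem _ hb)

theorem Re.map {M : Type u} {N : Type v} [Mul M] [Mul N] (f : M →ₙ* N) {S T : Set M} {n : ℕ}
    (h : Re S n T) : Re (f '' S) n (f '' T) := by
  obtain ⟨k, hk, T', h', hT'⟩ := h
  exact ⟨k, hk, f '' T', h'.map f, Set.image_mono hT'⟩

/-- The chains of the problem. -/
def Obt {G : Type u} [Mul G] (X : Set G) (g : G) (k : ℕ) : Prop :=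
  ∃ y : Fin k → G,
    (∀ i : Fin k, ∃ a b : G,
        (a ∈ X ∨ ∃ j : Fin k, j < i ∧ y j = a) ∧
        (b ∈ X ∨ ∃ j : Fin k, j < i ∧ y j = b) ∧
        y i = a * b) ∧
    (g ∈ X ∨ ∃ i : Fin k, y i = g)

theorem Av.obt {G : Type u} [Mul G] {X T : Set G} {n : ℕ} (h : Av X n T) :
    ∃ y : Fin n → G,
      (∀ i : Fin n, ∃ a b : G,
        (a ∈ X ∨ ∃ j : Fin n, j < i ∧ y j = a) ∧
        (b ∈ X ∨ ∃ j : Fin n, j < i ∧ y j = b) ∧
        y i = a * b) ∧ T = X ∪ Set.range y := by
  induction h with
  | base => exact ⟨Fin.elim0, fun i => i.elim0, by simp⟩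
  | @step n T a b _ ha hb ih =>
    obtain ⟨y, hy, hT⟩ := ih
    have key : ∀ c ∈ T, c ∈ X ∨ ∃ j : Fin (n + 1), j < Fin.last n ∧
        (Fin.snoc y (a * b) : Fin (n + 1) → G) j = c := by
      intro c hc
      rw [hT] at hc
      rcases hc with hc | ⟨j, rfl⟩
      · exact Or.inl hc
      · exact Or.inr ⟨j.castSucc, Fin.castSucc_lt_last j, by simp⟩
    refine ⟨Fin.snoc y (a * b), fun i => ?_, ?_⟩
    · refine Fin.lastCases ?_ (fun i => ?_) i
      · exact ⟨a, b, key a ha, key b hb, by simp⟩
      · obtain ⟨c, d, hc, hd, hcd⟩ := hy i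
        refine ⟨c, d, ?_, ?_, by simpa using hcd⟩
        · rcases hc with hc | ⟨j, hj, rfl⟩
          · exact Or.inl hc
          · exact Or.inr ⟨j.castSucc, by simpa using hj, by simp⟩
        · rcases hd with hd | ⟨j, hj, rfl⟩
          · exact Or.inl hd
          · exact Or.inr ⟨j.castSucc, by simpa using hj, by simp⟩
    · rw [hT]
      ext c
      simp only [Set.mem_insert_iff, Set.mem_union, Set.mem_range]
      constructor
      · rintro (rfl | hc | ⟨j, rfl⟩)
        · exact Or.inr ⟨Fin.last n, by simp⟩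
        · exact Or.inl hc
        · exact Or.inr ⟨j.castSucc, by simp⟩
      · rintro (hc | ⟨j, rfl⟩)
        · exact Or.inr (Or.inl hc)
        · refine Fin.lastCases ?_ (fun i => ?_) j
          · left; simp
          · right; right; exact ⟨i, by simp⟩

theorem Re.obt {G : Type u} [Mul G] {X : Set G} {n : ℕ} {g : G} (h : Re X n {g}) :
    ∃ k ≤ n, Obt X g k := by
  obtain ⟨k, hk, T, hT, hg⟩ := h
  obtain ⟨y, hy, hTy⟩ := hT.obt
  refine ⟨k, hk, y, hy, ?_⟩
  have : g ∈ T := hg rfl
  rw [hTy] at this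
  exact this

end Pool.Agent.Helper46.RL
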