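import Pool.Agent.Helper46.RL.St

/-! Project RL (MP_d72c68_al), module FINB -/

set_option autoImplicit false

namespace Pool.Agent.Helper46.RL

open Subgroup
open scoped commutatorElement

namespace FINBx

/-- sums over a list of factors -/
theorem sum_le {c d : ℝ} {f : ℕ → ℕ} : ∀ l : List ℕ,
    (∀ k ∈ l, 2 ≤ k ∧ (f k : ℝ) ≤ c * Real.logb 2 k + d) →
    (((l.map f).sum : ℕ) : ℝ) ≤ c * Real.logb 2 (l.prod : ℕ) + d * l.length := by
  intro l
  induction l with
  | nil => intro _; simp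
  | cons k l ih =>
    intro h
    have h1 := ih fun j hj => h j (List.mem_cons_of_mem _ hj)
    obtain ⟨h2, h3⟩ := h k List.mem_cons_self
    have h4 : (l.prod : ℝ) ≠ 0 := by
      have : l.prod ≠ 0 := by
        intro h0
        rw [List.prod_eq_zero_iff] at h0
        have := (h 0 (List.mem_cons_of_mem _ h0)).1
        omega
      exact_mod_cast this
    have h5 : (k : ℝ) ≠ 0 := by
      have : k ≠ 0 := by omega
      exact_mod_cast this
    rw [List.map_cons, List.sum_cons, List.prod_cons, List.length_cons, Nat.cast_add, Nat.cast_mul,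
      Nat.cast_add, Nat.cast_one, Real.logb_mul h5 h4]
    linarith

theorem len_le {a : ℝ} (ha : 0 < a) : ∀ l : List ℕ, (∀ k ∈ l, 2 ≤ k ∧ a ≤ Real.logb 2 k) →
    (l.length : ℝ) ≤ Real.logb 2 (l.prod : ℕ) / a := by
  intro l h
  rw [le_div_iff₀ ha]
  revert h
  induction l with
  | nil => intro _; simp
  | cons k l ih =>
    intro h
    have h1 := ih fun j hj => h j (List.mem_cons_of_mem _ hj)
    obtain ⟨h2, h3⟩ := h k List.mem_cons_self
    have h4 : (l.prod : ℝ) ≠ 0 := by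
      have : l.prod ≠ 0 := by
        intro h0
        rw [List.prod_eq_zero_iff] at h0
        have := (h 0 (List.mem_cons_of_mem _ h0)).1
        omega
      exact_mod_cast this
    have h5 : (k : ℝ) ≠ 0 := by
      have : k ≠ 0 := by omega
      exact_mod_cast this
    rw [List.prod_cons, List.length_cons, Nat.cast_mul, Nat.cast_add, Nat.cast_one,
      Real.logb_mul h5 h4]
    linarith

theorem EB_le {w k : ℕ} (hw : 1 ≤ w) (hk : 2 ≤ k) :
    ((EB w k + 11 : ℕ) : ℝ) ≤ (1 + 2 / w) * Real.logb 2 k + (2 ^ (w + 1) + 8) := by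
  unfold EB
  set k₀ := Nat.log (2 ^ w) k with hk₀
  have hw0 : (0 : ℝ) < w := by exact_mod_cast hw
  have h1 : (w : ℝ) * k₀ ≤ Real.logb 2 k := by
    have h3 : (2 ^ w) ^ k₀ ≤ k := Nat.pow_log_le_self (2 ^ w) (by omega)
    rw [← pow_mul] at h3
    rw [Real.le_logb_iff_rpow_le (by norm_num) (by positivity)]
    have e : (w : ℝ) * k₀ = ((w * k₀ : ℕ) : ℝ) := by push_cast; ring
    rw [e, Real.rpow_natCast]
    exact_mod_cast h3
  have h2 : (2 : ℝ) * k₀ ≤ 2 / w * Real.logb 2 k := by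
    rw [div_mul_eq_mul_div, le_div_iff₀ hw0]
    linarith
  have h4 : 2 ≤ 2 ^ w := by
    calc 2 = 2 ^ 1 := by norm_num
      _ ≤ 2 ^ w := Nat.pow_le_pow_right (by norm_num) hw
  have h5 : ((2 ^ w - 2 : ℕ) : ℝ) = 2 ^ w - 2 := by
    rw [Nat.cast_sub h4]
    push_cast
    ring
  push_cast
  rw [h5, pow_succ]
  linarith

end FINBx

open FINBx in
theorem pFINB (h : StASM) (hE : StEB) : StFINB := by
  intro G _ _ _ _ X w p hw hp hpr hX g
  obtain ⟨ms, ks, h1, h2, h3, h4, h5⟩ := h (EB w) (hE w hw) G X hX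
  obtain ⟨k, hk, hk2⟩ := (h5 g).obt
  refine ⟨k, ?_, hk2⟩
  have hp0 : (0 : ℝ) < p := by
    have : 0 < p := by omega
    exact_mod_cast this
  have ha : 0 < Real.logb 2 p := by
    apply Real.logb_pos (by norm_num)
    have : 1 < p := by omega
    exact_mod_cast this
  have hge : ∀ k : ℕ, 2 ≤ k → k ∣ Nat.card G → Real.logb 2 p ≤ Real.logb 2 k := by
    intro k hk hkG
    apply Real.logb_le_logb_of_le (by norm_num) hp0
    have h6 : k.minFac.Prime := Nat.minFac_prime (by omega)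
    have h7 := hpr _ h6 ((Nat.minFac_dvd k).trans hkG)
    have h8 := Nat.minFac_le (by omega : 0 < k)
    exact_mod_cast h7.trans h8
  have a1 := sum_le (c := 1 + 2 / w) (d := 2 ^ (w + 1) + 8) (f := fun k => EB w k + 11) ms
    fun k hk => ⟨(h1 k hk).1, EB_le hw (h1 k hk).1⟩
  have a2 := len_le ha ks fun k hk => ⟨(h3 k hk).1, hge k (h3 k hk).1 (h3 k hk).2⟩
  have a4 := len_le ha ms fun k hk => ⟨(h1 k hk).1, hge k (h1 k hk).1 (h1 k hk).2⟩
  rw [h2] at a1 a4
  rw [h4] at a2
  have a3 : (k : ℝ) ≤ (((ms.map fun k => EB w k + 11).sum + 3 * ks.length : ℕ) : ℝ) := by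
    exact_mod_cast hk
  rw [Nat.cast_add, Nat.cast_mul, Nat.cast_ofNat] at a3
  have a5 : (2 ^ (w + 1) + 8 : ℝ) * ms.length ≤
      (2 ^ (w + 1) + 8) * (Real.logb 2 (Nat.card G) / Real.logb 2 p) :=
    mul_le_mul_of_nonneg_left a4 (by positivity)
  have e : (1 + 2 / w + (2 ^ (w + 1) + 11) / Real.logb 2 p) * Real.logb 2 (Nat.card G) =
      (1 + 2 / w) * Real.logb 2 (Nat.card G) +
        (2 ^ (w + 1) + 8) * (Real.logb 2 (Nat.card G) / Real.logb 2 p) +
        3 * (Real.logb 2 (Nat.card G) / Real.logb 2 p) := by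
    field_simp
    ring
  rw [e]
  linarith

end Pool.Agent.Helper46.RL
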