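import Pool.Agent.Helper46.RL.St

/-!
# RL, module KL: the key lemma
-/

set_option autoImplicit false

namespace Pool.Agent.Helper46.RL

open Subgroup
open scoped commutatorElement

namespace KLx

/-- in a finite group generated by `X` a property of monoid type which holds for `X` holds everywhere -/
theorem gen_induction {G : Type} [Group G] [Finite G] {X : Set G} (hX : closure X = ⊤)
    {P : G → Prop} (h1 : P 1) (hm : ∀ a b, P a → P b → P (a * b)) (hx : ∀ x ∈ X, P x) (g : G) :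
    P g := by
  have h : Submonoid.closure X = ⊤ := by
    rw [← Subgroup.closure_toSubmonoid_of_finite, hX]
    rfl
  have hg : g ∈ Submonoid.closure X := by rw [h]; trivial
  induction hg using Submonoid.closure_induction with
  | mem x h' => exact hx x h'
  | one => exact h1
  | mul a b _ _ ha hb => exact hm a b ha hb

theorem normal_of_gen {G : Type} [Group G] [Finite G] {X : Set G} (hX : closure X = ⊤)
    (T : Subgroup G) (h : ∀ x ∈ X, ∀ t ∈ T, x⁻¹ * t * x ∈ T) : T.Normal := by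
  refine ⟨fun t ht g => ?_⟩
  have key : ∀ g : G, ∀ t ∈ T, g⁻¹ * t * g ∈ T := by
    intro g
    refine gen_induction hX (P := fun g => ∀ t ∈ T, g⁻¹ * t * g ∈ T) (fun t ht => by simpa using ht)
      (fun a b ha hb t ht => ?_) h g
    have := hb _ (ha t ht)
    have e : (a * b)⁻¹ * t * (a * b) = b⁻¹ * (a⁻¹ * t * a) * b := by group
    rw [e]; exact this
  have := key g⁻¹ t ht
  simpa using this

/-- the same with generators of `T` modulo a normal subgroup -/
theorem normal_of_gen' {G : Type} [Group G] [Finite G] {X : Set G} (hX : closure X = ⊤)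
    (V : Set G) (K : Subgroup G) [K.Normal]
    (h : ∀ x ∈ X, ∀ v ∈ V, x⁻¹ * v * x ∈ closure V ⊔ K) : (closure V ⊔ K).Normal := by
  refine normal_of_gen hX _ fun x hx t ht => ?_
  let f : G →* G := (MulAut.conj x⁻¹).toMonoidHom
  have hf : ∀ g, f g = x⁻¹ * g * x := fun g => by simp [f, MulAut.conj_apply]
  have h1 : (closure V ⊔ K).map f ≤ closure V ⊔ K := by
    rw [Subgroup.map_sup, MonoidHom.map_closure]
    refine sup_le ?_ ?_
    · rw [closure_le]
      rintro _ ⟨v, hv, rfl⟩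
      rw [hf]; exact h x hx v hv
    · rintro _ ⟨k, hk, rfl⟩
      rw [hf]
      refine mem_sup_right ?_
      have := (inferInstance : K.Normal).conj_mem k hk x⁻¹
      simpa using this
  have h2 : f t ∈ (closure V ⊔ K).map f := mem_map_of_mem _ ht
  rw [← hf]; exact h1 h2

theorem kl0 (G : Type) [Group G] [Finite G] (X U : Set G) (N : Subgroup G) [hN : N.Normal]
    (hX : closure X = ⊤) (hUN : U ⊆ N) (hNU : N ≤ closure U ⊔ ⁅N, N⁆)
    (hV : ⁅⁅N, N⁆, ⁅N, N⁆⁆ = ⊥) (hU : ∀ u ∈ U, ∀ w ∈ U, Commute u w)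
    (hUX : ∀ u ∈ U, ∀ w ∈ U, ∀ x ∈ X, Commute w (x⁻¹ * u * x)) : ⁅N, N⁆ = ⊥ := by
  have hVN : ⁅N, N⁆ ≤ N := commutator_le_left N N
  have hYN : closure U ≤ N := (closure_le N).2 hUN
  have hVV : ⁅N, N⁆ ≤ centralizer (⁅N, N⁆ : Subgroup G) := commutator_eq_bot_iff_le_centralizer.1 hV
  have hYY : closure U ≤ centralizer (closure U : Subgroup G) := by
    rw [centralizer_closure, closure_le]
    intro u hu
    rw [SetLike.mem_coe, mem_centralizer_iff]
    intro w hw
    exact hU w hw u hu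
  have hdec : ∀ n ∈ N, ∃ y ∈ closure U, ∃ v ∈ ⁅N, N⁆, y * v = n := by
    intro n hn
    have h1 : n ∈ ((closure U ⊔ ⁅N, N⁆ : Subgroup G) : Set G) := hNU hn
    rw [mul_normal, Set.mem_mul] at h1
    obtain ⟨y, hy, v, hv, h⟩ := h1
    exact ⟨y, hy, v, hv, h⟩
  -- `C`
  set C : Subgroup G := centralizer (N : Set G) ⊓ ⁅N, N⁆ with hC
  have hCmem : ∀ v ∈ ⁅N, N⁆, (∀ w ∈ U, Commute w v) → v ∈ C := by
    intro v hv hw
    refine mem_inf.2 ⟨?_, hv⟩
    rw [mem_centralizer_iff]
    have h1 : closure U ≤ centralizer ({v} : Set G) := by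
      rw [closure_le]
      intro w hw'
      rw [SetLike.mem_coe, mem_centralizer_singleton_iff]
      exact hw w hw'
    intro n hn
    obtain ⟨y, hy, v', hv', rfl⟩ := hdec n hn
    have e1 : y * v = v * y := mem_centralizer_singleton_iff.1 (h1 hy)
    have e2 : v' * v = v * v' := by
      have := mem_centralizer_iff.1 (hVV hv) v' hv'
      exact this
    rw [mul_assoc, e2, ← mul_assoc, e1, mul_assoc]
  have hCn : C.Normal := by
    rw [hC]; infer_instance
  have hCN : C ≤ N := inf_le_right.trans hVN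
  have hconj : ∀ x ∈ X, ∀ u ∈ U, x⁻¹ * u * x ∈ closure U ⊔ C := by
    intro x hx u hu
    have h1 : x⁻¹ * u * x ∈ N := by
      have := hN.conj_mem u (hUN hu) x⁻¹
      simpa using this
    obtain ⟨y, hy, v, hv, h⟩ := hdec _ h1
    have hvC : v ∈ C := by
      refine hCmem v hv fun w hw => ?_
      have e1 : Commute w (y * v) := by rw [h]; exact hUX u hu w hw x hx
      have e2 : Commute w y := by
        have := mem_centralizer_iff.1 (hYY hy) w (subset_closure hw)
        exact this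
      have e3 : w * (y * v) = (y * v) * w := e1
      have e4 : w * y = y * w := e2
      have e5 : y * (w * v) = y * (v * w) := by
        rw [← mul_assoc, ← e4, mul_assoc, e3, mul_assoc]
      exact mul_left_cancel e5
    rw [← h]
    exact mul_mem (mem_sup_left hy) (mem_sup_right hvC)
  set T : Subgroup G := closure U ⊔ C with hT
  haveI hTn : T.Normal := normal_of_gen' hX U C hconj
  have hTN : T ≤ N := sup_le hYN hCN
  have hTT : T ≤ centralizer (T : Set G) := by
    refine sup_le ?_ ?_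
    · rw [le_centralizer_iff]
      refine sup_le hYY ?_
      exact inf_le_left.trans (centralizer_le hYN)
    · exact inf_le_left.trans (centralizer_le hTN)
  have hNT : N ≤ T ⊔ ⁅N, N⁆ := hNU.trans (sup_le_sup_right le_sup_left _)
  have hKn : (T ⊓ ⁅N, N⁆).Normal := inferInstance
  have hVK : ⁅N, N⁆ ≤ T ⊓ ⁅N, N⁆ := by
    rw [commutator_le]
    intro a ha b hb
    have ha' : a ∈ ((T ⊔ ⁅N, N⁆ : Subgroup G) : Set G) := hNT ha
    have hb' : b ∈ ((T ⊔ ⁅N, N⁆ : Subgroup G) : Set G) := hNT hb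
    rw [mul_normal, Set.mem_mul] at ha' hb'
    obtain ⟨t, ht, v, hv, rfl⟩ := ha'
    obtain ⟨t', ht', v', hv', rfl⟩ := hb'
    rw [← QuotientGroup.eq_one_iff]
    have c1 : ∀ s ∈ T, ∀ w ∈ ⁅N, N⁆, Commute (s : G ⧸ (T ⊓ ⁅N, N⁆)) (w : G ⧸ (T ⊓ ⁅N, N⁆)) := by
      intro s hs w hw
      have : ⁅s, w⁆ ∈ T ⊓ ⁅N, N⁆ := commutator_le_inf T ⁅N, N⁆ (commutator_mem_commutator hs hw)
      rw [← QuotientGroup.eq_one_iff, commutatorElement_def] at this
      rw [← commutatorElement_eq_one_iff_commute, commutatorElement_def]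
      simpa using this
    have c2 : Commute (t : G ⧸ (T ⊓ ⁅N, N⁆)) (t' : G ⧸ (T ⊓ ⁅N, N⁆)) := by
      have e : t * t' = t' * t := (mem_centralizer_iff.1 (hTT ht') t ht)
      have := congrArg (QuotientGroup.mk' (T ⊓ ⁅N, N⁆)) e
      exact this
    have c3 : Commute (v : G ⧸ (T ⊓ ⁅N, N⁆)) (v' : G ⧸ (T ⊓ ⁅N, N⁆)) := by
      have e : v * v' = v' * v := (mem_centralizer_iff.1 (hVV hv') v hv)
      have := congrArg (QuotientGroup.mk' (T ⊓ ⁅N, N⁆)) e
      exact this
    have c4 : Commute ((t : G ⧸ (T ⊓ ⁅N, N⁆)) * v) ((t' : G ⧸ (T ⊓ ⁅N, N⁆)) * v') :=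
      ((c2.mul_right (c1 t ht v' hv')).mul_left ((c1 t' ht' v hv).symm.mul_right c3))
    have c5 := commutatorElement_eq_one_iff_commute.2 c4
    rw [commutatorElement_def] at c5 ⊢
    simpa using c5
  have hVT : ⁅N, N⁆ ≤ T := hVK.trans inf_le_left
  have hNT' : N ≤ T := hNT.trans (sup_le le_rfl hVT)
  have h1 : ⁅T, T⁆ = ⊥ := commutator_eq_bot_iff_le_centralizer.2 hTT
  exact le_bot_iff.1 ((commutator_mono hNT' hNT').trans h1.le)

end KLx

open KLx in
theorem pKL : StKL := by
  intro G _ _ X U N H hN hH hX hUN hNU hV hU hUX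
  have hsurj : Function.Surjective (QuotientGroup.mk' H) := QuotientGroup.mk'_surjective H
  haveI : (N.map (QuotientGroup.mk' H)).Normal := hN.map _ hsurj
  have hmem : ∀ g ∈ H, QuotientGroup.mk' H g = 1 := fun g hg => (QuotientGroup.eq_one_iff g).2 hg
  have h := kl0 (G ⧸ H) (QuotientGroup.mk' H '' X) (QuotientGroup.mk' H '' U)
    (N.map (QuotientGroup.mk' H)) ?_ ?_ ?_ ?_ ?_ ?_
  · rw [← map_commutator] at h
    have := (Subgroup.map_eq_bot_iff _).1 h
    rwa [QuotientGroup.ker_mk'] at this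
  · rw [← MonoidHom.map_closure, hX]
    exact map_top_of_surjective _ hsurj
  · rintro _ ⟨u, hu, rfl⟩
    exact mem_map_of_mem _ (hUN hu)
  · rw [← map_commutator, ← MonoidHom.map_closure, ← Subgroup.map_sup]
    exact map_mono hNU
  · rw [← map_commutator, ← map_commutator, eq_bot_iff]
    rintro _ ⟨g, hg, rfl⟩
    rw [mem_bot]
    exact hmem g (hV hg)
  · rintro _ ⟨u, hu, rfl⟩ _ ⟨w, hw, rfl⟩
    rw [← commutatorElement_eq_one_iff_commute, ← map_commutatorElement]
    exact hmem _ (hU u hu w hw)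
  · rintro _ ⟨u, hu, rfl⟩ _ ⟨w, hw, rfl⟩ _ ⟨x, hx, rfl⟩
    rw [← commutatorElement_eq_one_iff_commute, ← map_inv, ← map_mul, ← map_mul,
      ← map_commutatorElement]
    exact hmem _ (hUX u hu w hw x hx)

end Pool.Agent.Helper46.RL
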