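import Pool.Agent.Helper46.RL.Defs

/-!
# RL (MP_d72c68_al): statements with written proofs

Goal (A): for a finite solvable group `G` every element is obtained from every generating set with at most `15 log₂|G|`
multiplications; (A') for every finite group with at most `50 (1 + log₂|K|) log₂|G|`, `K` the perfect residual;
(B) if the prime factors of the order of the solvable group `G` are `≥ p`, with at most
`(1 + 2/w + (2^(w+1) + 11)/log₂ p) log₂|G|` multiplications, for every `w ≥ 1`.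

`⁅u, w⁆ = u * w * u⁻¹ * w⁻¹`.  `derivedSeries G j` is written `N j` in the docstrings.
-/

set_option autoImplicit false

namespace Pool.Agent.Helper46.RL

open Subgroup
open scoped commutatorElement

/-- `S` together with the inverses of its elements -/
def pm {G : Type} [Group G] (S : Set G) : Set G := {g | g ∈ S ∨ g⁻¹ ∈ S}

/-- `g = z₁^i₁ * ... * z_r^i_r * r` with `i_k < m_k`, `l = [(z₁, m₁), ..., (z_r, m_r)]` -/
def Fac {G : Type} [Group G] : List (G × ℕ) → G → G → Prop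
  | [], g, r => g = r
  | q :: l, g, r => ∃ i < q.2, Fac l ((q.1 ^ i)⁻¹ * g) r

/-- the letters of a list -/
def lt {G : Type} (l : List (G × ℕ)) : Set G := {z | ∃ m, (z, m) ∈ l}

/-- `E m` multiplications are enough for the powers `g^l`, `g^(m-1)`, `g^m` (`l < m`) -/
def EXP (E : ℕ → ℕ) : Prop := ∀ (G : Type) [Group G] (g : G) (m l : ℕ), 2 ≤ m → l < m →
  Re {g} (E m) ({g ^ (m - 1), g ^ m} ∪ {q | l ≠ 0 ∧ q = g ^ l})

/-- cost of a product of powers -/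
def cw {G : Type} (E : ℕ → ℕ) (l : List (G × ℕ)) : ℕ := (l.map fun q => E q.2 + 1).sum

/-- the sequence of powers of an element along a descending sequence of subgroups -/
structure PC {G : Type} [Group G] (N : ℕ → Subgroup G) (p : ℕ → G) (m : ℕ → ℕ) : Prop where
  mem : ∀ j, p j ∈ N j
  pos : ∀ j, 1 ≤ m j
  nxt : ∀ j, p (j + 1) = p j ^ m j
  low : ∀ j i, 0 < i → p j ^ i ∈ N (j + 1) → m j ≤ i

/-! ### Group theory -/

/-- MODULE KL (key lemma).  WRITTEN PROOF.  Pass to `G ⧸ H` (images of `X`, `U`, `N`; `map` commutes with commutators): we may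
assume `H = ⊥`, so `V := ⁅N, N⁆` is abelian, and have to show `V = ⊥`.  `Y := closure U` is abelian (its generators commute, first
hypothesis) and `N = Y ⊔ V`, i.e. every element of `N` is `y * v`.  `C := centralizer N ⊓ V` is normal in `G`; `v ∈ V` is in `C` iff it commutes with all
`w ∈ U` (`V` is abelian, `N = Y V`).  For `u ∈ U`, `x ∈ X` write `x⁻¹ u x = y v`.  Each `w ∈ U` commutes with `x⁻¹ u x` (second hypothesis)
and with `y`, so with `v`: `v ∈ C`.  So `T := Y ⊔ C` satisfies `x⁻¹ T x ≤ T` for `x ∈ X`; `T` is finite, so equality; `X` generates `G`, so `T` is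
normal in `G`.  `T` is abelian (`C` centralises `N ⊇ Y`).  Every element of `N` is `t * v`, `t ∈ T`, `v ∈ V`.  `⁅T, V⁆ ≤ T ⊓ V` (both normal), `⁅T, T⁆ = ⁅V, V⁆ = ⊥`, so
`V = ⁅N, N⁆ ≤ T ⊓ V` (in `G ⧸ (T ⊓ V)` the image of `N = T ⊔ V` is commutative), so `V ≤ T`, `N = T`, `V = ⁅T, T⁆ = ⊥`. -/
def StKL : Prop := ∀ (G : Type) [Group G] [Finite G] (X U : Set G) (N H : Subgroup G) [N.Normal]
  [H.Normal], closure X = ⊤ → U ⊆ N → N ≤ closure U ⊔ ⁅N, N⁆ → ⁅⁅N, N⁆, ⁅N, N⁆⁆ ≤ H →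
  (∀ u ∈ U, ∀ w ∈ U, ⁅u, w⁆ ∈ H) → (∀ u ∈ U, ∀ w ∈ U, ∀ x ∈ X, ⁅w, x⁻¹ * u * x⁆ ∈ H) →
  ⁅N, N⁆ ≤ H

/-- MODULE EXT (a new letter).  WRITTEN PROOF.  `H := closure V ⊔ ⁅N', N'⁆`, `N' = ⁅N, N⁆`.  (a) If `x⁻¹ v x ∉ H` for some `v ∈ V`, `x ∈ X`: take
`x⁻¹ v x` and its inverse `x⁻¹ v⁻¹ x`: 4 multiplications.  (b) Otherwise `x⁻¹ H x ≤ H` for `x ∈ X` (generators of `closure V`; `⁅N', N'⁆` is normal in `G`), `G` is finite and generated by
`X`, so `H` is normal in `G`.  By `StKL` some `⁅u, w⁆` (3 multiplications, its inverse `⁅w, u⁆` 3) or some `⁅w, x⁻¹ u x⁆` (`x⁻¹ u x` and its inverse: 4; then 6) is not in `H`;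
commutators of elements of `N` are in `N'`. -/
def StEXT : Prop := ∀ (G : Type) [Group G] [Finite G] (X U V : Set G) (N : Subgroup G) [N.Normal],
  closure X = ⊤ → U ⊆ N → N ≤ closure U ⊔ ⁅N, N⁆ → V ⊆ (⁅N, N⁆ : Subgroup G) →
  ¬ ⁅N, N⁆ ≤ closure V ⊔ ⁅⁅N, N⁆, ⁅N, N⁆⁆ →
  ∃ v ∈ ⁅N, N⁆, v ∉ closure V ⊔ ⁅⁅N, N⁆, ⁅N, N⁆⁆ ∧ Re (pm X ∪ pm U ∪ pm V) 10 {v, v⁻¹}

/-- MODULE GR (greedy choice of letters in an abelian section).  WRITTEN PROOF.  More generally prove, for a list `l` with (i) the letters of `l` in `B`, `2 ≤ m`, `m ∣ |G|`, (ii) with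
`H := closure ({p} ∪ lt l) ⊔ A`: every `g ∈ H` has `i < m₀`, `r ∈ A` with `Fac l g (p ^ i * r)`, (iii) `m₀ * (l.map snd).prod = A.relIndex H`, (iv) the cost statement, that it can be
extended to a list with `B ≤ H`; induction on `B.index`-type number `H.relIndex B` (strictly decreasing).  Start: `l = []`, `H = closure {p} ⊔ A`: every element is `p ^ i * r` with
`i < m₀`, and `A.relIndex H = m₀` (the cosets `p ^ i A`, `i < m₀`, are different because `m₀` is the least positive exponent with `p ^ m₀ ∈ A`).  Step: if `¬ B ≤ H` the hypothesis (with `V := {p} ∪ lt l`,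
finite) gives `v ∈ B`, `v ∉ H`.  Let `m` be the least positive number with `v ^ m ∈ H`, `m ≥ 2`; `l₁ := (v, m) :: l`, `H₁ := closure ({p} ∪ lt l₁) ⊔ A`.  As `⁅B, B⁆ ≤ A` every subgroup between `A` and `B` is normal in
`B`, so every element of `H₁` is `v ^ i * h`, `i < m`, `h ∈ H`, and `H.relIndex H₁ = m` (so `m ∣ |G|`: the index of a subgroup divides `|H₁|`, which divides `|G|`).  Costs: 10 more
multiplications for `v`, `v⁻¹`. -/
def StGR : Prop := ∀ (G : Type) [Group G] [Finite G] (A B : Subgroup G) (S : Set G) (p : G)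
  (m₀ : ℕ), A ≤ B → ⁅B, B⁆ ≤ A → p ∈ B → 1 ≤ m₀ → p ^ m₀ ∈ A →
  (∀ i, 0 < i → p ^ i ∈ A → m₀ ≤ i) →
  (∀ V : Set G, V.Finite → V ⊆ B → p ∈ V → ¬ B ≤ closure V ⊔ A →
    ∃ v ∈ B, v ∉ closure V ⊔ A ∧ Re (S ∪ pm V) 10 {v, v⁻¹}) →
  ∃ l : List (G × ℕ), (∀ q ∈ l, q.1 ∈ B ∧ 2 ≤ q.2 ∧ q.2 ∣ Nat.card G) ∧
    (∀ g ∈ B, ∃ i < m₀, ∃ r ∈ A, Fac l g (p ^ i * r)) ∧
    m₀ * (l.map Prod.snd).prod = A.relIndex B ∧ B ≤ closure ({p} ∪ lt l) ⊔ A ∧
    Re (S ∪ pm {p}) (10 * l.length) (pm (lt l))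

/-- MODULE PROD (the letters of all layers).  WRITTEN PROOF.  `N j = derivedSeries G j`, `N 0 = ⊤`, `N (j+1) = ⁅N j, N j⁆`, all normal.  Induction on `h`, with the additional
information `N j ≤ closure ({p j} ∪ lt (L j)) ⊔ N (j+1)` for `j < h`.  Layer `0`: `StGR` with `B = ⊤`, `A = N 1`, `S = pm X`, and the oracle: if `closure V ⊔ N 1 ≠ ⊤` some `x ∈ X`
is not in it (cost `0`).  Layer `j + 1`: `StGR` with `B = N (j+1)`, `A = N (j+2)`, `S = pm X ∪ pm U`, `U = {p j} ∪ lt (L j)`, and the oracle `StEXT` for `N = N j`.  `StGR` applies because of `PC`.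
Product of the indices: `A.relIndex B * |A| = |B|`. -/
def StPROD : Prop := ∀ (G : Type) [Group G] [Finite G] (X : Set G) (p : ℕ → G) (m : ℕ → ℕ),
  closure X = ⊤ → PC (fun j => derivedSeries G j) p m → ∀ h : ℕ, ∃ L : ℕ → List (G × ℕ),
    (∀ j < h, ∀ q ∈ L j, q.1 ∈ derivedSeries G j ∧ 2 ≤ q.2 ∧ q.2 ∣ Nat.card G) ∧
    (∀ j < h, ∀ g ∈ derivedSeries G j, ∃ i < m j, ∃ r ∈ derivedSeries G (j + 1),
      Fac (L j) g (p j ^ i * r)) ∧
    (∏ j ∈ Finset.range h, (m j * ((L j).map Prod.snd).prod)) * Nat.card (derivedSeries G h) =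
      Nat.card G ∧
    Re (pm X ∪ pm {z | ∃ j < h, z = p j}) (10 * ∑ j ∈ Finset.range h, (L j).length)
      (pm {z | ∃ j < h, z ∈ lt (L j)})

/-- MODULE IRR (irredundant generating lists).  WRITTEN PROOF.  Greedy: start with the empty list, `H = ⊥`; if `H ≠ ⊤` some `x ∈ X` is not in `H`; new list `x :: xs`,
`H₁ = closure (insert x H)`, `k = H.relIndex H₁ ≥ 2`, `k ∣ |G|`; the product of the `k`s is `|H|`.  Induction on the index of `H`. -/
def StIRR : Prop := ∀ (G : Type) [Group G] [Finite G] (X : Set G), closure X = ⊤ →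
  ∃ (xs : List G) (ks : List ℕ), (∀ x ∈ xs, x ∈ X) ∧ closure {x | x ∈ xs} = ⊤ ∧
    ks.length = xs.length ∧ (∀ k ∈ ks, 2 ≤ k ∧ k ∣ Nat.card G) ∧ ks.prod = Nat.card G

/-- existence of the sequence of powers (`m j` = order of `p j` modulo `N (j+1)`; `N (j+1)` has finite index) -/
def StPC : Prop := ∀ (G : Type) [Group G] [Finite G] (N : ℕ → Subgroup G) (P : G), P ∈ N 0 →
  ∃ (p : ℕ → G) (m : ℕ → ℕ), PC N p m ∧ p 0 = P ∧ ∀ j, m j ∣ Nat.card G

/-! ### Costs -/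

/-- MODULE INV (all inverses from one).  WRITTEN PROOF.  `Q` = the set of the products of the nonempty suffixes of `xs`: computed from the right with `length - 1` multiplications.
For `xs = x :: l`, `l ≠ []`: `(l.prod)⁻¹ = (x * l.prod)⁻¹ * x`, `x⁻¹ = l.prod * (x * l.prod)⁻¹`; so 2 multiplications and induction on `l` (state the induction for a source set that contains the
letters, the suffix products of `l` and `(l.prod)⁻¹`). -/
def StINV : Prop := ∀ (G : Type) [Group G] (xs : List G), xs ≠ [] → ∃ Q : Set G, xs.prod ∈ Q ∧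
  Re {x | x ∈ xs} (xs.length - 1) Q ∧
  Re ({x | x ∈ xs} ∪ Q ∪ {xs.prod⁻¹}) (2 * (xs.length - 1)) {x | x⁻¹ ∈ xs}

/-- MODULE PP (powers and inverses along the sequence).  WRITTEN PROOF.  Induction on `h` for all sequences (pass to `fun j => p (j + 1)`).  `h = 0`: clear (`p 0 = p h`).
Step: if `m 0 = 1` then `p 1 = p 0`, `e 0 = 0`.  If `2 ≤ m 0`: `EXP` gives `p 0 ^ e 0` (if `e 0 ≠ 0`), `p 0 ^ (m 0 - 1)`, `p 0 ^ m 0 = p 1`; induction hypothesis from `p 1`; then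
`(p 0)⁻¹ = p 0 ^ (m 0 - 1) * (p 1)⁻¹`, one multiplication. -/
def StPP : Prop := ∀ (E : ℕ → ℕ), EXP E → ∀ (G : Type) [Group G] (p : ℕ → G) (m e : ℕ → ℕ)
  (h r : ℕ), (∀ j, p (j + 1) = p j ^ m j) → (∀ j, e j < m j) → Re {p h} r {(p h)⁻¹} →
  Re {p 0} ((∑ j ∈ Finset.range h, if 2 ≤ m j then E (m j) + 1 else 0) + r)
    ({z | ∃ j ≤ h, z = p j ∨ z = (p j)⁻¹} ∪ {z | ∃ j < h, e j ≠ 0 ∧ z = p j ^ e j})

/-- MODULE POW (product of powers).  WRITTEN PROOF.  Induction on `l`: `a = z ^ i * a'`; `z ^ i` costs `E m` (if `i ≠ 0`), the multiplication `1` (if `i ≠ 0` and `a' ≠ 1`). The inverse: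
`a⁻¹ = a'⁻¹ * (z⁻¹) ^ i`. -/
def StPOW : Prop := ∀ (E : ℕ → ℕ), EXP E → ∀ (G : Type) [Group G] (S : Set G)
  (l : List (G × ℕ)) (g r : G), (∀ q ∈ l, q.1 ∈ S ∧ 2 ≤ q.2) → Fac l g r →
  ∃ a, g = a * r ∧ (a = 1 ∨ ∃ c, c + 1 ≤ cw E l ∧ Re S c {a}) ∧
    ((∀ q ∈ l, q.1⁻¹ ∈ S) → (a = 1 ∨ ∃ c, c + 1 ≤ cw E l ∧ Re S c {a⁻¹}))

/-- the binary method -/
def EA (m : ℕ) : ℕ := 4 * Nat.log 2 (m - 1) + 1

/-- MODULE EA.  WRITTEN PROOF.  For `l ≥ 1`, `g ^ l` costs at most `2 * Nat.log 2 l` multiplications (strong induction: `g ^ (2 k) = g ^ k * g ^ k`, `g ^ (2 k + 1) = g ^ (2 k) * g`,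
`Nat.log 2 (2 k) = Nat.log 2 (2 k + 1) = Nat.log 2 k + 1`).  So `2 * Nat.log 2 (m - 1)` for `g ^ l`, the same for `g ^ (m - 1)`, and `1` for `g ^ m = g ^ (m - 1) * g`. -/
def StEA : Prop := EXP EA

/-- the `2^w`-ary method of Yao for two exponents -/
def EB (w m : ℕ) : ℕ :=
  w * Nat.log (2 ^ w) m + 2 * (Nat.log (2 ^ w) m + (2 ^ w - 2)) + 1

/-- MODULE EB.  WRITTEN PROOF.  `b = 2 ^ w`, `k = Nat.log b m`.  (1) `g ^ (b ^ j)`, `j ≤ k`: `w * k` squarings.  (2) Claim: for a nonempty finite set `J` of indices, `a : J → ℕ`, digits `1 ≤ e_j ≤ c`: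
from the `g ^ a_j` one gets `g ^ (∑ a_j)` and `g ^ (∑ e_j a_j)` with `|J| - 1 + (c - 1)` multiplications.  Induction on `c`: `c = 1`: `|J| - 1` multiplications.  Step `c + 1`: `J' = {j | 2 ≤ e_j}`; if it is empty
as for `c = 1`; otherwise the claim for `J'`, `e_j - 1 ≤ c` gives `g ^ (∑_{J'} a_j)`, `g ^ (∑_{J'} (e_j - 1) a_j)` with `|J'| - 1 + (c - 1)`; multiply the first by the `g ^ a_j`, `j ∉ J'`
(`|J| - |J'|`), and the second by the result (1).  (3) an exponent `1 ≤ l ≤ m` is `∑_{j ≤ k} e_j b ^ j` with digits `< b` (`Nat.digits`), so with `c = b - 1` and `J` = the set of the indices of the nonzero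
digits, `|J| ≤ k + 1`: at most `k + (b - 2)` multiplications.  Do this for `l` and for `m - 1`, and multiply `g ^ (m - 1)` by `g`. -/
def StEB : Prop := ∀ w : ℕ, 1 ≤ w → EXP (EB w)

/-- MODULE BS (Babai-Szemeredi).  WRITTEN PROOF.  Induction on `n` (for all `D`, `S`, `e`).  If every element of `G` is `c₁⁻¹ * c₂` with `c₁, c₂ ∈ D`: cost `2 e + 1`.  (If `c₁ = 1` or `c₂ = 1` it is cheaper; if
both are `1`, `g = 1 = x * x⁻¹` for some `x ∈ X`, if `X` is empty `G` is trivial and then `1 ∈ D`... use the hypothesis that `1` is available.)  Otherwise `E := {c₁⁻¹ c₂}` is a proper subset of `G` containing `1`, so not closed under right multiplication by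
the `x ∈ X` (`G` finite, generated by `X`): there are `c₁, c₂ ∈ D`, `x ∈ X` with `y := c₁⁻¹ c₂ x ∉ E`.  Then `D` and `D y` are disjoint, `D₁ := D ∪ D y` has twice as many elements, so
`n ≥ 1`.  `y` and `y⁻¹ = x⁻¹ c₂⁻¹ c₁` cost at most `4 e + 4`; for `D₁` the constants are `S ∪ {y, y⁻¹}`, `e + 1`, `n - 1`. -/
def StBS : Prop := ∀ (G : Type) [Group G] [Finite G] (X : Set G), closure X = ⊤ → ∀ (n : ℕ)
  (S D : Set G) (e : ℕ), pm X ⊆ S → 1 ∈ S → D.Nonempty → (∀ c ∈ D, Re S e {c} ∧ Re S e {c⁻¹}) →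
  Nat.card G < 2 ^ (n + 1) * D.ncard → ∀ g : G, Re S ((n + 1) * (4 * e + 4 * n + 4)) {g}

/-! ### Assembly -/

/-- MODULE ASM (solvable groups).  WRITTEN PROOF.  `StIRR`: `xs`, `ks`; `P = xs.prod`; `StPC` for `N j = derivedSeries G j`; `h` with `N h = ⊥`, so `p h = 1`, and `Re {p h} 0 {(p h)⁻¹}`.
`StPROD` (for the generating set `{x | x ∈ xs}`): `L`.  Let `g` be given.  By recursion on `j`: `g_0 = g`, `g_j = a_j * (p j ^ e j * g_(j+1))`, `g_j ∈ N j`, `a_j` from `StPOW`; so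
`g = ∏ (a_j * p j ^ e j)`, `j < h` (`g_h ∈ N h = ⊥`).  Costs: suffix products `d - 1` (`d = xs.length`), then `StPP` (`r = 0`): `∑_{m_j ≥ 2} (E (m j) + 1)`, gives all `p j`, `(p j)⁻¹`, `p j ^ e j`;
then `StINV`: `2 (d - 1)`; `StPROD`: `10 ∑ (L j).length`; `StPOW`: `∑ cw E (L j)`, this includes one multiplication for each `a_j`; one more multiplication for each `j` with `e j ≠ 0` (then `m j ≥ 2`).
Altogether at most `∑_{m_j ≥ 2} (E (m j) + 2) + ∑_j ∑_{q ∈ L j} (E q.2 + 11) + 3 (d - 1)`; if all factors are trivial, `g = 1 = P * P⁻¹` costs one multiplication after the computation of `P⁻¹`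
(at most `3 d` in place of `3 (d - 1)`).  `ms` = the list of all `q.2` and of all `m j ≥ 2`. -/
def StASM : Prop := ∀ (E : ℕ → ℕ), EXP E → ∀ (G : Type) [Group G] [Finite G] [Group.IsSolvable G]
  [Nontrivial G] (X : Set G), closure X = ⊤ → ∃ ms ks : List ℕ,
    (∀ k ∈ ms, 2 ≤ k ∧ k ∣ Nat.card G) ∧ ms.prod = Nat.card G ∧
    (∀ k ∈ ks, 2 ≤ k ∧ k ∣ Nat.card G) ∧ ks.prod = Nat.card G ∧
    ∀ g : G, Re X ((ms.map fun k => E k + 11).sum + 3 * ks.length) {g}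

/-- MODULE FINA (numerics for A).  WRITTEN PROOF.  `StASM` with `E = EA`: `EA k + 11 ≤ 12 log₂ k` for `k ≥ 2` (`k = 2`: `12 ≤ 12`; `k ≥ 3`: `4 log₂ k + 12 ≤ 12 log₂ k` as `log₂ k ≥ 3/2`), `ks.length ≤ log₂ |G|`; `Re.obt`. -/
def StFINA : Prop := ∀ (G : Type) [Group G] [Finite G] [Group.IsSolvable G] [Nontrivial G] (X : Set G),
  closure X = ⊤ → ∀ g : G, ∃ k : ℕ, (k : ℝ) ≤ 15 * Real.logb 2 (Nat.card G) ∧ Obt X g k

/-- MODULE FINB (numerics for B).  WRITTEN PROOF.  `StASM` with `E = EB w`: with `k₀ = Nat.log (2^w) k`: `w * k₀ ≤ log₂ k`, so `EB w k + 11 ≤ (1 + 2/w) log₂ k + 2^(w+1) + 8`.  Every `k` in the lists is `≥ p` (its least prime factor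
divides `|G|`), so the lists have length `≤ log₂ |G| / log₂ p`. -/
def StFINB : Prop := ∀ (G : Type) [Group G] [Finite G] [Group.IsSolvable G] [Nontrivial G] (X : Set G)
  (w p : ℕ), 1 ≤ w → 2 ≤ p → (∀ q : ℕ, q.Prime → q ∣ Nat.card G → p ≤ q) → closure X = ⊤ →
  ∀ g : G, ∃ k : ℕ, (k : ℝ) ≤
    (1 + 2 / w + (2 ^ (w + 1) + 11) / Real.logb 2 p) * Real.logb 2 (Nat.card G) ∧ Obt X g k

/-- MODULE ASM2 (all finite groups).  WRITTEN PROOF.  As in `StASM` down to `K := derivedSeries G h` (any `h`), with `r`: `(p h)⁻¹ = p h ^ (orderOf (p h) - 1)`, cost at most `E |K|`-like: use `EXP` with `m = orderOf (p h) ≤ |K|`, so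
`r = EA (orderOf (p h))` if `orderOf (p h) ≥ 2`, else `0`; `EA` is monotone.  All `p j`, `(p j)⁻¹`, `x⁻¹`, and the letters and their inverses are available.  `D` = the set of the products `∏_{j<h} (a_j * p j ^ i_j)` (`a_j` product of powers
of the letters of `L j`), `1 ∈ D`.. for every `g` there is `c ∈ D` with `c⁻¹ * g ∈ K` (recursion as in `StASM`), so `|D| * |K| ≥ |G|`; each `c ∈ D` and `c⁻¹` costs at most `e := 1 + ∑_{m_j ≥ 2} (EA (m j) + 1) + ∑ cw EA (L j)` (the `1` for `1 = P * P⁻¹`),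
`e ≤ 1 + 5 log₂|G|`.  `StBS` with `n = Nat.log 2 |K|`.  Total at most `15 L + 4 n + 1 + (n + 1) (4 (1 + 5 L) + 4 n + 4)`, `L = log₂ |G| ≥ 1`, `n ≤ L`. -/
def StFINC : Prop := ∀ (G : Type) [Group G] [Finite G] [Nontrivial G] (X : Set G) (h : ℕ),
  closure X = ⊤ → ∀ g : G, ∃ k : ℕ, (k : ℝ) ≤
    60 * (1 + Real.logb 2 (Nat.card (derivedSeries G h))) * Real.logb 2 (Nat.card G) ∧ Obt X g k

end Pool.Agent.Helper46.RL
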